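import Pool.Agent.Lib.MP_f91ac8_co.FQ.Stmts45

set_option autoImplicit false

namespace Pool.Agent.Lib.MP_f91ac8_co.FQ.G45

open Classical

theorem X_sub (d p d' p' : ℤ) : X (d - d') (p - p') = X d p - X d' p' := by
  unfold X; push_cast; ring

theorem X_zero : X 0 0 = 0 := by unfold X; simp

/-- frames, physical coordinate -/
def H (m : ℕ → ℤ) (cl : ℕ → ℕ) (c : ℕ) : ℕ → ℤ
  | 0 => 0
  | t + 1 => if c ≤ cl t then m t + m (t + 1) - H m cl c t else H m cl c t

/-- frames, second coordinate -/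
def hq (Q : ℕ → ℤ) (cl : ℕ → ℕ) (c : ℕ) : ℕ → ℤ
  | 0 => 0
  | t + 1 => if c ≤ cl t then Q t - hq Q cl c t else hq Q cl c t

theorem bool_core (X0 Q Q' P Xc Xc' u0 v0 : Bool)
    (h1 : u0 = true → P = Q ∧ Xc = X0) (h2 : v0 = true → (!P) = Q' ∧ Xc' = X0)
    (h3 : Q = true → Q' = true)
    (h4 : ¬(Q = false ∧ Q' = true ∧ P = false ∧ Xc = true ∧ Xc' = true)) :
    (if X0 = Q' then 1 else 0) +
      (if v0 = true then 0 else ((if Xc' = Q' then 1 else 0) + (if Xc' = !P then 1 else 0))) ≤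
    (if X0 = Q then 1 else 0) +
      (if u0 = true then 0 else ((if Xc = Q then 1 else 0) + (if Xc = P then 1 else 0))) +
      (1 : ℕ) := by
  revert X0 Q Q' P Xc Xc' u0 v0
  decide

/-- the data of a path together with the separation of scales -/
structure Data (K k : ℕ) (m Q : ℕ → ℤ) (cl : ℕ → ℕ) (B e : ℕ → ℝ) : Prop where
  m0 : m 0 = 1
  mono : ∀ t, t < K → m t < m (t + 1)
  emp : ∀ t, t < K → Emp (m t) (m (t + 1)) (X (m t + m (t + 1)) (Q t))
  clk : ∀ t, cl t ≤ k
  hB : ∀ c t, 1 ≤ c → c ≤ k → t ≤ K → |((m t - H m cl c t : ℤ) : ℝ)| ≤ B c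
  hE : ∀ c t, 1 ≤ c → c ≤ k → t ≤ K → |X (H m cl c t) (hq Q cl c t)| ≤ e c
  sep : ∀ c, 1 ≤ c → c ≤ k → ∀ d p : ℤ, |(d : ℝ)| ≤ 2 * B c → |X d p| ≤ 4 * e c → d = 0 ∧ p = 0
  Bmono : ∀ c, 1 ≤ c → c < k → B c ≤ B (c + 1)
  emono : ∀ c, 1 ≤ c → c < k → e (c + 1) ≤ e c
  epos : ∀ c, 1 ≤ c → c ≤ k → 0 ≤ e c
  Xne : ∀ d p : ℤ, d ≠ 0 → X d p ≠ 0

section

variable {K k : ℕ} {m Q : ℕ → ℤ} {cl : ℕ → ℕ} {B e : ℕ → ℝ}

theorem H_top (D : Data K k m Q cl B e) : ∀ t, H m cl (k + 1) t = 0 ∧ hq Q cl (k + 1) t = 0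
  | 0 => ⟨rfl, rfl⟩
  | t + 1 => by
    have := D.clk t
    have h := H_top D t
    constructor
    · rw [H, if_neg (by omega)]; exact h.1
    · rw [hq, if_neg (by omega)]; exact h.2

theorem m_pos (D : Data K k m Q cl B e) : ∀ t, t ≤ K → 1 ≤ m t
  | 0, _ => by rw [D.m0]
  | t + 1, h => by
    have h1 := m_pos D t (by omega)
    have h2 := D.mono t (by omega)
    omega

/-- side of `m t` with respect to the frame `c` -/
def P (m : ℕ → ℤ) (cl : ℕ → ℕ) (c t : ℕ) : Bool :=
  decide (H m cl c t < m t ∨ (H m cl c t = m t ∧ t % 2 = 0))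

/-- sign of the internal coordinate of the frame `c` -/
noncomputable def Y (m Q : ℕ → ℤ) (cl : ℕ → ℕ) (c t : ℕ) : Bool :=
  decide (0 ≤ X (H m cl c t) (hq Q cl c t))

/-- the term of the frame `c` -/
noncomputable def ph (m Q : ℕ → ℤ) (cl : ℕ → ℕ) (c t : ℕ) : ℕ :=
  if decide (H m cl c t = H m cl (c + 1) t) = true then 0 else
    (if Y m Q cl c t = P m cl (c + 1) t then 1 else 0) +
    (if Y m Q cl c t = P m cl c t then 1 else 0)

theorem ph_eq {m Q : ℕ → ℤ} {cl : ℕ → ℕ} {c t : ℕ} (h : H m cl c t = H m cl (c + 1) t) :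
    ph m Q cl c t = 0 := by
  unfold ph; rw [if_pos (by simpa using h)]

theorem ph_ne {m Q : ℕ → ℤ} {cl : ℕ → ℕ} {c t : ℕ} (h : H m cl c t ≠ H m cl (c + 1) t) :
    ph m Q cl c t = (if Y m Q cl c t = P m cl (c + 1) t then 1 else 0) +
    (if Y m Q cl c t = P m cl c t then 1 else 0) := by
  unfold ph; rw [if_neg (by simpa using h)]

/-- environment term -/
noncomputable def om (m Q : ℕ → ℤ) (cl : ℕ → ℕ) (c t : ℕ) : ℕ :=
  if Y m Q cl c t = P m cl c t then 1 else 0

theorem eq_pair (D : Data K k m Q cl B e) (c t : ℕ) (h1 : 1 ≤ c) (h2 : c ≤ k) (ht : t ≤ K)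
    (h : H m cl c t = H m cl (c + 1) t) : hq Q cl c t = hq Q cl (c + 1) t := by
  have hb := D.hB c t h1 h2 ht
  have he := D.hE c t h1 h2 ht
  have he' : |X (H m cl (c + 1) t) (hq Q cl (c + 1) t)| ≤ e c := by
    rcases Nat.lt_or_ge c k with h3 | h3
    · exact (D.hE (c + 1) t (by omega) (by omega) ht).trans (D.emono c h1 h3)
    · have : c = k := by omega
      subst this
      rw [(H_top D t).1, (H_top D t).2, X_zero, abs_zero]
      exact D.epos c h1 h2
  have := D.sep c h1 h2 (H m cl c t - H m cl (c + 1) t) (hq Q cl c t - hq Q cl (c + 1) t) ?_ ?_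
  · omega
  · rw [h, sub_self]
    have := abs_nonneg (((m t - H m cl c t : ℤ) : ℝ))
    simp only [Int.cast_zero, abs_zero]
    linarith
  · rw [X_sub]
    have h4 := abs_sub (X (H m cl c t) (hq Q cl c t)) (X (H m cl (c + 1) t) (hq Q cl (c + 1) t))
    have := D.epos c h1 h2
    linarith

theorem far (D : Data K k m Q cl B e) (c t : ℕ) (h1 : 1 ≤ c) (h2 : c ≤ k) (ht : t ≤ K)
    (h : H m cl c t ≠ H m cl (c + 1) t) :
    |m t - H m cl c t| < |H m cl c t - H m cl (c + 1) t| := by
  have hb := D.hB c t h1 h2 ht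
  have he := D.hE c t h1 h2 ht
  have he' : |X (H m cl (c + 1) t) (hq Q cl (c + 1) t)| ≤ e c := by
    rcases Nat.lt_or_ge c k with h3 | h3
    · exact (D.hE (c + 1) t (by omega) (by omega) ht).trans (D.emono c h1 h3)
    · have : c = k := by omega
      subst this
      rw [(H_top D t).1, (H_top D t).2, X_zero, abs_zero]
      exact D.epos c h1 h2
  by_contra hcon
  have hle : |H m cl c t - H m cl (c + 1) t| ≤ |m t - H m cl c t| := not_lt.1 hcon
  have hle' : |((H m cl c t - H m cl (c + 1) t : ℤ) : ℝ)| ≤ |((m t - H m cl c t : ℤ) : ℝ)| := by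
    rw [← Int.cast_abs, ← Int.cast_abs]; exact_mod_cast hle
  have hnn := abs_nonneg (((m t - H m cl c t : ℤ) : ℝ))
  have := D.sep c h1 h2 (H m cl c t - H m cl (c + 1) t) (hq Q cl c t - hq Q cl (c + 1) t)
    (by linarith) (by
      rw [X_sub]
      have h4 := abs_sub (X (H m cl c t) (hq Q cl c t)) (X (H m cl (c + 1) t) (hq Q cl (c + 1) t))
      have := D.epos c h1 h2
      linarith)
  omega

/-- (FP) -/
theorem P_up (D : Data K k m Q cl B e) (c t : ℕ) (h1 : 1 ≤ c) (h2 : c ≤ k) (ht : t ≤ K)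
    (h : H m cl c t ≠ H m cl (c + 1) t) :
    P m cl (c + 1) t = decide (H m cl (c + 1) t < H m cl c t) := by
  have hf := far D c t h1 h2 ht h
  unfold P
  congr 1
  rw [eq_iff_iff]
  rcases abs_cases (m t - H m cl c t) with ⟨ha, _⟩ | ⟨ha, _⟩ <;>
  rcases abs_cases (H m cl c t - H m cl (c + 1) t) with ⟨hb, _⟩ | ⟨hb, _⟩ <;>
  · rw [ha, hb] at hf
    constructor
    · rintro (h3 | h3) <;> omega
    · intro h3; left; omega

/-- (FX) -/
theorem Y_up (D : Data K k m Q cl B e) (c t : ℕ) (h1 : 1 ≤ c) (h2 : c ≤ k) (ht : t ≤ K)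
    (h : H m cl c t ≠ H m cl (c + 1) t) :
    Y m Q cl c t = decide (0 ≤ X (H m cl c t - H m cl (c + 1) t)
      (hq Q cl c t - hq Q cl (c + 1) t)) := by
  have hX : |X (H m cl (c + 1) t) (hq Q cl (c + 1) t)| <
      |X (H m cl c t - H m cl (c + 1) t) (hq Q cl c t - hq Q cl (c + 1) t)| := by
    rcases Nat.lt_or_ge c k with h3 | h3
    · by_contra hcon
      have hcon := not_lt.1 hcon
      have hE := D.hE (c + 1) t (by omega) (by omega) ht
      have hb := D.hB c t h1 h2 ht
      have hb' := D.hB (c + 1) t (by omega) (by omega) ht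
      have hbm := D.Bmono c h1 h3
      have hep := D.epos (c + 1) (by omega) (by omega)
      have := D.sep (c + 1) (by omega) (by omega) (H m cl c t - H m cl (c + 1) t)
        (hq Q cl c t - hq Q cl (c + 1) t) (by
          have h5 : ((H m cl c t - H m cl (c + 1) t : ℤ) : ℝ) =
            ((m t - H m cl (c + 1) t : ℤ) : ℝ) - ((m t - H m cl c t : ℤ) : ℝ) := by
            push_cast; ring
          rw [h5]
          have h4 := abs_sub (((m t - H m cl (c + 1) t : ℤ) : ℝ)) (((m t - H m cl c t : ℤ) : ℝ))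
          linarith) (by linarith)
      omega
    · have : c = k := by omega
      subst this
      rw [(H_top D t).1, (H_top D t).2, X_zero, abs_zero, abs_pos]
      rw [(H_top D t).1] at h
      apply D.Xne
      simpa using h
  unfold Y
  congr 1
  rw [eq_iff_iff]
  rw [X_sub] at hX ⊢
  set a := X (H m cl c t) (hq Q cl c t)
  set b := X (H m cl (c + 1) t) (hq Q cl (c + 1) t)
  rcases abs_cases b with ⟨hb, _⟩ | ⟨hb, _⟩ <;>
  rcases abs_cases (a - b) with ⟨ha, _⟩ | ⟨ha, _⟩ <;>
  · rw [ha, hb] at hX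
    constructor <;> intro h3 <;> linarith

theorem H_refl {c t : ℕ} (h : c ≤ cl t) : H m cl c (t + 1) = m t + m (t + 1) - H m cl c t := by
  rw [H, if_pos h]

theorem H_keep {c t : ℕ} (h : cl t < c) : H m cl c (t + 1) = H m cl c t := by
  rw [H, if_neg (by omega)]

theorem hq_refl {c t : ℕ} (h : c ≤ cl t) : hq Q cl c (t + 1) = Q t - hq Q cl c t := by
  rw [hq, if_pos h]

theorem hq_keep {c t : ℕ} (h : cl t < c) : hq Q cl c (t + 1) = hq Q cl c t := by
  rw [hq, if_neg (by omega)]

theorem P_refl {c t : ℕ} (h : c ≤ cl t) : P m cl c (t + 1) = !P m cl c t := by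
  unfold P
  rw [H_refl h]
  rw [← decide_not]
  congr 1
  rw [eq_iff_iff]
  omega

theorem Y_keep {c t : ℕ} (h : cl t < c) : Y m Q cl c (t + 1) = Y m Q cl c t := by
  unfold Y; rw [H_keep h, hq_keep h]

theorem P_mono (D : Data K k m Q cl B e) {c t : ℕ} (ht : t < K) (h : cl t < c)
    (hP : P m cl c t = true) : P m cl c (t + 1) = true := by
  unfold P at hP ⊢
  rw [H_keep h]
  have := D.mono t ht
  simp only [decide_eq_true_eq] at hP ⊢
  omega

/-- claim B -/
theorem ph_low (D : Data K k m Q cl B e) (c t : ℕ) (ht : t < K) (h1 : 1 ≤ c) (h2 : c + 1 ≤ cl t) :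
    ph m Q cl c (t + 1) = ph m Q cl c t := by
  have hk := D.clk t
  have e1 : H m cl c (t + 1) = m t + m (t + 1) - H m cl c t := H_refl (by omega)
  have e2 : H m cl (c + 1) (t + 1) = m t + m (t + 1) - H m cl (c + 1) t := H_refl (by omega)
  by_cases h : H m cl c t = H m cl (c + 1) t
  · rw [ph_eq h, ph_eq (by rw [e1, e2, h])]
  · have h' : H m cl c (t + 1) ≠ H m cl (c + 1) (t + 1) := by rw [e1, e2]; omega
    rw [ph_ne h, ph_ne h']
    rw [P_refl (c := c) (by omega), P_refl (c := c + 1) (by omega)]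
    have y1 := Y_up D c t h1 (by omega) (by omega) h
    have y2 := Y_up D c (t + 1) h1 (by omega) (by omega) h'
    have hne := D.Xne (H m cl c t - H m cl (c + 1) t) (hq Q cl c t - hq Q cl (c + 1) t) (by omega)
    have hY : Y m Q cl c (t + 1) = !Y m Q cl c t := by
      rw [y1, y2, ← decide_not]
      congr 1
      rw [eq_iff_iff]
      rw [e1, e2, hq_refl (c := c) (by omega), hq_refl (c := c + 1) (by omega)]
      have : X (m t + m (t + 1) - H m cl c t - (m t + m (t + 1) - H m cl (c + 1) t))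
          (Q t - hq Q cl c t - (Q t - hq Q cl (c + 1) t)) =
          - X (H m cl c t - H m cl (c + 1) t) (hq Q cl c t - hq Q cl (c + 1) t) := by
        unfold X; push_cast; ring
      rw [this]
      constructor
      · intro h3 h4
        apply hne; linarith
      · intro h3
        linarith [not_le.1 h3]
    rw [hY]
    congr 1
    · cases Y m Q cl c t <;> cases P m cl (c + 1) t <;> simp
    · cases Y m Q cl c t <;> cases P m cl c t <;> simp

/-- claim A -/
theorem sum_up (D : Data K k m Q cl B e) (t : ℕ) (ht : t < K) (j : ℕ) :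
    ∀ c, c + j = k + 1 → cl t < c → 1 ≤ c →
    (∑ i ∈ Finset.Ico c (k + 1), ph m Q cl i (t + 1)) + om m Q cl c t =
    (∑ i ∈ Finset.Ico c (k + 1), ph m Q cl i t) + om m Q cl c (t + 1) := by
  induction j with
  | zero =>
    intro c hc _ _
    have hc : c = k + 1 := by omega
    subst hc
    rw [Finset.Ico_self, Finset.sum_empty, Finset.sum_empty]
    have h1 := m_pos D t (by omega)
    have h2 := m_pos D (t + 1) (by omega)
    unfold om Y P
    rw [(H_top D t).1, (H_top D t).2, (H_top D (t + 1)).1, (H_top D (t + 1)).2, X_zero]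
    rw [decide_eq_true (show (0 : ℤ) < m t ∨ ((0 : ℤ) = m t ∧ t % 2 = 0) by left; omega),
      decide_eq_true (show (0 : ℤ) < m (t + 1) ∨ ((0 : ℤ) = m (t + 1) ∧ (t + 1) % 2 = 0) by
        left; omega)]
  | succ j ih =>
    intro c hc hcl h1
    have hrec := ih (c + 1) (by omega) (by omega) (by omega)
    rw [Finset.sum_eq_sum_Ico_succ_bot (show c < k + 1 by omega),
      Finset.sum_eq_sum_Ico_succ_bot (show c < k + 1 by omega)]
    have e1 : H m cl c (t + 1) = H m cl c t := H_keep hcl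
    have e2 : H m cl (c + 1) (t + 1) = H m cl (c + 1) t := H_keep (by omega)
    by_cases h : H m cl c t = H m cl (c + 1) t
    · have h' : H m cl c (t + 1) = H m cl (c + 1) (t + 1) := by rw [e1, e2, h]
      have q := eq_pair D c t h1 (by omega) (by omega) h
      have q' := eq_pair D c (t + 1) h1 (by omega) (by omega) h'
      have f1 : ph m Q cl c t = 0 := ph_eq h
      have f2 : ph m Q cl c (t + 1) = 0 := ph_eq h'
      have g1 : om m Q cl c t = om m Q cl (c + 1) t := by unfold om Y P; rw [h, q]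
      have g2 : om m Q cl c (t + 1) = om m Q cl (c + 1) (t + 1) := by unfold om Y P; rw [h', q']
      rw [f1, f2, g1, g2]
      omega
    · have h' : H m cl c (t + 1) ≠ H m cl (c + 1) (t + 1) := by rw [e1, e2]; exact h
      have p1 := P_up D c t h1 (by omega) (by omega) h
      have p2 := P_up D c (t + 1) h1 (by omega) (by omega) h'
      have pp : P m cl (c + 1) (t + 1) = P m cl (c + 1) t := by rw [p1, p2, e1, e2]
      have yy : Y m Q cl c (t + 1) = Y m Q cl c t := Y_keep hcl
      have yy' : Y m Q cl (c + 1) (t + 1) = Y m Q cl (c + 1) t := Y_keep (by omega)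
      have g2 : om m Q cl (c + 1) (t + 1) = om m Q cl (c + 1) t := by unfold om; rw [yy', pp]
      have f1 : ph m Q cl c t = (if Y m Q cl c t = P m cl (c + 1) t then 1 else 0) +
          om m Q cl c t := by
        rw [ph_ne h]; rfl
      have f2 : ph m Q cl c (t + 1) = (if Y m Q cl c t = P m cl (c + 1) t then 1 else 0) +
          om m Q cl c (t + 1) := by
        rw [ph_ne h', yy, pp]; unfold om; rw [yy]
      rw [f1, f2]
      omega

/-- claim C -/
theorem step_core (D : Data K k m Q cl B e) (t : ℕ) (ht : t < K) (h1 : 1 ≤ cl t) :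
    om m Q cl (cl t + 1) (t + 1) + ph m Q cl (cl t) (t + 1) ≤
      om m Q cl (cl t + 1) t + ph m Q cl (cl t) t + 1 := by
  have hk := D.clk t
  generalize hc : cl t = c at *
  have e1 : H m cl c (t + 1) = m t + m (t + 1) - H m cl c t := H_refl (by omega)
  have e2 : H m cl (c + 1) (t + 1) = H m cl (c + 1) t := H_keep (by omega)
  have yy : Y m Q cl (c + 1) (t + 1) = Y m Q cl (c + 1) t := Y_keep (by omega)
  have pp : P m cl c (t + 1) = !P m cl c t := P_refl (by omega)
  have key := bool_core (Y m Q cl (c + 1) t) (P m cl (c + 1) t) (P m cl (c + 1) (t + 1))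
    (P m cl c t) (Y m Q cl c t) (Y m Q cl c (t + 1))
    (decide (H m cl c t = H m cl (c + 1) t)) (decide (H m cl c (t + 1) = H m cl (c + 1) (t + 1)))
    ?_ ?_ ?_ ?_
  · unfold om ph
    rw [yy, pp]
    exact key
  · intro h
    have h := of_decide_eq_true h
    have q := eq_pair D c t h1 hk (by omega) h
    constructor
    · unfold P; rw [h]
    · unfold Y; rw [h, q]
  · intro h
    have h := of_decide_eq_true h
    have q := eq_pair D c (t + 1) h1 hk (by omega) h
    constructor
    · rw [← pp]; unfold P; rw [h]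
    · rw [← yy]; unfold Y; rw [h, q]
  · intro h
    exact P_mono D ht (by omega) h
  · rintro ⟨hQ, hQ', hP, hX, hX'⟩
    have mm := D.mono t ht
    have mp := m_pos D t (by omega)
    -- `H c t` lies in `[m t, m (t+1)]`
    have a1 : m t ≤ H m cl c t := by
      unfold P at hP
      rw [decide_eq_false_iff_not] at hP
      omega
    have a2 : H m cl (c + 1) t ≤ m (t + 1) := by
      unfold P at hQ'
      rw [decide_eq_true_eq, e2] at hQ'
      omega
    have a3 : H m cl c t ≤ m (t + 1) := by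
      by_cases h : H m cl c t = H m cl (c + 1) t
      · omega
      · rw [P_up D c t h1 hk (by omega) h] at hQ
        rw [decide_eq_false_iff_not] at hQ
        omega
    unfold Y at hX hX'
    rw [decide_eq_true_eq] at hX hX'
    rw [e1, hq_refl (c := c) (by omega), X_sub] at hX'
    have b1 : X (H m cl c t) (hq Q cl c t) ≠ 0 := D.Xne _ _ (by omega)
    have b2 : X (m t + m (t + 1) - H m cl c t) (Q t - hq Q cl c t) ≠ 0 := D.Xne _ _ (by omega)
    rw [X_sub] at b2
    have b1' : 0 < X (H m cl c t) (hq Q cl c t) := lt_of_le_of_ne hX (Ne.symm b1)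
    have b2' : 0 < X (m t + m (t + 1)) (Q t) - X (H m cl c t) (hq Q cl c t) :=
      lt_of_le_of_ne hX' (Ne.symm b2)
    exact (D.emp t ht (H m cl c t) (hq Q cl c t) a1 a3).1 ⟨b1', by linarith⟩

theorem step (D : Data K k m Q cl B e) (t : ℕ) (ht : t < K) :
    ∑ i ∈ Finset.Ico 1 (k + 1), ph m Q cl i (t + 1) ≤
      ∑ i ∈ Finset.Ico 1 (k + 1), ph m Q cl i t + 1 := by
  have hk := D.clk t
  rcases Nat.eq_zero_or_pos (cl t) with h0 | h0
  · have := sum_up D t ht k 1 (by omega) (by omega) le_rfl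
    have h2 : om m Q cl 1 (t + 1) ≤ 1 := by unfold om; split_ifs <;> omega
    omega
  · have hA := sum_up D t ht (k - cl t) (cl t + 1) (by omega) (by omega) (by omega)
    have hC := step_core D t ht h0
    have hlow : ∑ i ∈ Finset.Ico 1 (cl t), ph m Q cl i (t + 1) =
        ∑ i ∈ Finset.Ico 1 (cl t), ph m Q cl i t := by
      refine Finset.sum_congr rfl fun i hi => ?_
      rw [Finset.mem_Ico] at hi
      exact ph_low D i t ht hi.1 (by omega)
    rw [← Finset.sum_Ico_consecutive (fun i => ph m Q cl i (t + 1)) (show 1 ≤ cl t by omega)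
        (show cl t ≤ k + 1 by omega),
      ← Finset.sum_Ico_consecutive (fun i => ph m Q cl i t) (show 1 ≤ cl t by omega)
        (show cl t ≤ k + 1 by omega),
      Finset.sum_eq_sum_Ico_succ_bot (show cl t < k + 1 by omega),
      Finset.sum_eq_sum_Ico_succ_bot (show cl t < k + 1 by omega), hlow]
    omega

theorem total (D : Data K k m Q cl B e) : ∀ t, t ≤ K →
    ∑ i ∈ Finset.Ico 1 (k + 1), ph m Q cl i t ≤ t
  | 0, _ => by
    rw [Nat.le_zero]
    apply Finset.sum_eq_zero
    intro i _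
    unfold ph
    rw [if_pos (by simp [H])]
  | t + 1, h => by
    have h1 := total D t (by omega)
    have h2 := step D t (by omega)
    omega

end

end Pool.Agent.Lib.MP_f91ac8_co.FQ.G45
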