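import Pool.Agent.Lib.MP_f91ac8_co.FQ.G1x45

set_option autoImplicit false

namespace Pool.Agent.Lib.MP_f91ac8_co.FQ.G45

theorem F_pos (k : ℕ) : 0 < F k := Nat.fib_pos.2 (by omega)

theorem F_mono {i j : ℕ} (h : i ≤ j) : F i ≤ F j := Nat.fib_mono (by omega)

theorem th_pos : 0 < th := by
  unfold th
  have : (1 : ℝ) < Real.sqrt 5 := by
    rw [show (1 : ℝ) = Real.sqrt 1 by simp]
    exact Real.sqrt_lt_sqrt (by norm_num) (by norm_num)
  linarith

theorem th_lt_one : th < 1 := by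
  unfold th
  have : Real.sqrt 5 < 3 := by
    rw [show (3 : ℝ) = Real.sqrt 9 by
      rw [show (9 : ℝ) = 3 ^ 2 by norm_num]; exact (Real.sqrt_sq (by norm_num)).symm]
    exact Real.sqrt_lt_sqrt (by norm_num) (by norm_num)
  linarith

theorem sqrt5_lt : Real.sqrt 5 < 3 := by
  rw [show (3 : ℝ) = Real.sqrt 9 by
    rw [show (9 : ℝ) = 3 ^ 2 by norm_num]; exact (Real.sqrt_sq (by norm_num)).symm]
  exact Real.sqrt_lt_sqrt (by norm_num) (by norm_num)

theorem path_seq {α : Type} (u : ℕ → α) {K n : ℕ} (h : Path u K n) :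
    ∃ x : ℕ → ℕ, x 0 = 0 ∧ x K = n ∧ ∀ t, t < K → x t < x (t + 1) ∧ Pal u (x t) (x (t + 1)) := by
  induction h with
  | zero => exact ⟨fun _ => 0, rfl, rfl, by intro t ht; omega⟩
  | @step K x y _ hxy hp ih =>
    obtain ⟨z, h0, h1, h2⟩ := ih
    refine ⟨fun t => if t ≤ K then z t else y, by simp [h0], by simp, ?_⟩
    intro t ht
    rcases Nat.lt_or_ge t K with h | h
    · simp only [if_pos (show t ≤ K by omega), if_pos (show t + 1 ≤ K by omega)]
      exact h2 t h
    · have : t = K := by omega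
      subst this
      simp only [le_refl, if_true, if_neg (show ¬ t + 1 ≤ t by omega)]
      rw [h1]
      exact ⟨hxy, hp⟩

/-- a lattice point with small coordinates is zero -/
theorem small_zero (hN : StNorm) {x y : ℝ} (hx : x < 1) (hxy : x * (x + 3 * y) < 1)
    (_hy : 0 ≤ y) (d p : ℤ) (hd : |(d : ℝ)| ≤ y) (hX : |X d p| ≤ x) : d = 0 ∧ p = 0 := by
  have hx0 : 0 ≤ x := (abs_nonneg _).trans hX
  have hd0 : d = 0 := by
    by_contra h
    have h1 := hN d p h
    have h2 : |X d p| * (|X d p| + Real.sqrt 5 * |(d : ℝ)|) ≤ x * (x + 3 * y) := by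
      apply mul_le_mul hX _ _ hx0
      · have h3 : Real.sqrt 5 * |(d : ℝ)| ≤ 3 * y :=
          mul_le_mul sqrt5_lt.le hd (abs_nonneg _) (by norm_num)
        linarith
      · have := Real.sqrt_nonneg 5
        have := abs_nonneg (d : ℝ)
        positivity
    linarith
  refine ⟨hd0, ?_⟩
  subst hd0
  have h1 : |(p : ℝ)| ≤ x := by
    unfold X at hX
    simpa using hX
  have h2 : |(p : ℝ)| < 1 := lt_of_le_of_lt h1 hx
  rw [← Int.cast_abs] at h2
  have h3 : |p| < 1 := by exact_mod_cast h2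
  rw [Int.abs_lt_one_iff] at h3
  exact h3

theorem X_ne (hN : StNorm) (d p : ℤ) (h : d ≠ 0) : X d p ≠ 0 := by
  intro h0
  have := hN d p h
  rw [h0] at this
  simp at this
  linarith

/-- physical bound for the frames -/
theorem H_bound {K : ℕ} {m : ℕ → ℤ} {cl : ℕ → ℕ} (m0 : m 0 = 1)
    (mono : ∀ t, t < K → m t < m (t + 1)) (c : ℕ) (f : ℕ)
    (hf : ∀ t, t < K → cl t < c → m (t + 1) - m t ≤ f) :
    ∀ t, t ≤ K → |m t - H m cl c t| ≤ 1 + t * f
  | 0, _ => by rw [m0, H]; simp
  | t + 1, h => by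
    have ih := H_bound m0 mono c f hf t (by omega)
    rcases Nat.lt_or_ge (cl t) c with h1 | h1
    · rw [H_keep h1]
      have h2 := hf t (by omega) h1
      have h3 := mono t (by omega)
      push_cast
      rw [abs_le] at ih ⊢
      constructor <;> nlinarith
    · rw [H_refl h1]
      have : m (t + 1) - (m t + m (t + 1) - H m cl c t) = -(m t - H m cl c t) := by ring
      rw [this, abs_neg]
      push_cast
      nlinarith

/-- internal bound for the frames -/
theorem hq_bound {K : ℕ} {m Q : ℕ → ℤ} {cl : ℕ → ℕ} (c : ℕ) (δ : ℝ) (hδ : 0 ≤ δ)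
    (hf : ∀ t, t < K → c ≤ cl t → |X (m t + m (t + 1)) (Q t)| ≤ δ) :
    ∀ t, t ≤ K → |X (H m cl c t) (hq Q cl c t)| ≤ t * δ
  | 0, _ => by rw [H, hq, X_zero]; simp
  | t + 1, h => by
    have ih := hq_bound c δ hδ hf t (by omega)
    rcases Nat.lt_or_ge (cl t) c with h1 | h1
    · rw [H_keep h1, hq_keep h1]
      push_cast
      linarith
    · rw [H_refl h1, hq_refl h1, X_sub]
      have h2 := hf t (by omega) h1
      have h3 := abs_sub (X (m t + m (t + 1)) (Q t)) (X (H m cl c t) (hq Q cl c t))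
      push_cast
      linarith

/-- clean window -/
theorem clean (K R a0 a1 : ℕ) (len : ℕ → ℕ) (h : a0 + (K + 1) * R ≤ a1) :
    ∃ s, a0 ≤ s ∧ s + R ≤ a1 ∧ ∀ t, t < K → len t < F s ∨ F (s + R) ≤ len t := by
  by_contra hcon
  push Not at hcon
  have h1 : ∀ i : Fin (K + 1), ∃ t : Fin K, F (a0 + i * R) ≤ len t ∧ len t < F (a0 + i * R + R) := by
    intro i
    have hi : (i : ℕ) * R + R ≤ (K + 1) * R := by
      have : ((i : ℕ) + 1) * R ≤ (K + 1) * R := Nat.mul_le_mul_right R i.2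
      nlinarith
    obtain ⟨t, ht, h2, h3⟩ := hcon (a0 + i * R) (by omega) (by omega)
    exact ⟨⟨t, ht⟩, h2, h3⟩
  choose g hg using h1
  have hninj : ¬ Function.Injective g := by
    intro hinj
    have := Fintype.card_le_of_injective g hinj
    simp at this
  apply hninj
  intro i j hij
  by_contra hne
  rcases lt_or_gt_of_ne hne with hlt | hlt
  · have h2 := (hg i).2
    have h3 := (hg j).1
    rw [hij] at h2
    have h4 : a0 + (i : ℕ) * R + R ≤ a0 + (j : ℕ) * R := by
      have : ((i : ℕ) + 1) * R ≤ (j : ℕ) * R := Nat.mul_le_mul_right R hlt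
      nlinarith
    have := F_mono h4
    omega
  · have h2 := (hg j).2
    have h3 := (hg i).1
    rw [← hij] at h2
    have h4 : a0 + (j : ℕ) * R + R ≤ a0 + (i : ℕ) * R := by
      have : ((j : ℕ) + 1) * R ≤ (i : ℕ) * R := Nat.mul_le_mul_right R hlt
      nlinarith
    have := F_mono h4
    omega

end Pool.Agent.Lib.MP_f91ac8_co.FQ.G45
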