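import Pool.Agent.Lib.MP_f91ac8_co.FQ.G2x45

set_option autoImplicit false

namespace Pool.Agent.Lib.MP_f91ac8_co.FQ.G45

/-- shifted exponents -/
def aa (a : ℕ → ℕ) : ℕ → ℕ
  | 0 => 0
  | i + 1 => a i

theorem X_sum (s : Finset ℕ) (f g : ℕ → ℤ) :
    X (∑ i ∈ s, f i) (∑ i ∈ s, g i) = ∑ i ∈ s, X (f i) (g i) := by
  unfold X
  rw [Finset.sum_sub_distrib, ← Finset.sum_mul]
  push_cast
  rfl

theorem pow_anti {i j : ℕ} (h : i ≤ j) : th ^ j ≤ th ^ i :=
  pow_le_pow_of_le_one th_pos.le th_lt_one.le h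

theorem stLow_45 (hPF : StPalF) (hN : StNorm) (hX : StX) (hFth : StFth) (hLen : StLen) :
    StLow := by
  intro k
  rcases Nat.eq_zero_or_pos k with hk0 | hk
  · subst hk0
    exact ⟨0, fun a _ _ _ => by simp⟩
  have hkR : (1 : ℝ) ≤ k := by exact_mod_cast hk
  obtain ⟨R0, hR0⟩ := exists_pow_lt_of_lt_one (show (0 : ℝ) < 1 / (208 * k ^ 2) by positivity)
    th_lt_one
  set R := R0 + 3 with hR
  refine ⟨(2 * k + 1) * R, fun a heven ha0 hag => ?_⟩
  by_contra hcon
  have hcon := not_le.1 hcon
  set n := ∑ i ∈ Finset.range k, F (a i) with hn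
  set K := PPL fw n with hK
  obtain ⟨x, hx0, hxK, hx⟩ := path_seq fw (path_PPL fw n)
  rw [← hK] at hxK hx
  set m : ℕ → ℤ := fun t => (x t : ℤ) + 1 with hm
  have hQ : ∀ t, ∃ Q : ℤ, t < K → Emp (m t) (m (t + 1)) (X (m t + m (t + 1)) Q) := by
    intro t
    by_cases ht : t < K
    · obtain ⟨Q, h⟩ := hPF (x t) (x (t + 1)) (hx t ht).1 (hx t ht).2
      refine ⟨Q, fun _ => ?_⟩
      have : m t + m (t + 1) = (x t : ℤ) + x (t + 1) + 2 := by simp only [hm]; ring
      rw [this]; exact h
    · exact ⟨0, fun h => absurd h ht⟩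
  choose Q hQ using hQ
  set len : ℕ → ℕ := fun t => x (t + 1) - x t with hlen
  have hgap : ∀ i, aa a i + (K + 1) * R ≤ aa a (i + 1) := by
    intro i
    have h1 : (K + 1) * R ≤ (2 * k + 1) * R := Nat.mul_le_mul_right R (by omega)
    rcases i with _ | i
    · simp only [aa]; omega
    · have := hag i
      simp only [aa]; omega
  have hcl := fun i => clean K R (aa a i) (aa a (i + 1)) len (hgap i)
  choose s hs1 hs2 hs3 using hcl
  have smono : ∀ i, s i ≤ s (i + 1) := fun i => by
    have := hs2 i; have := hs1 (i + 1); omega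
  have smono' : ∀ i j, i ≤ j → s i ≤ s j := fun i j h => monotone_nat_of_le_succ smono h
  have amono : ∀ i j, i ≤ j → a i ≤ a j := fun i j h =>
    monotone_nat_of_le_succ (fun i => by have := hag i; omega) h
  set cl : ℕ → ℕ := fun t => Nat.findGreatest (fun c => c = 0 ∨ F (s (c - 1)) ≤ len t) k with hcl
  have clk : ∀ t, cl t ≤ k := fun t => Nat.findGreatest_le k
  have cliff : ∀ c t, 1 ≤ c → c ≤ k → (c ≤ cl t ↔ F (s (c - 1)) ≤ len t) := by
    intro c t h1 h2
    constructor
    · intro h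
      have hsp := Nat.findGreatest_spec (P := fun c => c = 0 ∨ F (s (c - 1)) ≤ len t)
        (Nat.zero_le k) (Or.inl rfl)
      have hsp : cl t = 0 ∨ F (s (cl t - 1)) ≤ len t := hsp
      rcases hsp with h3 | h3
      · omega
      · exact (F_mono (smono' _ _ (by omega))).trans h3
    · intro h
      exact Nat.le_findGreatest h2 (Or.inr h)
  set B : ℕ → ℝ := fun c => 1 + 2 * k * F (s (c - 1)) with hB
  set e : ℕ → ℝ := fun c => 2 * k * th ^ (s (c - 1) + R - 1) with he
  have hKk : (K : ℝ) ≤ 2 * k := by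
    have : K ≤ 2 * k := by omega
    exact_mod_cast this
  have hT : 208 * (k : ℝ) ^ 2 * th ^ R0 < 1 := by
    have h3 : (0 : ℝ) < 208 * k ^ 2 := by positivity
    rw [lt_div_iff₀ h3] at hR0
    linarith
  have hTp : 0 < th ^ R0 := pow_pos th_pos _
  have hsmall : ∀ c, 1 ≤ c → c ≤ k → 4 * e c < 1 ∧
      4 * e c * (4 * e c + 3 * (2 * B c)) < 1 := by
    intro c h1 h2
    have hsplit : th ^ (s (c - 1) + R - 1) = th ^ (s (c - 1) + 2) * th ^ R0 := by
      rw [← pow_add]; congr 1; omega
    have hF := hFth (s (c - 1))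
    have hp : 0 < th ^ (s (c - 1) + 2) := pow_pos th_pos _
    have hp1 : th ^ (s (c - 1) + 2) ≤ 1 := pow_le_one₀ th_pos.le th_lt_one.le
    simp only [he, hB]
    rw [hsplit]
    set w := th ^ (s (c - 1) + 2)
    set T := th ^ R0
    have hFw : (F (s (c - 1)) : ℝ) * w ≤ 1 := hF
    set f : ℝ := (F (s (c - 1)) : ℝ)
    have hkT : 8 * (k : ℝ) * T ≤ 208 * (k : ℝ) ^ 2 * T := by
      have : (k : ℝ) ≤ (k : ℝ) ^ 2 := by nlinarith
      nlinarith
    have hx1 : 4 * (2 * (k : ℝ) * (w * T)) ≤ 8 * k * T := by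
      have : w * T ≤ 1 * T := mul_le_mul_of_nonneg_right hp1 hTp.le
      nlinarith
    have hx0 : 0 ≤ 4 * (2 * (k : ℝ) * (w * T)) := by positivity
    constructor
    · linarith
    · have e1 : 4 * (2 * (k : ℝ) * (w * T)) * (4 * (2 * k * (w * T))) ≤ 8 * k * T := by
        have : 4 * (2 * (k : ℝ) * (w * T)) ≤ 1 := by linarith
        nlinarith
      have e2 : 4 * (2 * (k : ℝ) * (w * T)) * (3 * (2 * (1 + 2 * k * f))) ≤
          144 * (k : ℝ) ^ 2 * T := by
        have e3 : 4 * (2 * (k : ℝ) * (w * T)) * (3 * (2 * (1 + 2 * k * f))) =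
          48 * k * T * w + 96 * k ^ 2 * T * (f * w) := by ring
        rw [e3]
        have e4 : 48 * (k : ℝ) * T * w ≤ 48 * k * T * 1 :=
          mul_le_mul_of_nonneg_left hp1 (by positivity)
        have e5 : 96 * (k : ℝ) ^ 2 * T * (f * w) ≤ 96 * k ^ 2 * T * 1 :=
          mul_le_mul_of_nonneg_left hFw (by positivity)
        have e6 : 48 * (k : ℝ) * T ≤ 48 * k ^ 2 * T := by
          have : (k : ℝ) ≤ (k : ℝ) ^ 2 := by nlinarith
          nlinarith
        linarith
      have e7 : 8 * (k : ℝ) * T ≤ 8 * k ^ 2 * T := by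
        have : (k : ℝ) ≤ (k : ℝ) ^ 2 := by nlinarith
        nlinarith
      have e8 : 0 < (k : ℝ) ^ 2 * T := by positivity
      nlinarith
  have D : Data K k m Q cl B e := by
    refine ⟨by simp [hm, hx0], ?_, hQ, clk, ?_, ?_, ?_, ?_, ?_, ?_, X_ne hN⟩
    · intro t ht
      have := (hx t ht).1
      simp only [hm]; omega
    · intro c t h1 h2 ht
      have hb := H_bound (m := m) (cl := cl) (K := K) (by simp [hm, hx0]) (by
        intro t ht
        have := (hx t ht).1
        simp only [hm]; omega) c (F (s (c - 1))) (by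
        intro t ht hc
        have h3 : ¬ F (s (c - 1)) ≤ len t := fun h => by
          have := (cliff c t h1 h2).2 h
          omega
        have := (hx t ht).1
        simp only [hm]
        simp only [hlen] at h3
        omega) t ht
      have hb' : |((m t - H m cl c t : ℤ) : ℝ)| ≤ 1 + t * F (s (c - 1)) := by
        rw [← Int.cast_abs]; exact_mod_cast hb
      have ht' : (t : ℝ) ≤ 2 * k := by
        have : t ≤ 2 * k := by omega
        exact_mod_cast this
      have hFp : (0 : ℝ) ≤ F (s (c - 1)) := Nat.cast_nonneg _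
      simp only [hB]
      nlinarith
    · intro c t h1 h2 ht
      have hb := hq_bound (K := K) (m := m) (Q := Q) (cl := cl) c (th ^ (s (c - 1) + R - 1))
        (pow_pos th_pos _).le (by
        intro t ht hc
        have h3 := (cliff c t h1 h2).1 hc
        have h4 : F (s (c - 1) + R) ≤ len t := by
          rcases hs3 (c - 1) t ht with h5 | h5
          · omega
          · exact h5
        have h6 := hLen (s (c - 1) + R0) (m t) (m (t + 1)) _ (hQ t ht) (by
          have := (hx t ht).1
          simp only [hlen] at h4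
          simp only [hm]
          rw [show s (c - 1) + R0 + 3 = s (c - 1) + R by omega]
          omega)
        rw [show s (c - 1) + R - 1 = s (c - 1) + R0 + 2 by omega]
        exact h6) t ht
      have ht' : (t : ℝ) ≤ 2 * k := by
        have : t ≤ 2 * k := by omega
        exact_mod_cast this
      have hp : (0 : ℝ) ≤ th ^ (s (c - 1) + R - 1) := (pow_pos th_pos _).le
      simp only [he]
      nlinarith
    · intro c h1 h2 d p hd hXd
      obtain ⟨g1, g2⟩ := hsmall c h1 h2
      refine small_zero hN g1 g2 ?_ d p hd hXd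
      simp only [hB]
      positivity
    · intro c h1 h2
      simp only [hB]
      have : (F (s (c - 1)) : ℝ) ≤ F (s (c + 1 - 1)) := by
        exact_mod_cast F_mono (smono' _ _ (by omega))
      have hk2 : (0 : ℝ) ≤ 2 * k := by positivity
      nlinarith
    · intro c h1 h2
      simp only [he]
      have hss := smono' (c - 1) (c + 1 - 1) (by omega)
      have := pow_anti (show s (c - 1) + R - 1 ≤ s (c + 1 - 1) + R - 1 by omega)
      have hk2 : (0 : ℝ) ≤ 2 * k := by positivity
      nlinarith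
    · intro c h1 h2
      simp only [he]
      have := (pow_pos th_pos (s (c - 1) + R - 1)).le
      positivity
  have htot := total D K le_rfl
  -- the final frames
  have hXa : ∀ i, X (F (a i)) (Nat.fib (a i)) = th ^ (a i + 2) := by
    intro i
    rw [hX, (heven i).neg_one_pow, one_mul]
  have hfin : ∀ c, 1 ≤ c → c ≤ k →
      H m cl c K = ∑ i ∈ Finset.Ico (c - 1) k, (F (a i) : ℤ) ∧
      hq Q cl c K = ∑ i ∈ Finset.Ico (c - 1) k, (Nat.fib (a i) : ℤ) := by
    intro c h1 h2
    have hb := D.hB c K h1 h2 le_rfl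
    have hE := D.hE c K h1 h2 le_rfl
    have hXP : |X (∑ i ∈ Finset.Ico (c - 1) k, (F (a i) : ℤ))
        (∑ i ∈ Finset.Ico (c - 1) k, (Nat.fib (a i) : ℤ))| ≤ e c := by
      rw [X_sum, Finset.sum_congr rfl (fun i _ => hXa i)]
      rw [abs_of_nonneg (Finset.sum_nonneg fun i _ => (pow_pos th_pos _).le)]
      have h3 : ∑ i ∈ Finset.Ico (c - 1) k, th ^ (a i + 2) ≤
          ∑ i ∈ Finset.Ico (c - 1) k, th ^ (s (c - 1) + R - 1) := by
        apply Finset.sum_le_sum
        intro i hi
        rw [Finset.mem_Ico] at hi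
        apply pow_anti
        have h4 := hs2 (c - 1)
        have h5 := amono (c - 1) i hi.1
        have h6 : aa a (c - 1 + 1) = a (c - 1) := rfl
        omega
      rw [Finset.sum_const, Nat.card_Ico, nsmul_eq_mul] at h3
      refine h3.trans ?_
      simp only [he]
      have hp := (pow_pos th_pos (s (c - 1) + R - 1)).le
      apply mul_le_mul_of_nonneg_right _ hp
      have : ((k - (c - 1) : ℕ) : ℝ) ≤ k := by exact_mod_cast Nat.sub_le k (c - 1)
      linarith
    have hmP : |((m K - ∑ i ∈ Finset.Ico (c - 1) k, (F (a i) : ℤ) : ℤ) : ℝ)| ≤ B c := by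
      have h3 : m K - ∑ i ∈ Finset.Ico (c - 1) k, (F (a i) : ℤ) =
          1 + ∑ i ∈ Finset.range (c - 1), (F (a i) : ℤ) := by
        simp only [hm]
        rw [hxK, hn, ← Finset.sum_range_add_sum_Ico _ (show c - 1 ≤ k by omega)]
        push_cast
        ring
      rw [h3]
      have h4 : ∑ i ∈ Finset.range (c - 1), (F (a i) : ℤ) ≤
          ∑ i ∈ Finset.range (c - 1), (F (s (c - 1)) : ℤ) := by
        apply Finset.sum_le_sum
        intro i hi
        rw [Finset.mem_range] at hi
        have h5 := hs1 (c - 1)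
        have h6 : aa a (c - 1) = a (c - 2) := by
          rw [show c - 1 = (c - 2) + 1 by omega]; rfl
        have h7 := amono i (c - 2) (by omega)
        exact_mod_cast F_mono (show a i ≤ s (c - 1) by omega)
      rw [Finset.sum_const, Finset.card_range, nsmul_eq_mul] at h4
      have h8 : (0 : ℤ) ≤ ∑ i ∈ Finset.range (c - 1), (F (a i) : ℤ) :=
        Finset.sum_nonneg fun i _ => by positivity
      have h9 : (((c - 1 : ℕ) : ℤ)) * (F (s (c - 1)) : ℤ) ≤ 2 * k * F (s (c - 1)) := by
        apply mul_le_mul_of_nonneg_right _ (by positivity)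
        omega
      have h10 : |(1 + ∑ i ∈ Finset.range (c - 1), (F (a i) : ℤ))| ≤
          1 + 2 * k * F (s (c - 1)) := by
        rw [abs_of_nonneg (by omega)]
        linarith
      have h11 : |(((1 + ∑ i ∈ Finset.range (c - 1), (F (a i) : ℤ)) : ℤ) : ℝ)| ≤
          1 + 2 * k * F (s (c - 1)) := by
        rw [← Int.cast_abs]; exact_mod_cast h10
      exact h11
    have hz := D.sep c h1 h2 (H m cl c K - ∑ i ∈ Finset.Ico (c - 1) k, (F (a i) : ℤ))
      (hq Q cl c K - ∑ i ∈ Finset.Ico (c - 1) k, (Nat.fib (a i) : ℤ)) (by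
        have h3 : ((H m cl c K - ∑ i ∈ Finset.Ico (c - 1) k, (F (a i) : ℤ) : ℤ) : ℝ) =
          ((m K - ∑ i ∈ Finset.Ico (c - 1) k, (F (a i) : ℤ) : ℤ) : ℝ) -
            ((m K - H m cl c K : ℤ) : ℝ) := by
          push_cast; ring
        rw [h3]
        have h4 := abs_sub (((m K - ∑ i ∈ Finset.Ico (c - 1) k, (F (a i) : ℤ) : ℤ) : ℝ))
          (((m K - H m cl c K : ℤ) : ℝ))
        linarith) (by
        rw [X_sub]
        have h4 := abs_sub (X (H m cl c K) (hq Q cl c K))
          (X (∑ i ∈ Finset.Ico (c - 1) k, (F (a i) : ℤ))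
            (∑ i ∈ Finset.Ico (c - 1) k, (Nat.fib (a i) : ℤ)))
        have := D.epos c h1 h2
        linarith)
    constructor
    · linarith [hz.1]
    · linarith [hz.2]
  have hfin' : ∀ c, 1 ≤ c → c ≤ k + 1 →
      H m cl c K = ∑ i ∈ Finset.Ico (c - 1) k, (F (a i) : ℤ) := by
    intro c h1 h2
    rcases Nat.lt_or_ge k c with h3 | h3
    · have : c = k + 1 := by omega
      subst this
      rw [(H_top D K).1]; simp
    · exact (hfin c h1 h3).1
  have hPt : ∀ c, 1 ≤ c → c ≤ k + 1 → P m cl c K = true := by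
    intro c h1 h2
    unfold P
    rw [decide_eq_true_eq]
    left
    rw [hfin' c h1 h2]
    simp only [hm]
    rw [hxK, hn, ← Finset.sum_range_add_sum_Ico _ (show c - 1 ≤ k by omega)]
    push_cast
    have h8 : (0 : ℤ) ≤ ∑ i ∈ Finset.range (c - 1), (F (a i) : ℤ) :=
      Finset.sum_nonneg fun i _ => by positivity
    linarith
  have hph : ∀ c ∈ Finset.Ico 1 (k + 1), ph m Q cl c K = 2 := by
    intro c hc
    rw [Finset.mem_Ico] at hc
    have hne : H m cl c K ≠ H m cl (c + 1) K := by
      rw [hfin' c hc.1 (by omega), hfin' (c + 1) (by omega) (by omega)]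
      rw [show c + 1 - 1 = (c - 1) + 1 by omega]
      rw [Finset.sum_eq_sum_Ico_succ_bot (show c - 1 < k by omega)]
      have := F_pos (a (c - 1))
      omega
    rw [ph_ne hne, hPt c hc.1 (by omega), hPt (c + 1) (by omega) (by omega)]
    have hY : Y m Q cl c K = true := by
      unfold Y
      rw [decide_eq_true_eq, (hfin c hc.1 (by omega)).1, (hfin c hc.1 (by omega)).2, X_sum,
        Finset.sum_congr rfl (fun i _ => hXa i)]
      exact Finset.sum_nonneg fun i _ => (pow_pos th_pos _).le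
    rw [hY]
    simp
  rw [Finset.sum_congr rfl hph, Finset.sum_const, Nat.card_Ico, smul_eq_mul] at htot
  omega

end Pool.Agent.Lib.MP_f91ac8_co.FQ.G45
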