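import Pool.Agent.Lib.MP_f91ac8_co.FQ.P12_9

set_option autoImplicit false

/-! Row G of the Fibonacci word (second key, helper9): the step inequality of the potential. -/

namespace Pool.Agent.Lib.MP_f91ac8_co.FQ

namespace G9

open P12_9

/-- the internal coordinate of a lattice point -/
noncomputable def XX (P : ℤ × ℤ) : ℝ := X P.1 P.2

theorem XX_sub (P Q : ℤ × ℤ) : XX (P - Q) = XX P - XX Q := by
  unfold XX X
  simp only [Prod.fst_sub, Prod.snd_sub]
  push_cast
  ring

theorem XX_zero : XX 0 = 0 := by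
  unfold XX X
  simp

theorem XX_ne {P : ℤ × ℤ} (h : P.1 ≠ 0) : XX P ≠ 0 := X_ne h

open Classical in
/-- the sign of the internal coordinate -/
noncomputable def sg (P : ℤ × ℤ) : ℤ := if 0 ≤ XX P then 1 else 0

theorem sg_cases (P : ℤ × ℤ) : sg P = 0 ∨ sg P = 1 := by
  unfold sg
  split_ifs <;> simp

theorem sg_one {P : ℤ × ℤ} : sg P = 1 ↔ 0 ≤ XX P := by
  unfold sg
  split_ifs with h <;> simp [h]

theorem sg_zero {P : ℤ × ℤ} : sg P = 0 ↔ XX P < 0 := by
  unfold sg
  split_ifs with h
  · simp [h]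
  · simpa using not_le.1 h

/-- the second summand of the potential -/
noncomputable def uu (P : ℤ × ℤ) (m : ℤ) : ℤ :=
  if (P.1 < m ∧ sg P = 1) ∨ (m < P.1 ∧ sg P = 0) then 1 else 0

/-- the summand of the potential -/
noncomputable def tt (P Z : ℤ × ℤ) (m : ℤ) : ℤ :=
  if P = Z then 0 else (if (sg P = 1 ↔ Z.1 < m) then 1 else 0) + uu P m

/-- the data of one step -/
structure Step (κ cl : ℕ) (H H' : ℕ → ℤ × ℤ) (m m' : ℤ) (S : ℤ × ℤ) (B : ℕ → ℤ) (e : ℕ → ℝ) :
    Prop where
  mpos : 1 ≤ m
  mlt : m < m'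
  S1 : S.1 = m + m'
  cl_le : cl ≤ κ
  refl : ∀ c, c < cl → H' c = S - H c
  same : ∀ c, cl ≤ c → H' c = H c
  top : H κ = 0
  Bd : ∀ c ≤ κ, |m - (H c).1| ≤ B c
  Bd' : ∀ c ≤ κ, |m' - (H' c).1| ≤ B c
  ed : ∀ c ≤ κ, |XX (H c)| ≤ e c
  ed' : ∀ c ≤ κ, |XX (H' c)| ≤ e c
  len : ∀ c, cl ≤ c → m' - m ≤ B c
  thin : ∀ c, c < cl → |XX S| ≤ e c
  emp : Emp m m' (XX S)
  Bmono : ∀ c, c < κ → B c ≤ B (c + 1)
  emono : ∀ c, c < κ → e (c + 1) ≤ e c
  norm : ∀ c ≤ κ, ∀ P : ℤ × ℤ, |P.1| ≤ 2 * B c → |XX P| ≤ 2 * e c → P = 0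

section

variable {κ cl : ℕ} {H H' : ℕ → ℤ × ℤ} {m m' : ℤ} {S : ℤ × ℤ} {B : ℕ → ℤ} {e : ℕ → ℝ}

/-- a point close to the position for the scale `c` is the point of the frame `c` -/
theorem close (h : Step κ cl H H' m m' S B e) {c : ℕ} (hc : c < κ)
    (hz : |m - (H (c + 1)).1| ≤ B c) : H c = H (c + 1) := by
  have h1 := h.Bd c hc.le
  have h2 := h.ed c hc.le
  have h3 := h.ed (c + 1) hc
  have h4 := h.emono c hc
  have h5 := h.norm c hc.le (H c - H (c + 1)) ?_ ?_
  · exact sub_eq_zero.1 h5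
  · rw [Prod.fst_sub]
    rw [abs_le] at *
    constructor <;> linarith [h1.1, h1.2, hz.1, hz.2]
  · rw [XX_sub]
    rw [abs_le] at *
    constructor <;> linarith [h2.1, h2.2, h3.1, h3.2]

theorem close' (h : Step κ cl H H' m m' S B e) {c : ℕ} (hc : c < κ)
    (hz : |m' - (H' (c + 1)).1| ≤ B c) : H' c = H' (c + 1) := by
  have h1 := h.Bd' c hc.le
  have h2 := h.ed' c hc.le
  have h3 := h.ed' (c + 1) hc
  have h4 := h.emono c hc
  have h5 := h.norm c hc.le (H' c - H' (c + 1)) ?_ ?_
  · exact sub_eq_zero.1 h5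
  · rw [Prod.fst_sub]
    rw [abs_le] at *
    constructor <;> linarith [h1.1, h1.2, hz.1, hz.2]
  · rw [XX_sub]
    rw [abs_le] at *
    constructor <;> linarith [h2.1, h2.2, h3.1, h3.2]

/-- a point with small internal coordinate for the scale `c + 1` -/
theorem small (h : Step κ cl H H' m m' S B e) {c : ℕ} (hc : c < κ)
    (hz : |XX (H c)| ≤ e (c + 1)) : H c = H (c + 1) := by
  have h1 := h.Bd c hc.le
  have h2 := h.Bd (c + 1) hc
  have h3 := h.ed (c + 1) hc
  have h4 := h.Bmono c hc
  have h5 := h.norm (c + 1) hc (H c - H (c + 1)) ?_ ?_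
  · exact sub_eq_zero.1 h5
  · rw [Prod.fst_sub]
    rw [abs_le] at *
    constructor <;> linarith [h1.1, h1.2, h2.1, h2.2]
  · rw [XX_sub]
    rw [abs_le] at *
    constructor <;> linarith [hz.1, hz.2, h3.1, h3.2]

theorem Bnn (h : Step κ cl H H' m m' S B e) {c : ℕ} (hc : c ≤ κ) : 0 ≤ B c :=
  (abs_nonneg _).trans (h.Bd c hc)

/-- both frames reflect -/
theorem part1 (h : Step κ cl H H' m m' S B e) {c : ℕ} (hc : c + 1 < cl) :
    tt (H' c) (H' (c + 1)) m' = tt (H c) (H (c + 1)) m := by
  have hcκ : c + 1 < κ := hc.trans_le h.cl_le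
  have r1 := h.refl c (by omega)
  have r2 := h.refl (c + 1) hc
  by_cases he : H c = H (c + 1)
  · have he' : H' c = H' (c + 1) := by rw [r1, r2, he]
    unfold tt
    rw [if_pos he, if_pos he']
  · have he' : ¬ H' c = H' (c + 1) := by
      rw [r1, r2]
      intro h2
      exact he (by simpa using h2)
    have hx : |XX S| < |XX (H c)| := by
      by_contra hcon
      exact he (small h (by omega) ((not_lt.1 hcon).trans (h.thin (c + 1) hc)))
    have hsgn : sg (H' c) = 1 - sg (H c) := by
      rcases sg_cases (H c) with h0 | h0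
      · rw [h0]
        rw [sg_zero] at h0
        rw [sub_zero, sg_one, r1, XX_sub]
        rw [abs_of_neg h0] at hx
        linarith [neg_abs_le (XX S)]
      · rw [h0]
        rw [sg_one] at h0
        rw [sub_self, sg_zero, r1, XX_sub]
        rw [abs_of_nonneg h0] at hx
        linarith [le_abs_self (XX S)]
    have hz : (H (c + 1)).1 ≠ m := by
      intro h3
      exact he (close h (by omega) (by rw [h3]; simpa using Bnn h (by omega)))
    have f1 : (H' c).1 = m + m' - (H c).1 := by rw [r1, Prod.fst_sub, h.S1]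
    have f2 : (H' (c + 1)).1 = m + m' - (H (c + 1)).1 := by rw [r2, Prod.fst_sub, h.S1]
    have hs := sg_cases (H c)
    unfold tt uu
    rw [if_neg he, if_neg he', f1, f2, hsgn]
    split_ifs <;> omega

/-- no frame reflects -/
theorem part2 (h : Step κ cl H H' m m' S B e) {c : ℕ} (h1 : cl ≤ c) (h2 : c < κ) :
    tt (H' c) (H' (c + 1)) m' - tt (H c) (H (c + 1)) m =
      (uu (H c) m' - uu (H c) m) - (uu (H (c + 1)) m' - uu (H (c + 1)) m) := by
  rw [h.same c h1, h.same (c + 1) (by omega)]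
  by_cases he : H c = H (c + 1)
  · unfold tt
    rw [if_pos he, if_pos he, he]
    ring
  · have hz : (H (c + 1)).1 < m ∨ m' < (H (c + 1)).1 := by
      by_contra hcon
      push Not at hcon
      refine he (close h h2 ?_)
      have := h.len c h1
      rw [abs_le]
      constructor <;> omega
    have hlt := h.mlt
    have hs := sg_cases (H c)
    have hs' := sg_cases (H (c + 1))
    unfold tt uu
    rw [if_neg he, if_neg he]
    split_ifs <;> omega

/-- the frame `c` reflects and the frame `c + 1` does not -/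
theorem part3 (h : Step κ cl H H' m m' S B e) {c : ℕ} (hc : c + 1 = cl) :
    tt (H' c) (H' (c + 1)) m' - tt (H c) (H (c + 1)) m +
      (uu (H (c + 1)) m' - uu (H (c + 1)) m) ≤ 1 := by
  have hcκ : c < κ := by have := h.cl_le; omega
  have r1 := h.refl c (by omega)
  have r2 := h.same (c + 1) hc.ge
  have hmp := h.mpos
  have hlt := h.mlt
  have hA : (H (c + 1)).1 = m → H c = H (c + 1) := fun h3 =>
    close h hcκ (by rw [h3]; simpa using Bnn h (by omega))
  have hA' : (H (c + 1)).1 = m' → H' c = H (c + 1) := fun h3 => by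
    rw [← r2]
    exact close' h hcκ (by rw [r2, h3]; simpa using Bnn h (by omega))
  have f1 : (H' c).1 = m + m' - (H c).1 := by rw [r1, Prod.fst_sub, h.S1]
  have x1 : XX (H' c) = XX S - XX (H c) := by rw [r1, XX_sub]
  have s1 := sg_cases (H c)
  have s2 := sg_cases (H' c)
  have s3 := sg_cases (H (c + 1))
  -- inside the window the signs are opposite
  have F1 : m ≤ (H c).1 → (H c).1 ≤ m' → sg (H c) + sg (H' c) = 1 := by
    intro a1 a2
    obtain ⟨b1, b2⟩ := h.emp (H c).1 (H c).2 a1 a2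
    have n1 : XX (H c) ≠ 0 := XX_ne (by omega)
    have n2 : XX (H' c) ≠ 0 := XX_ne (by rw [f1]; omega)
    rcases s1 with t1 | t1 <;> rcases s2 with t2 | t2
    · exfalso
      rw [sg_zero] at t1 t2
      exact b2 ⟨by change XX S < XX (H c); linarith, t1⟩
    · omega
    · omega
    · exfalso
      rw [sg_one] at t1 t2
      have p1 := lt_of_le_of_ne t1 n1.symm
      have p2 := lt_of_le_of_ne t2 n2.symm
      exact b1 ⟨p1, by change XX (H c) < XX S; linarith⟩
  -- the bad case
  have F2 : H c ≠ H (c + 1) → m < (H (c + 1)).1 → (H (c + 1)).1 < m' → sg (H c) = 1 →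
      sg (H' c) = 1 → sg (H (c + 1)) = 1 → False := by
    intro a1 a2 a3 t1 t2 t3
    rw [sg_one] at t1 t2 t3
    have n3 : XX (H (c + 1)) ≠ 0 := XX_ne (by omega)
    have p3 := lt_of_le_of_ne t3 n3.symm
    obtain ⟨b1, -⟩ := h.emp (H (c + 1)).1 (H (c + 1)).2 a2.le a3.le
    refine b1 ⟨p3, ?_⟩
    change XX (H (c + 1)) < XX S
    have q1 : e (c + 1) < |XX (H c)| := by
      by_contra hcon
      exact a1 (small h hcκ (not_lt.1 hcon))
    have q2 := h.ed (c + 1) hcκ
    rw [abs_of_nonneg t1] at q1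
    have q3 := le_abs_self (XX (H (c + 1)))
    linarith
  rw [r2]
  by_cases e1 : H c = H (c + 1)
  · have g1 : (H c).1 = (H (c + 1)).1 := by rw [e1]
    have g2 : sg (H c) = sg (H (c + 1)) := by rw [e1]
    by_cases e2 : H' c = H (c + 1)
    · unfold tt uu
      rw [if_pos e1, if_pos e2]
      split_ifs <;> omega
    · have hA2 : (H (c + 1)).1 ≠ m' := fun h3 => e2 (hA' h3)
      unfold tt uu
      rw [if_pos e1, if_neg e2, f1]
      split_ifs <;> omega
  · have hA1 : (H (c + 1)).1 ≠ m := fun h3 => e1 (hA h3)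
    have F2' : ¬ (m < (H (c + 1)).1 ∧ (H (c + 1)).1 < m' ∧ sg (H c) = 1 ∧ sg (H' c) = 1 ∧
        sg (H (c + 1)) = 1) := fun ⟨q1, q2, q3, q4, q5⟩ => F2 e1 q1 q2 q3 q4 q5
    by_cases e2 : H' c = H (c + 1)
    · unfold tt uu
      rw [if_neg e1, if_pos e2]
      split_ifs <;> omega
    · have hA2 : (H (c + 1)).1 ≠ m' := fun h3 => e2 (hA' h3)
      unfold tt uu
      rw [if_neg e1, if_neg e2, f1]
      clear F2 hA hA' x1 r1 r2
      split_ifs <;> omega

/-- the differences of the summands up to `n` -/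
theorem sum_le (h : Step κ cl H H' m m' S B e) (n : ℕ) (hn : cl ≤ n) (hnκ : n ≤ κ) :
    ∑ c ∈ Finset.range n, (tt (H' c) (H' (c + 1)) m' - tt (H c) (H (c + 1)) m) +
      (uu (H n) m' - uu (H n) m) ≤ 1 := by
  induction n, hn using Nat.le_induction with
  | base =>
    rcases Nat.eq_zero_or_pos cl with h0 | h0
    · rw [h0]
      simp only [Finset.range_zero, Finset.sum_empty, zero_add]
      unfold uu
      split_ifs <;> omega
    · obtain ⟨c, hc⟩ : ∃ c, c + 1 = cl := ⟨cl - 1, by omega⟩
      rw [← hc, Finset.sum_range_succ]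
      rw [Finset.sum_eq_zero (fun i hi => ?_), zero_add]
      · exact part3 h hc
      · rw [Finset.mem_range] at hi
        rw [part1 h (by omega), sub_self]
  | succ n hn ih =>
    have ih' := ih (by omega)
    rw [Finset.sum_range_succ, part2 h hn (by omega)]
    linarith

/-- **the step inequality** -/
theorem step_le (h : Step κ cl H H' m m' S B e) :
    ∑ c ∈ Finset.range κ, tt (H' c) (H' (c + 1)) m' ≤
      ∑ c ∈ Finset.range κ, tt (H c) (H (c + 1)) m + 1 := by
  have h1 := sum_le h κ h.cl_le le_rfl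
  rw [Finset.sum_sub_distrib] at h1
  have h2 : uu (H κ) m' - uu (H κ) m = 0 := by
    have h3 : sg (0 : ℤ × ℤ) = 1 := by rw [sg_one, XX_zero]
    have hmp := h.mpos
    have hlt := h.mlt
    unfold uu
    rw [h.top, h3, Prod.fst_zero]
    split_ifs <;> omega
  linarith

end

/-! ### Arithmetic of the scales -/

theorem F_mono {i j : ℕ} (h : i ≤ j) : F i ≤ F j := Nat.fib_mono (by omega)

theorem F_pos (i : ℕ) : 0 < F i := Nat.fib_pos.2 (by omega)

theorem F_lt (i : ℕ) : i + 1 ≤ F i := by
  have := Nat.le_fib_add_one (i + 2)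
  unfold F
  omega

theorem th_pos : 0 < th := by
  unfold th
  have : 1 < Real.sqrt 5 := by
    rw [Real.lt_sqrt (by norm_num)]; norm_num
  linarith

theorem th_lt : th < 1 := by
  unfold th
  have : Real.sqrt 5 < 3 := by
    rw [Real.sqrt_lt' (by norm_num)]; norm_num
  linarith

/-- a free scale -/
theorem free_scale (len : ℕ → ℕ) (K M R lo : ℕ) (hK : K ≤ M) :
    ∃ j ≤ M, ∀ t < K, F (lo + j * R) ≤ len t → F (lo + j * R + R) ≤ len t := by
  by_contra hcon
  push Not at hcon
  choose! f hf1 hf2 hf3 using hcon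
  have hinj : Set.InjOn f (Finset.range (M + 1) : Set ℕ) := by
    have key : ∀ i j : ℕ, i ≤ M → j ≤ M → i < j → f i ≠ f j := by
      intro i j hi hj hij heq
      have h1 := hf3 i hi
      have h2 := hf2 j hj
      rw [heq] at h1
      have h3 : F (lo + i * R + R) ≤ F (lo + j * R) := by
        apply F_mono
        have : (i + 1) * R ≤ j * R := Nat.mul_le_mul_right R hij
        rw [Nat.add_mul, Nat.one_mul] at this
        omega
      omega
    intro i hi j hj hij
    rw [Finset.mem_coe, Finset.mem_range] at hi hj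
    rcases lt_trichotomy i j with h | h | h
    · exact absurd hij (key i j (by omega) (by omega) h)
    · exact h
    · exact absurd hij.symm (key j i (by omega) (by omega) h)
  have hmaps : ∀ i ∈ Finset.range (M + 1), f i ∈ Finset.range K := by
    intro i hi
    rw [Finset.mem_range] at hi ⊢
    exact hf1 i (by omega)
  have hcard := Finset.card_le_card_of_injOn f hmaps hinj
  rw [Finset.card_range, Finset.card_range] at hcard
  omega

/-- the norm for the scale `s` -/
theorem norm_scale (hN : StNorm) (hFt : StFth) {M R : ℕ} (hM : 1 ≤ M) (hR : 3 ≤ R)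
    (hsm : 22 * (M : ℝ) ^ 2 * th ^ (R - 3) < 1) (s : ℕ) (P : ℤ × ℤ)
    (h1 : |P.1| ≤ 2 * (1 + (M : ℤ) * F s)) (h2 : |XX P| ≤ 2 * ((M : ℝ) * th ^ (s + R - 1))) :
    P = 0 := by
  have hth := th_pos
  have hth1 := th_lt
  have hM' : (1 : ℝ) ≤ M := by exact_mod_cast hM
  set T : ℝ := th ^ (R - 3) with hT
  set q : ℝ := th ^ (s + 2) with hq
  have hT0 : 0 < T := by positivity
  have hT1 : T ≤ 1 := pow_le_one₀ hth.le hth1.le
  have hq0 : 0 < q := by positivity
  have hq1 : q ≤ 1 := pow_le_one₀ hth.le hth1.le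
  have hsplit : th ^ (s + R - 1) = q * T := by
    rw [hq, hT, ← pow_add]
    congr 1
    omega
  rw [hsplit] at h2
  have hF := hFt s
  rw [← hq] at hF
  have hF0 : (0 : ℝ) ≤ F s := by positivity
  set x : ℝ := |XX P| with hx
  have hx0 : 0 ≤ x := abs_nonneg _
  have hMM : (M : ℝ) ≤ (M : ℝ) ^ 2 := by nlinarith
  have hMT : (M : ℝ) ^ 2 * T < 1 / 22 := by linarith
  have hMqT : (M : ℝ) * (q * T) ≤ (M : ℝ) ^ 2 * T := by
    have a1 : q * T ≤ T := by nlinarith
    have a2 : (M : ℝ) * (q * T) ≤ (M : ℝ) * T := by nlinarith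
    have a3 : (M : ℝ) * T ≤ (M : ℝ) ^ 2 * T := by nlinarith
    linarith
  by_cases hd : P.1 = 0
  · have e1 : XX P = -(P.2 : ℝ) := by
      unfold XX X
      rw [hd]
      simp
    have e2 : |(P.2 : ℝ)| < 1 := by
      rw [← abs_neg, ← e1]
      linarith
    have e3 : |P.2| < 1 := by exact_mod_cast e2
    have e4 : P.2 = 0 := Int.abs_lt_one_iff.1 e3
    exact Prod.ext hd e4
  · exfalso
    have n1 := hN P.1 P.2 hd
    change 1 ≤ x * (x + Real.sqrt 5 * |(P.1 : ℝ)|) at n1
    have h1' : |(P.1 : ℝ)| ≤ 2 * (1 + (M : ℝ) * F s) := by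
      have : ((|P.1| : ℤ) : ℝ) ≤ ((2 * (1 + (M : ℤ) * F s) : ℤ) : ℝ) := by exact_mod_cast h1
      push_cast at this
      exact this
    have hs5 : Real.sqrt 5 ≤ 9 / 4 := by
      rw [Real.sqrt_le_left (by norm_num)]
      norm_num
    have hs0 : 0 ≤ Real.sqrt 5 := Real.sqrt_nonneg 5
    have b1 : Real.sqrt 5 * |(P.1 : ℝ)| ≤ 9 / 4 * (2 * (1 + (M : ℝ) * F s)) := by
      have := abs_nonneg (P.1 : ℝ)
      nlinarith
    have b2 : x * (x + Real.sqrt 5 * |(P.1 : ℝ)|) ≤
        (2 * ((M : ℝ) * (q * T))) * (2 * ((M : ℝ) * (q * T)) + 9 / 4 * (2 * (1 + (M : ℝ) * F s))) := by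
      have c1 : 0 ≤ Real.sqrt 5 * |(P.1 : ℝ)| := by positivity
      apply mul_le_mul h2 (by linarith) (by linarith) (by positivity)
    have b3 : (M : ℝ) * (q * T) * (1 + (M : ℝ) * F s) ≤ 2 * ((M : ℝ) ^ 2 * T) := by
      have c1 : (M : ℝ) * (q * T) * ((M : ℝ) * F s) = (M : ℝ) ^ 2 * T * (F s * q) := by ring
      have c2 : (M : ℝ) ^ 2 * T * (F s * q) ≤ (M : ℝ) ^ 2 * T := by
        have : 0 ≤ (M : ℝ) ^ 2 * T := by positivity
        nlinarith
      have c3 : (M : ℝ) * (q * T) * (1 + (M : ℝ) * F s) =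
        (M : ℝ) * (q * T) + (M : ℝ) * (q * T) * ((M : ℝ) * F s) := by ring
      rw [c3, c1]
      linarith
    have b4 : ((M : ℝ) * (q * T)) * ((M : ℝ) * (q * T)) ≤ (M : ℝ) ^ 2 * T := by
      have c1 : 0 ≤ (M : ℝ) * (q * T) := by positivity
      have c2 : (M : ℝ) * (q * T) ≤ 1 := by linarith
      nlinarith
    nlinarith

/-! ### Paths and frames -/

theorem path_seq {α : Type} (u : ℕ → α) {k n : ℕ} (h : Path u k n) :
    ∃ b : ℕ → ℕ, b 0 = 0 ∧ b k = n ∧ ∀ t < k, b t < b (t + 1) ∧ Pal u (b t) (b (t + 1)) := by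
  induction h with
  | zero => exact ⟨fun _ => 0, rfl, rfl, fun t ht => absurd ht (by omega)⟩
  | @step k x y _ hxy hp ih =>
    obtain ⟨b, b0, bk, hb⟩ := ih
    refine ⟨fun t => if t ≤ k then b t else y, by simp [b0], by simp, fun t ht => ?_⟩
    by_cases h1 : t < k
    · simp only [show t ≤ k by omega, show t + 1 ≤ k by omega, if_true]
      exact hb t h1
    · obtain rfl : t = k := by omega
      simp only [le_refl, if_true, show ¬ t + 1 ≤ t by omega, if_false]
      rw [bk]
      exact ⟨hxy, hp⟩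

/-- the lattice point of a frame with the threshold `θ` -/
def Hf (len : ℕ → ℕ) (θ : ℕ) (S : ℕ → ℤ × ℤ) : ℕ → ℤ × ℤ
  | 0 => 0
  | t + 1 => if θ ≤ len t then S t - Hf len θ S t else Hf len θ S t

/-- the reflections -/
def Sf (b : ℕ → ℕ) (Q : ℕ → ℤ) (t : ℕ) : ℤ × ℤ := ((b t : ℤ) + b (t + 1) + 2, Q t)

theorem Hf_bd {b : ℕ → ℕ} {Q : ℕ → ℤ} {K θ : ℕ} (hb : ∀ t < K, b t < b (t + 1)) (b0 : b 0 = 0) :
    ∀ t ≤ K, |((b t : ℤ) + 1) - (Hf (fun t => b (t + 1) - b t) θ (Sf b Q) t).1| ≤
      1 + (t : ℤ) * θ := by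
  intro t
  induction t with
  | zero =>
    intro _
    simp [Hf, b0]
  | succ t ih =>
    intro ht
    have ih' := ih (by omega)
    have h1 := hb t (by omega)
    have hθ : (0 : ℤ) ≤ θ := by positivity
    unfold Hf
    set Hh := Hf (fun t => b (t + 1) - b t) θ (Sf b Q) t with hHh
    split_ifs with h2
    · rw [Prod.fst_sub]
      have e1 : ((b (t + 1) : ℤ) + 1) - ((Sf b Q t).1 - Hh.1) = -(((b t : ℤ) + 1) - Hh.1) := by
        unfold Sf
        ring
      rw [e1, abs_neg]
      refine ih'.trans ?_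
      push_cast
      nlinarith
    · have e1 : ((b (t + 1) : ℤ) + 1) - Hh.1 = (((b t : ℤ) + 1) - Hh.1) + ((b (t + 1) : ℤ) - b t) := by
        ring
      have e2 : ((b (t + 1) : ℤ) - b t) ≤ θ := by
        have : b (t + 1) - b t < θ := not_le.1 h2
        omega
      have e3 : (0 : ℤ) ≤ ((b (t + 1) : ℤ) - b t) := by omega
      rw [e1]
      refine (abs_add_le _ _).trans ?_
      rw [abs_of_nonneg e3]
      push_cast
      nlinarith

theorem Hf_X {len : ℕ → ℕ} {S : ℕ → ℤ × ℤ} {K θ : ℕ} {δ : ℝ} (hδ : 0 ≤ δ)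
    (hS : ∀ t < K, θ ≤ len t → |XX (S t)| ≤ δ) :
    ∀ t ≤ K, |XX (Hf len θ S t)| ≤ (t : ℝ) * δ := by
  intro t
  induction t with
  | zero =>
    intro _
    simp [Hf, XX_zero]
  | succ t ih =>
    intro ht
    have ih' := ih (by omega)
    unfold Hf
    push_cast
    split_ifs with h2
    · rw [XX_sub]
      have h3 := hS t (by omega) h2
      have h4 := abs_sub (XX (S t)) (XX (Hf len θ S t))
      linarith
    · linarith

theorem Hf_top {len : ℕ → ℕ} {S : ℕ → ℤ × ℤ} {K θ : ℕ} (hS : ∀ t < K, len t < θ) :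
    ∀ t ≤ K, Hf len θ S t = 0 := by
  intro t
  induction t with
  | zero => intro _; rfl
  | succ t ih =>
    intro ht
    unfold Hf
    rw [if_neg (not_le.2 (hS t (by omega)))]
    exact ih (by omega)

/-- the end points of the frames -/
def Pe (a : ℕ → ℕ) (k c : ℕ) : ℤ × ℤ :=
  (∑ i ∈ Finset.Ico c k, (F (a i) : ℤ), ∑ i ∈ Finset.Ico c k, (Nat.fib (a i) : ℤ))

theorem Pe_X (hX : StX) {a : ℕ → ℕ} (hev : ∀ i, Even (a i)) (k c : ℕ) :
    XX (Pe a k c) = ∑ i ∈ Finset.Ico c k, th ^ (a i + 2) := by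
  have h1 : ∀ i ∈ Finset.Ico c k, (F (a i) : ℝ) * al - (Nat.fib (a i) : ℝ) = th ^ (a i + 2) := by
    intro i _
    have h2 := hX (a i)
    unfold X at h2
    rw [(hev i).neg_one_pow, one_mul] at h2
    push_cast at h2
    exact h2
  rw [← Finset.sum_congr rfl h1, Finset.sum_sub_distrib, ← Finset.sum_mul]
  unfold XX X Pe
  push_cast
  rfl

/-- **row G** -/
theorem low (hPF : StPalF) (hN : StNorm) (hX : StX) (hFt : StFth) (hL : StLen) : StLow := by
  classical
  intro k
  set M : ℕ := 2 * k with hM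
  have hth := th_pos
  have hth1 := th_lt
  obtain ⟨r, hr⟩ : ∃ r : ℕ, th ^ r < 1 / (22 * (M : ℝ) ^ 2 + 1) :=
    exists_pow_lt_of_lt_one (by positivity) hth1
  set R : ℕ := r + 3 with hR
  have hR3 : 3 ≤ R := by omega
  have hsm : 22 * (M : ℝ) ^ 2 * th ^ (R - 3) < 1 := by
    have e1 : R - 3 = r := by omega
    rw [e1]
    rw [lt_div_iff₀ (by positivity)] at hr
    have : 0 < th ^ r := by positivity
    nlinarith
  refine ⟨(M + 1) * R, ?_⟩
  intro a hev hG0 hGs
  by_contra hcon
  push Not at hcon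
  set n : ℕ := ∑ i ∈ Finset.range k, F (a i) with hn
  set K : ℕ := PPL fw n with hK
  have hk : 1 ≤ k := by omega
  have hM1 : 1 ≤ M := by omega
  obtain ⟨b, b0, bK, hb⟩ := path_seq fw (path_PPL fw n)
  rw [← hK] at bK hb
  have hQ0 : ∀ t, t < K → ∃ Q : ℤ, Emp ((b t : ℤ) + 1) ((b (t + 1) : ℤ) + 1)
      (X ((b t : ℤ) + b (t + 1) + 2) Q) := fun t ht => hPF _ _ (hb t ht).1 (hb t ht).2
  choose! Q hQ using hQ0
  have hblt : ∀ t < K, b t < b (t + 1) := fun t ht => (hb t ht).1
  -- positions are at most `n`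
  have hbn : ∀ t ≤ K, b t ≤ n := by
    have key : ∀ d t, t + d = K → b t ≤ n := by
      intro d
      induction d with
      | zero => intro t ht; rw [← bK, ← ht, Nat.add_zero]
      | succ d ih =>
        intro t ht
        exact (hblt t (by omega)).le.trans (ih (t + 1) (by omega))
    intro t ht
    exact key (K - t) t (by omega)
  set len : ℕ → ℕ := fun t => b (t + 1) - b t with hlen
  have hlenn : ∀ t < K, len t ≤ n := by
    intro t ht
    have := hbn (t + 1) (by omega)
    simp only [hlen]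
    omega
  -- the exponents
  have hamono : Monotone a := monotone_nat_of_le_succ fun i => by have := hGs i; omega
  set lo : ℕ → ℕ := fun c => if c = 0 then 0 else a (c - 1) with hlo
  have hfree := fun c => free_scale len K M R (lo c) (by omega)
  choose j hj1 hj2 using hfree
  set s : ℕ → ℕ := fun c => if c < k then lo c + j c * R else n + a k with hs
  have hloG : ∀ c, lo c + (M + 1) * R ≤ a c := by
    intro c
    rcases Nat.eq_zero_or_pos c with h0 | h0
    · rw [h0]
      simp only [hlo, if_true, zero_add]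
      exact hG0
    · have h1 := hGs (c - 1)
      rw [Nat.sub_add_cancel h0] at h1
      simp only [hlo, show c ≠ 0 by omega, if_false]
      exact h1
  have hsR : ∀ c < k, s c + R ≤ a c := by
    intro c hc
    have h1 := hloG c
    have h2 : j c * R + R ≤ (M + 1) * R := by
      have := Nat.mul_le_mul_right R (Nat.succ_le_succ (hj1 c))
      rw [Nat.succ_mul] at this
      exact this
    simp only [hs, hc, if_true]
    omega
  have hslo : ∀ c < k, lo c ≤ s c := by
    intro c hc
    simp only [hs, hc, if_true]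
    omega
  have hsmono : Monotone s := monotone_nat_of_le_succ fun c => by
    by_cases h1 : c + 1 < k
    · have h2 := hsR c (by omega)
      have h3 := hslo (c + 1) h1
      have h4 : lo (c + 1) = a c := by simp [hlo]
      omega
    · by_cases h2 : c < k
      · have h3 := hsR c h2
        have h4 : s (c + 1) = n + a k := by simp only [hs, h1, if_false]
        have h5 : a c ≤ a k := hamono h2.le
        omega
      · have h4 : s (c + 1) = n + a k := by simp only [hs, h1, if_false]
        have h5 : s c = n + a k := by simp only [hs, h2, if_false]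
        omega
  have hsk : s k = n + a k := by simp only [hs, lt_irrefl, if_false]
  have hlenk : ∀ t < K, len t < F (s k) := by
    intro t ht
    have h1 := hlenn t ht
    have h2 := F_lt (s k)
    omega
  have hclean : ∀ c ≤ k, ∀ t < K, F (s c) ≤ len t → F (s c + R) ≤ len t := by
    intro c hc t ht h1
    rcases hc.lt_or_eq with h2 | h2
    · have h3 := hj2 c t ht
      simp only [hs, h2, if_true] at h1 ⊢
      exact h3 h1
    · rw [h2] at h1
      have := hlenk t ht
      omega
  -- the frames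
  set S : ℕ → ℤ × ℤ := Sf b Q with hS
  set H : ℕ → ℕ → ℤ × ℤ := fun c t => Hf len (F (s c)) S t with hH
  set B : ℕ → ℤ := fun c => 1 + (M : ℤ) * F (s c) with hB
  set e : ℕ → ℝ := fun c => (M : ℝ) * th ^ (s c + R - 1) with he
  have hthin : ∀ c ≤ k, ∀ t < K, F (s c) ≤ len t → |XX (S t)| ≤ th ^ (s c + R - 1) := by
    intro c hc t ht h1
    have h2 := hclean c hc t ht h1
    have h3 := hL (s c + R - 3) _ _ _ (hQ t ht) (by
      have e1 : s c + R - 3 + 3 = s c + R := by omega
      rw [e1]
      have h4 := hblt t ht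
      simp only [hlen] at h2
      omega)
    have e2 : s c + R - 3 + 2 = s c + R - 1 := by omega
    rw [e2] at h3
    exact h3
  have hBd : ∀ c, ∀ t ≤ K, |((b t : ℤ) + 1) - (H c t).1| ≤ B c := by
    intro c t ht
    have h1 := Hf_bd (Q := Q) (θ := F (s c)) hblt b0 t ht
    refine h1.trans ?_
    have h2 : (t : ℤ) ≤ M := by omega
    have h3 : (0 : ℤ) ≤ F (s c) := by positivity
    have := mul_le_mul_of_nonneg_right h2 h3
    simp only [hB]
    linarith
  have hed : ∀ c ≤ k, ∀ t ≤ K, |XX (H c t)| ≤ e c := by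
    intro c hc t ht
    have hδ : (0 : ℝ) ≤ th ^ (s c + R - 1) := by positivity
    have h1 := Hf_X (θ := F (s c)) hδ (fun t ht h1 => hthin c hc t ht h1) t ht
    refine h1.trans ?_
    have h2 : (t : ℝ) ≤ M := by
      have : t ≤ M := by omega
      exact_mod_cast this
    exact mul_le_mul_of_nonneg_right h2 hδ
  have hHtop : ∀ t ≤ K, H k t = 0 := Hf_top hlenk
  have hnorm : ∀ c ≤ k, ∀ P : ℤ × ℤ, |P.1| ≤ 2 * B c → |XX P| ≤ 2 * e c → P = 0 :=
    fun c _ P h1 h2 => norm_scale hN hFt hM1 hR3 hsm (s c) P h1 h2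
  have hstep : ∀ t < K, ∃ cl, Step k cl (fun c => H c t) (fun c => H c (t + 1)) ((b t : ℤ) + 1)
      ((b (t + 1) : ℤ) + 1) (S t) B e := by
    intro t ht
    have hex : ∃ c, len t < F (s c) := ⟨k, hlenk t ht⟩
    have hcl1 := Nat.find_spec hex
    have hcl2 : ∀ c, c < Nat.find hex → F (s c) ≤ len t := fun c hc =>
      not_lt.1 (Nat.find_min hex hc)
    have hcl3 : Nat.find hex ≤ k := Nat.find_le (hlenk t ht)
    have hcl4 : ∀ c, Nat.find hex ≤ c → len t < F (s c) := fun c hc =>
      hcl1.trans_le (F_mono (hsmono hc))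
    have hbt := hblt t ht
    refine ⟨Nat.find hex, ?_⟩
    constructor
    · omega
    · omega
    · simp only [hS, Sf]; ring
    · exact hcl3
    · intro c hc
      change (if F (s c) ≤ len t then S t - H c t else H c t) = S t - H c t
      rw [if_pos (hcl2 c hc)]
    · intro c hc
      change (if F (s c) ≤ len t then S t - H c t else H c t) = H c t
      rw [if_neg (not_le.2 (hcl4 c hc))]
    · exact hHtop t ht.le
    · intro c _; exact hBd c t ht.le
    · intro c _; exact hBd c (t + 1) ht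
    · intro c hc; exact hed c hc t ht.le
    · intro c hc; exact hed c hc (t + 1) ht
    · intro c hc
      have h1 := hcl4 c hc
      have h2 : (len t : ℤ) = (b (t + 1) : ℤ) - b t := by simp only [hlen]; omega
      have h3 : (F (s c) : ℤ) ≤ (M : ℤ) * F (s c) := by
        have : (1 : ℤ) ≤ M := by exact_mod_cast hM1
        nlinarith [F_pos (s c)]
      simp only [hB]
      omega
    · intro c hc
      have h1 := hthin c (by omega) t ht (hcl2 c hc)
      refine h1.trans ?_
      have h2 : (1 : ℝ) ≤ M := by exact_mod_cast hM1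
      have h3 : (0 : ℝ) ≤ th ^ (s c + R - 1) := by positivity
      simp only [he]
      nlinarith
    · exact hQ t ht
    · intro c _
      have h1 : (F (s c) : ℤ) ≤ F (s (c + 1)) := by
        exact_mod_cast F_mono (hsmono (Nat.le_succ c))
      have h2 : (0 : ℤ) ≤ M := by positivity
      simp only [hB]
      nlinarith
    · intro c _
      have h1 : s c ≤ s (c + 1) := hsmono (Nat.le_succ c)
      have h2 : (0 : ℝ) ≤ M := by positivity
      simp only [he]
      exact mul_le_mul_of_nonneg_left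
        (pow_le_pow_of_le_one hth.le hth1.le (by omega)) h2
    · exact hnorm
  -- the potential
  have hpot : ∀ t ≤ K, ∑ c ∈ Finset.range k, tt (H c t) (H (c + 1) t) ((b t : ℤ) + 1) ≤ t := by
    intro t
    induction t with
    | zero =>
      intro _
      rw [Finset.sum_eq_zero]
      · simp
      · intro c _
        have h0 : H c 0 = H (c + 1) 0 := rfl
        unfold tt
        rw [if_pos h0]
    | succ t ih =>
      intro ht
      obtain ⟨cl, hst⟩ := hstep t (by omega)
      have h1 := step_le hst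
      have h2 := ih (by omega)
      push_cast
      linarith
  -- the end
  have hP0 : ∀ c, 0 ≤ XX (Pe a k c) := by
    intro c
    rw [Pe_X hX hev]
    exact Finset.sum_nonneg fun i _ => by positivity
  have hPn : ∀ c ≤ k, (n : ℤ) = ∑ i ∈ Finset.range c, (F (a i) : ℤ) + (Pe a k c).1 := by
    intro c hc
    unfold Pe
    rw [hn]
    push_cast
    rw [Finset.sum_range_add_sum_Ico _ hc]
  have hend : ∀ c ≤ k, H c K = Pe a k c := by
    intro c hc
    rcases hc.lt_or_eq with h2 | h2
    · refine sub_eq_zero.1 (hnorm c hc _ ?_ ?_)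
      · rw [Prod.fst_sub]
        have h3 := hBd c K le_rfl
        rw [bK] at h3
        have h4 := hPn c hc
        have h5 : ∑ i ∈ Finset.range c, (F (a i) : ℤ) ≤ (M : ℤ) * F (s c) := by
          have h6 : ∀ i ∈ Finset.range c, (F (a i) : ℤ) ≤ F (s c) := by
            intro i hi
            rw [Finset.mem_range] at hi
            have h7 : a i ≤ lo c := by
              simp only [hlo, show c ≠ 0 by omega, if_false]
              exact hamono (by omega)
            exact_mod_cast F_mono (h7.trans (hslo c h2))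
          have h8 := Finset.sum_le_card_nsmul _ _ _ h6
          rw [Finset.card_range, nsmul_eq_mul] at h8
          have h9 : (c : ℤ) ≤ M := by omega
          have h10 : (0 : ℤ) ≤ F (s c) := by positivity
          nlinarith
        have h6 : 0 ≤ ∑ i ∈ Finset.range c, (F (a i) : ℤ) :=
          Finset.sum_nonneg fun i _ => by positivity
        simp only [hB] at h3 ⊢
        rw [abs_le] at h3 ⊢
        constructor <;> linarith [h3.1, h3.2]
      · rw [XX_sub]
        have h3 := hed c hc K le_rfl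
        have h4 := hP0 c
        have h5 : XX (Pe a k c) ≤ e c := by
          rw [Pe_X hX hev]
          have h6 : ∀ i ∈ Finset.Ico c k, th ^ (a i + 2) ≤ th ^ (s c + R - 1) := by
            intro i hi
            rw [Finset.mem_Ico] at hi
            have h7 := hsR c h2
            have h8 : a c ≤ a i := hamono hi.1
            exact pow_le_pow_of_le_one hth.le hth1.le (by omega)
          have h8 := Finset.sum_le_card_nsmul _ _ _ h6
          rw [Nat.card_Ico, nsmul_eq_mul] at h8
          refine h8.trans ?_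
          have h9 : ((k - c : ℕ) : ℝ) ≤ M := by
            have : k - c ≤ M := by omega
            exact_mod_cast this
          exact mul_le_mul_of_nonneg_right h9 (by positivity)
        rw [abs_le] at h3 ⊢
        constructor <;> linarith [h3.1, h3.2]
    · rw [h2, hHtop K le_rfl]
      unfold Pe
      simp only [Finset.Ico_self, Finset.sum_empty]
      rfl
  have hfin := hpot K le_rfl
  have htwo : ∀ c ∈ Finset.range k, tt (H c K) (H (c + 1) K) ((b K : ℤ) + 1) = 2 := by
    intro c hc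
    rw [Finset.mem_range] at hc
    rw [hend c hc.le, hend (c + 1) hc, bK]
    have h1 : sg (Pe a k c) = 1 := by rw [sg_one]; exact hP0 c
    have h2 : (Pe a k c).1 = F (a c) + (Pe a k (c + 1)).1 := by
      unfold Pe
      rw [Finset.sum_eq_sum_Ico_succ_bot hc]
    have h3 := hPn c hc.le
    have h4 := hPn (c + 1) hc
    have h5 : ∀ c, 0 ≤ ∑ i ∈ Finset.range c, (F (a i) : ℤ) := fun c =>
      Finset.sum_nonneg fun i _ => by positivity
    have h6 := h5 c
    have h7 := h5 (c + 1)
    have h8 : (0 : ℤ) < F (a c) := by exact_mod_cast F_pos (a c)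
    have hne : Pe a k c ≠ Pe a k (c + 1) := by
      intro h9
      rw [h9] at h2
      omega
    unfold tt uu
    rw [if_neg hne, if_pos (by constructor <;> intro _ <;> [omega; exact h1]),
      if_pos (Or.inl ⟨by omega, h1⟩)]
    norm_num
  rw [Finset.sum_congr rfl htwo, Finset.sum_const, Finset.card_range, nsmul_eq_mul] at hfin
  have : (k : ℤ) * 2 ≤ K := hfin
  omega

end G9

/-- G -/
theorem stLow_9 (hPF : StPalF) (hN : StNorm) (hX : StX) (hFt : StFth) (hL : StLen) : StLow :=
  G9.low hPF hN hX hFt hL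

end Pool.Agent.Lib.MP_f91ac8_co.FQ
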