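import Pool.Agent.Lib.MP_f91ac8_co.FQ.Z2x45

set_option autoImplicit false

universe u

namespace Pool.Agent.Lib.MP_f91ac8_co.FQ

/-- sequences with a linear representation over the ring `κ` reading the Zeckendorf word -/
def IsFibRegularOver (κ : Type u) [CommRing κ] (f : ℕ → ℤ) : Prop :=
  ∃ (r : ℕ) (_ : 1 ≤ r) (lam gam : Fin r → κ) (M0 M1 : Matrix (Fin r) (Fin r) κ),
    ∀ (n : ℕ) (w : List Bool), IsZeck w n →
      ((f n : ℤ) : κ) =
        dotProduct lam ((w.map fun c : Bool => if c then M1 else M0).prod.mulVec gam)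

namespace Gen45

/-- bounded integer sequences recurrent for one matrix over a field are uniformly periodic -/
theorem reg_gen {κ : Type u} [Field κ] [CharZero κ] (r : ℕ) (v : ℕ → Fin r → κ)
    (N : Matrix (Fin r) (Fin r) κ) (gam : Fin r → κ) (s : ℕ → ℕ → ℤ)
    (hs : ∀ k i, ((s k i : ℤ) : κ) = dotProduct (v k) ((N ^ i).mulVec gam))
    (hb : ∀ k, ∃ C : ℤ, ∀ i : ℕ, |s k i| ≤ C) :
    ∃ i0 p : ℕ, 0 < p ∧ ∀ k l : ℕ, s k (i0 + l) = s k (i0 + p + l) := by
  let S : Set (Fin r → κ) := Set.range fun x : ℕ × ℕ => Matrix.vecMul (v x.1) (N ^ x.2)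
  have hfg : (Submodule.span κ S).FG := IsNoetherian.noetherian _
  obtain ⟨T, hTS, hT⟩ := (Submodule.fg_span_iff_fg_span_finset_subset S).1 hfg
  have hx : ∀ w : T, ∃ x : ℕ × ℕ, Matrix.vecMul (v x.1) (N ^ x.2) = (w : Fin r → κ) :=
    fun w => hTS w.2
  choose x hx using hx
  choose C hC using hb
  have hval : ∀ (k j i : ℕ), dotProduct (Matrix.vecMul (v k) (N ^ j)) ((N ^ i).mulVec gam) =
      ((s k (j + i) : ℤ) : κ) := by
    intro k j i
    rw [hs, ← Matrix.dotProduct_mulVec, Matrix.mulVec_mulVec, ← pow_add]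
  let st : ℕ → (T → ℤ) := fun i w => s (x w).1 ((x w).2 + i)
  have hfin : (Set.range st).Finite := by
    refine Set.Finite.subset (Set.Finite.pi (fun w : T => Set.finite_Icc (-(C (x w).1))
      (C (x w).1))) ?_
    rintro _ ⟨i, rfl⟩ w _
    have := hC (x w).1 ((x w).2 + i)
    rw [abs_le] at this
    exact this
  have hninj : ¬ Function.Injective st := by
    intro hinj
    exact Set.infinite_range_of_injective hinj hfin
  unfold Function.Injective at hninj
  push Not at hninj
  obtain ⟨a, b, hab, hne⟩ := hninj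
  have key : ∀ a b : ℕ, st a = st b → ∀ w ∈ Submodule.span κ S,
      dotProduct w ((N ^ a).mulVec gam) = dotProduct w ((N ^ b).mulVec gam) := by
    intro a b hab w hw
    rw [hT] at hw
    induction hw using Submodule.span_induction with
    | mem w hw =>
      have h1 := hx ⟨w, hw⟩
      have h2 := congrFun hab ⟨w, hw⟩
      simp only at h1
      rw [← h1, hval, hval]
      exact congrArg _ h2
    | zero => simp
    | add u w _ _ h1 h2 => rw [add_dotProduct, add_dotProduct, h1, h2]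
    | smul c w _ h1 => rw [smul_dotProduct, smul_dotProduct, h1]
  have main : ∀ a b : ℕ, st a = st b → a < b →
      ∃ i0 p : ℕ, 0 < p ∧ ∀ k l : ℕ, s k (i0 + l) = s k (i0 + p + l) := by
    intro a b hab hlt
    refine ⟨a, b - a, by omega, fun k l => ?_⟩
    have h1 := key a b hab (Matrix.vecMul (v k) (N ^ l)) (Submodule.subset_span ⟨(k, l), rfl⟩)
    rw [hval, hval] at h1
    have h2 : s k (l + a) = s k (l + b) := by exact_mod_cast h1
    rw [show a + l = l + a by ring, h2]
    congr 1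
    omega
  rcases lt_or_gt_of_ne hne with h | h
  · exact main a b hab h
  · exact main b a hab.symm h

end Gen45

theorem stFinal_gen (hUp : StUp) (hBd : StBd) (hLow : StLow) (κ : Type u) [Field κ] [CharZero κ] :
    ¬ IsFibRegularOver κ (fun n => (PPL fw n : ℤ)) := by
  rintro ⟨r, _, lam, gam, M0, M1, hf⟩
  choose G hG using hLow
  let g : ℕ → ℕ := fun k => 2 * G (k + 1) + 3
  let nn : ℕ → ℕ → ℕ := fun k j => ∑ i ∈ Finset.range (k + 1), F (i * (g k + 1) + 2 * j)
  let A : ℕ → Matrix (Fin r) (Fin r) κ := fun k =>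
    ((Z45.W (g k) 0 (k + 1)).map fun c : Bool => if c then M1 else M0).prod
  let v : ℕ → Fin r → κ := fun k => Matrix.vecMul lam (A k)
  have hval : ∀ k j, (((PPL fw (nn k j) : ℕ) : ℤ) : κ) =
      dotProduct (v k) (((M0 ^ 2) ^ j).mulVec gam) := by
    intro k j
    have h1 : (((PPL fw (nn k j) : ℕ) : ℤ) : κ) = _ :=
      hf (nn k j) (Z45.W (g k) (2 * j) (k + 1)) (Z45.W_zeck (g k) (2 * j) k (by
      simp only [g]; omega))
    rw [h1, Z45.W_append _ _ _ (by omega), List.map_append, List.prod_append, List.map_replicate,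
      List.prod_replicate]
    simp only [Bool.false_eq_true, if_false]
    rw [← pow_mul, ← Matrix.mulVec_mulVec, Matrix.dotProduct_mulVec]
  have heven : ∀ k j i, Even (i * (g k + 1) + 2 * j) := by
    intro k j i
    refine ⟨i * (G (k + 1) + 2) + j, ?_⟩
    simp only [g]; ring
  have hgap : ∀ k j i, i * (g k + 1) + 2 * j + (2 * G (k + 1) + 4) =
      (i + 1) * (g k + 1) + 2 * j := by
    intro k j i
    simp only [g]; ring
  obtain ⟨i0, p, hp, hper⟩ := Gen45.reg_gen r v (M0 ^ 2) gam (fun k j => (PPL fw (nn k j) : ℤ))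
    hval (by
    intro k
    refine ⟨3 * (k + 1), fun j => ?_⟩
    have h := hBd (k + 1) (fun i => i * (g k + 1) + 2 * j) (heven k j) (by
      intro i
      have := hgap k j i
      show i * (g k + 1) + 2 * j + 4 ≤ (i + 1) * (g k + 1) + 2 * j
      omega)
    rw [abs_of_nonneg (by positivity)]
    exact_mod_cast h)
  have hiter : ∀ q, (PPL fw (nn i0 (i0 + 1 + q * p)) : ℤ) = PPL fw (nn i0 (i0 + 1)) := by
    intro q
    induction q with
    | zero => simp
    | succ q ih =>
      have := hper i0 (1 + q * p)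
      rw [← ih, show i0 + 1 + q * p = i0 + (1 + q * p) by ring, this,
        show i0 + 1 + (q + 1) * p = i0 + p + (1 + q * p) by ring]
  have hup := hUp (i0 + 1) (fun i => i * (g i0 + 1) + 2 * (i0 + 1)) (by omega)
    (heven i0 (i0 + 1)) (by simp) (by
      intro i
      have := hgap i0 (i0 + 1) i
      show i * (g i0 + 1) + 2 * (i0 + 1) + 4 ≤ (i + 1) * (g i0 + 1) + 2 * (i0 + 1)
      omega)
  have hlow := hG (i0 + 1) (fun i => i * (g i0 + 1) + 2 * (i0 + 1 + G (i0 + 1) * p))
    (heven i0 _) (by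
      show G (i0 + 1) ≤ 0 * (g i0 + 1) + 2 * (i0 + 1 + G (i0 + 1) * p)
      have : G (i0 + 1) * 1 ≤ G (i0 + 1) * p := Nat.mul_le_mul_left _ hp
      omega) (by
      intro i
      have := hgap i0 (i0 + 1 + G (i0 + 1) * p) i
      show i * (g i0 + 1) + 2 * (i0 + 1 + G (i0 + 1) * p) + G (i0 + 1) ≤
        (i + 1) * (g i0 + 1) + 2 * (i0 + 1 + G (i0 + 1) * p)
      omega)
  have h1 : PPL fw (nn i0 (i0 + 1)) ≤ 2 * (i0 + 1) - 1 := hup
  have h2 : 2 * (i0 + 1) ≤ PPL fw (nn i0 (i0 + 1 + G (i0 + 1) * p)) := hlow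
  have h3 := hiter (G (i0 + 1))
  have h4 : PPL fw (nn i0 (i0 + 1 + G (i0 + 1) * p)) = PPL fw (nn i0 (i0 + 1)) := by
    exact_mod_cast h3
  omega

end Pool.Agent.Lib.MP_f91ac8_co.FQ
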