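import Pool.Agent.Lib.MP_f91ac8_co.FQ.Stmts45

set_option autoImplicit false

/-! Rows L1, L2, L3 of FQ (helper86). -/

namespace Pool.Agent.Lib.MP_f91ac8_co.FQ

theorem sq5_86 : Real.sqrt 5 * Real.sqrt 5 = 5 := Real.mul_self_sqrt (by norm_num)

theorem th_pos_86 : 0 < th := by
  have h := sq5_86
  have h0 := Real.sqrt_nonneg 5
  unfold th
  nlinarith

theorem th_lt_one_86 : th < 1 := by
  have h := sq5_86
  have h0 := Real.sqrt_nonneg 5
  unfold th
  nlinarith

theorem th_sq_86 : th ^ 2 = 1 - th := by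
  have h := sq5_86
  unfold th
  nlinarith

theorem al_eq_86 : al = th ^ 2 := by
  have h := sq5_86
  unfold al th
  nlinarith

theorem norm_ne_zero_86 (d p : ℤ) (hd : d ≠ 0) : d ^ 2 - 3 * d * p + p ^ 2 ≠ 0 := by
  intro h
  have h5 : (2 * p - 3 * d) ^ 2 = 5 * d ^ 2 := by linarith [h, show (2 * p - 3 * d) ^ 2 =
    5 * d ^ 2 + 4 * (d ^ 2 - 3 * d * p + p ^ 2) by ring]
  have hirr : Irrational (Real.sqrt 5) := by
    have := Nat.Prime.irrational_sqrt (show Nat.Prime 5 by norm_num)
    simpa using this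
  apply hirr
  have hdr : (d : ℝ) ≠ 0 := by exact_mod_cast hd
  have h5r : (2 * (p : ℝ) - 3 * d) ^ 2 = 5 * (d : ℝ) ^ 2 := by exact_mod_cast h5
  refine ⟨|(2 * (p : ℚ) - 3 * d) / d|, ?_⟩
  have hsq : (Real.sqrt 5) ^ 2 = |(2 * (p : ℝ) - 3 * d) / d| ^ 2 := by
    rw [sq_abs, div_pow, h5r, Real.sq_sqrt (by norm_num)]
    field_simp
  have := (sq_eq_sq₀ (Real.sqrt_nonneg 5) (abs_nonneg _)).mp hsq
  rw [this]
  push_cast
  rfl

theorem stNorm_86 : StNorm := by
  intro d p hd
  have hne := norm_ne_zero_86 d p hd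
  have h5 := sq5_86
  have hprod : X d p * (X d p + Real.sqrt 5 * (d : ℝ)) = ((d ^ 2 - 3 * d * p + p ^ 2 : ℤ) : ℝ) := by
    unfold X al
    push_cast
    linear_combination (-(d : ℝ) ^ 2 / 4) * h5
  have h1 : (1 : ℝ) ≤ |((d ^ 2 - 3 * d * p + p ^ 2 : ℤ) : ℝ)| := by
    rw [← Int.cast_abs]
    exact_mod_cast Int.one_le_abs hne
  rw [← hprod, abs_mul] at h1
  refine h1.trans (mul_le_mul_of_nonneg_left ?_ (abs_nonneg _))
  calc |X d p + Real.sqrt 5 * (d : ℝ)| ≤ |X d p| + |Real.sqrt 5 * (d : ℝ)| := abs_add_le _ _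
    _ = |X d p| + Real.sqrt 5 * |(d : ℝ)| := by
      rw [abs_mul, abs_of_nonneg (Real.sqrt_nonneg 5)]

theorem stX_86 : StX := by
  have key : ∀ k : ℕ, X (F k) (Nat.fib k) = (-1) ^ k * th ^ (k + 2) ∧
      X (F (k + 1)) (Nat.fib (k + 1)) = (-1) ^ (k + 1) * th ^ (k + 3) := by
    intro k
    induction k with
    | zero =>
      constructor
      · simp [X, F, al_eq_86]
      · have h2 := th_sq_86
        have h3 : th ^ 3 = 2 * th - 1 := by
          have : th ^ 3 = th * th ^ 2 := by ring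
          rw [this, h2]
          linarith [h2, show th * (1 - th) = th - th ^ 2 by ring]
        have hf : Nat.fib 3 = 2 := rfl
        simp [X, F, al_eq_86, hf, h3, h2]
        ring
    | succ k ih =>
      refine ⟨ih.2, ?_⟩
      have hF : (F (k + 2) : ℤ) = F (k + 1) + F k := by
        unfold F
        have := Nat.fib_add_two (n := k + 2)
        push_cast [this]
        ring
      have hf : (Nat.fib (k + 2) : ℤ) = Nat.fib (k + 1) + Nat.fib k := by
        rw [Nat.fib_add_two]
        push_cast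
        ring
      have hX : X (F (k + 2)) (Nat.fib (k + 2)) =
          X (F (k + 1)) (Nat.fib (k + 1)) + X (F k) (Nat.fib k) := by
        rw [hF, hf]
        unfold X
        push_cast
        ring
      show X (F (k + 2)) (Nat.fib (k + 2)) = _
      rw [hX, ih.1, ih.2]
      have h2 := th_sq_86
      have e1 : th ^ (k + 1 + 3) = th ^ (k + 2) * (1 - th) := by
        rw [← h2]; ring
      rw [e1]
      ring
  exact fun k => (key k).1

theorem stFth_86 : StFth := by
  have key : ∀ n : ℕ, (Nat.fib n : ℝ) * th ^ n ≤ 1 ∧ (Nat.fib (n + 1) : ℝ) * th ^ (n + 1) ≤ 1 := by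
    intro n
    induction n with
    | zero =>
      constructor
      · simp
      · simpa using th_lt_one_86.le
    | succ n ih =>
      refine ⟨ih.2, ?_⟩
      have h2 := th_sq_86
      have hp := th_pos_86
      have e : (Nat.fib (n + 2) : ℝ) * th ^ (n + 2) =
          th * ((Nat.fib (n + 1) : ℝ) * th ^ (n + 1)) + th ^ 2 * ((Nat.fib n : ℝ) * th ^ n) := by
        rw [Nat.fib_add_two]
        push_cast
        ring
      show (Nat.fib (n + 2) : ℝ) * th ^ (n + 2) ≤ 1
      rw [e]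
      have a1 := mul_le_mul_of_nonneg_left ih.2 hp.le
      have a2 := mul_le_mul_of_nonneg_left ih.1 (sq_nonneg th)
      linarith
  intro k
  exact (key (k + 2)).1

end Pool.Agent.Lib.MP_f91ac8_co.FQ
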