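import Pool.Agent.Lib.MP_f91ac8_co.Path

set_option autoImplicit false

/-! Statements for Q2 of MP_f91ac8 (prefix palindromic length of the Fibonacci word). -/

namespace Pool.Agent.Lib.MP_f91ac8_co.FQ

/-- Fibonacci weights `1, 2, 3, 5, 8, ...`. -/
def F (k : ℕ) : ℕ := Nat.fib (k + 2)

/-- the morphism `a ↦ ab`, `b ↦ a` on words (`a = false`, `b = true`) -/
def mor (w : List Bool) : List Bool := w.flatMap fun c => if c then [false] else [false, true]

/-- the word obtained from `a` by applying the morphism `k` times -/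
def sw : ℕ → List Bool
  | 0 => [false]
  | k + 1 => mor (sw k)

/-- the Fibonacci word, letters indexed from `1` (`a = false`, `b = true`) -/
def fw (n : ℕ) : Bool := (sw n).getD (n - 1) false

/-- the value of a digit word (most significant digit first) with the weights `F` -/
def val : List Bool → ℕ
  | [] => 0
  | c :: w => (if c then F w.length else 0) + val w

/-- `w` is the Zeckendorf representation of `n`: no leading zero, no two adjacent ones, value `n` -/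
def IsZeck (w : List Bool) (n : ℕ) : Prop :=
  w.head? ≠ some false ∧ List.IsChain (fun x y => ¬(x = true ∧ y = true)) w ∧ val w = n

/-- Fibonacci-regular sequences of integers -/
def IsFibRegular (f : ℕ → ℤ) : Prop :=
  ∃ (r : ℕ) (_ : 1 ≤ r) (lam gam : Fin r → ℤ) (M0 M1 : Matrix (Fin r) (Fin r) ℤ),
    ∀ (n : ℕ) (w : List Bool), IsZeck w n →
      f n = dotProduct lam ((w.map fun c : Bool => if c then M1 else M0).prod.mulVec gam)

/-- `al = 1 / phi ^ 2` -/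
noncomputable def al : ℝ := (3 - Real.sqrt 5) / 2

/-- `th = 1 / phi` -/
noncomputable def th : ℝ := (Real.sqrt 5 - 1) / 2

/-- internal coordinate of the lattice point `(d, p)` -/
noncomputable def X (d p : ℤ) : ℝ := (d : ℝ) * al - (p : ℝ)

/-- no lattice point with physical coordinate in `[m, m']` has its internal coordinate strictly
between `0` and `D` -/
def Emp (m m' : ℤ) (D : ℝ) : Prop :=
  ∀ t p : ℤ, m ≤ t → t ≤ m' → ¬(0 < X t p ∧ X t p < D) ∧ ¬(D < X t p ∧ X t p < 0)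

/-! ### lattice rows -/

/-- L1 -/
def StNorm : Prop := ∀ d p : ℤ, d ≠ 0 → 1 ≤ |X d p| * (|X d p| + Real.sqrt 5 * |(d : ℝ)|)

/-- L2 -/
def StX : Prop := ∀ k : ℕ, X (F k) (Nat.fib k) = (-1) ^ k * th ^ (k + 2)

/-- L3 -/
def StFth : Prop := ∀ k : ℕ, (F k : ℝ) * th ^ (k + 2) ≤ 1

/-- L4: one-sided best approximation -/
def StBA : Prop := ∀ (a : ℕ) (t p : ℤ), 0 < t → t < F (a + 2) → 0 < (-1 : ℝ) ^ a * X t p →
  th ^ (a + 2) ≤ |X t p|

/-- L5: every window of `F (j + 2)` integers contains a point just beyond `0` on the side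
opposite to `X (F j)` -/
def StSlide : Prop := ∀ (j : ℕ) (m : ℤ), ∃ t p : ℤ, m ≤ t ∧ t < m + F (j + 2) ∧
  (-1 : ℝ) ^ j * X t p < 0 ∧ |X t p| ≤ th ^ (j + 2)

/-- L6: an empty rectangle that is long is thin -/
def StLen : Prop := ∀ (j : ℕ) (m m' : ℤ) (D : ℝ), Emp m m' D → m + F (j + 3) ≤ m' + 1 →
  |D| ≤ th ^ (j + 2)

/-! ### word rows -/

/-- W1 -/
def StPref : Prop := ∀ k : ℕ, (sw k).length = F k ∧ pref fw (F k) = sw k

/-- W2 -/
def StRec : Prop := ∀ k t : ℕ, 1 ≤ k → F k < t → t ≤ F (k + 1) → fw t = fw (t - F k)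

/-- W3: Sturmian coding -/
def StFloor : Prop := ∀ t : ℕ, 1 ≤ t →
  (fw t = true ↔ ⌊((t : ℝ) + 1) * al⌋ = ⌊(t : ℝ) * al⌋ + 1)

/-- P1: a palindromic factor gives an empty rectangle -/
def StPalF : Prop := ∀ n n' : ℕ, n < n' → Pal fw n n' →
  ∃ Q : ℤ, Emp ((n : ℤ) + 1) ((n' : ℤ) + 1) (X ((n : ℤ) + n' + 2) Q)

/-- P2: an empty rectangle gives a palindromic factor -/
def StPalB : Prop := ∀ (n n' : ℕ) (Q : ℤ), n < n' → |X ((n : ℤ) + n' + 2) Q| < 1 →
  Emp ((n : ℤ) + 1) ((n' : ℤ) + 1) (X ((n : ℤ) + n' + 2) Q) → Pal fw n n'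

/-! ### upper bounds -/

/-- U1: reflection of a copy of a palindromic prefix (`a` even) -/
def StL : Prop := ∀ (a : ℕ) (H q : ℤ) (g : ℕ) (n n' : ℕ), Even a → 0 ≤ X H q →
  X H q ≤ th ^ (a + 3) → 1 ≤ g → 0 ≤ H → (n : ℤ) + 1 = H + g → (n' : ℤ) + 1 = H + F a - g →
  n < n' → Pal fw n n'

/-- U2: crossing the point `H` -/
def StC : Prop := ∀ (l : ℕ) (H q : ℤ) (g : ℕ) (n n' : ℕ), 0 ≤ X H q →
  2 * X H q ≤ th ^ (2 * l + 3) → 1 ≤ g → g < F (2 * l + 2) → (n : ℤ) + 1 = H - g →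
  (n' : ℤ) + 1 = H + g + F (2 * l + 1) → Pal fw n n'

/-- U3: `k` ones at even positions, the lowest at position `2 k` -/
def StUp : Prop := ∀ (k : ℕ) (a : ℕ → ℕ), 1 ≤ k → (∀ i, Even (a i)) → a 0 = 2 * k →
  (∀ i, a i + 4 ≤ a (i + 1)) → PPL fw (∑ i ∈ Finset.range k, F (a i)) ≤ 2 * k - 1

/-- U4: boundedness -/
def StBd : Prop := ∀ (k : ℕ) (a : ℕ → ℕ), (∀ i, Even (a i)) → (∀ i, a i + 4 ≤ a (i + 1)) →
  PPL fw (∑ i ∈ Finset.range k, F (a i)) ≤ 3 * k

/-! ### lower bound -/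

/-- G: `k` ones at even positions with large gaps -/
def StLow : Prop := ∀ k : ℕ, ∃ G : ℕ, ∀ a : ℕ → ℕ, (∀ i, Even (a i)) → G ≤ a 0 →
  (∀ i, a i + G ≤ a (i + 1)) → 2 * k ≤ PPL fw (∑ i ∈ Finset.range k, F (a i))

/-! ### regularity -/

/-- R1: bounded linear recurrent sequences of one matrix are eventually periodic, uniformly -/
def StReg : Prop := ∀ (r : ℕ) (v : ℕ → Fin r → ℤ) (N : Matrix (Fin r) (Fin r) ℤ)
  (gam : Fin r → ℤ), (∀ k, ∃ C : ℤ, ∀ i : ℕ, |dotProduct (v k) ((N ^ i).mulVec gam)| ≤ C) →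
  ∃ i0 p : ℕ, 0 < p ∧ ∀ k l : ℕ, dotProduct (v k) ((N ^ (i0 + l)).mulVec gam) =
    dotProduct (v k) ((N ^ (i0 + p + l)).mulVec gam)

/-- Z1: every natural number has exactly one Zeckendorf word (sanity of the definition) -/
def StZeck : Prop := ∀ n : ℕ, ∃! w : List Bool, IsZeck w n

/-- Z2: the final theorem -/
def StFinal : Prop := ¬ IsFibRegular (fun n => (PPL fw n : ℤ))

end Pool.Agent.Lib.MP_f91ac8_co.FQ
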