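import Mathlib
import Pool.Agent.Lib.MP_f91ac8_co.FQ.Stmts45

set_option autoImplicit false

/-! Row L4 of MP_f91ac8 Q2: one-sided best approximation. -/

namespace Pool.Agent.Lib.MP_f91ac8_co.FQ

namespace L4h16

/-- Cassini type identity for consecutive lattice vectors -/
theorem det (a : ℕ) : ((Nat.fib (a + 2) : ℤ) * Nat.fib (a + 1) - (Nat.fib (a + 3) : ℤ) * Nat.fib a)
    = (-1) ^ a := by
  induction a with
  | zero => simp
  | succ n ih =>
    have h1 : (Nat.fib (n + 1 + 3) : ℤ) = Nat.fib (n + 2) + Nat.fib (n + 3) := by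
      have := Nat.fib_add_two (n := n + 2)
      exact_mod_cast this
    have h2 : (Nat.fib (n + 1 + 1) : ℤ) = Nat.fib n + Nat.fib (n + 1) := by
      have := Nat.fib_add_two (n := n)
      exact_mod_cast this
    have h3 : (Nat.fib (n + 3) : ℤ) = Nat.fib (n + 1) + Nat.fib (n + 2) := by
      have := Nat.fib_add_two (n := n + 1)
      exact_mod_cast this
    have e1 : n + 1 + 2 = n + 3 := by omega
    have e2 : n + 1 + 1 = n + 2 := by omega
    rw [e2] at h2
    rw [e1, e2, h1, pow_succ, ← ih, h3, h2]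
    ring

theorem sq_sign (a : ℕ) : ((-1 : ℤ) ^ a) * (-1) ^ a = 1 := by
  rw [← pow_add, ← two_mul, pow_mul]
  simp

theorem sq_sign_real (a : ℕ) : ((-1 : ℝ) ^ a) * (-1) ^ a = 1 := by
  rw [← pow_add, ← two_mul, pow_mul]
  simp

theorem th_pos : 0 < th := by
  unfold th
  have h : (1 : ℝ) < Real.sqrt 5 := by
    rw [Real.lt_sqrt (by norm_num)]
    norm_num
  linarith

end L4h16

open L4h16 in
theorem stBA_16 (hX : StX) : StBA := by
  intro a t p ht0 ht hs
  set s : ℤ := (-1) ^ a with hsdef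
  have hss : s * s = 1 := sq_sign a
  have hd := det a
  rw [← hsdef] at hd
  set A : ℤ := (Nat.fib (a + 2) : ℤ) with hA
  set B : ℤ := (Nat.fib (a + 3) : ℤ) with hB
  set C : ℤ := (Nat.fib a : ℤ) with hC
  set E : ℤ := (Nat.fib (a + 1) : ℤ) with hE
  -- coordinates
  obtain ⟨u, hu⟩ : ∃ u : ℤ, u = s * (t * E - p * B) := ⟨_, rfl⟩
  obtain ⟨v, hv⟩ : ∃ v : ℤ, v = s * (p * A - t * C) := ⟨_, rfl⟩
  have h1 : t = u * A + v * B := by
    rw [hu, hv]
    have : s * (t * E - p * B) * A + s * (p * A - t * C) * B = s * t * (A * E - B * C) := by ring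
    rw [this, hd]
    calc t = t * (s * s) := by rw [hss, mul_one]
      _ = s * t * s := by ring
  have h2 : p = u * C + v * E := by
    rw [hu, hv]
    have : s * (t * E - p * B) * C + s * (p * A - t * C) * E = s * p * (A * E - B * C) := by ring
    rw [this, hd]
    calc p = p * (s * s) := by rw [hss, mul_one]
      _ = s * p * s := by ring
  have hXa : X A C = (-1) ^ a * th ^ (a + 2) := by
    have := hX a
    unfold F at this
    exact this
  have hXb : X B E = (-1) ^ (a + 1) * th ^ (a + 3) := by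
    have := hX (a + 1)
    unfold F at this
    exact this
  have hXt : X t p = (-1 : ℝ) ^ a * ((u : ℝ) * th ^ (a + 2) - (v : ℝ) * th ^ (a + 3)) := by
    have e : X t p = (u : ℝ) * X A C + (v : ℝ) * X B E := by
      unfold X
      rw [h1, h2]
      push_cast
      ring
    rw [e, hXa, hXb, pow_succ (-1 : ℝ) a]
    ring
  have hval : (-1 : ℝ) ^ a * X t p = (u : ℝ) * th ^ (a + 2) - (v : ℝ) * th ^ (a + 3) := by
    rw [hXt, ← mul_assoc, sq_sign_real, one_mul]
  have hab : |X t p| = |(-1 : ℝ) ^ a * X t p| := by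
    rw [abs_mul, abs_pow, abs_neg, abs_one, one_pow, one_mul]
  rw [hval] at hs
  have hth := th_pos
  have p2 : 0 < th ^ (a + 2) := pow_pos hth _
  have p3 : 0 < th ^ (a + 3) := pow_pos hth _
  have hAp : 0 < A := by
    have : 0 < Nat.fib (a + 2) := Nat.fib_pos.mpr (by omega)
    rw [hA]
    exact_mod_cast this
  have hBp : 0 < B := by
    have : 0 < Nat.fib (a + 3) := Nat.fib_pos.mpr (by omega)
    rw [hB]
    exact_mod_cast this
  have hF : ((F (a + 2) : ℕ) : ℤ) = A + B := by
    unfold F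
    have := Nat.fib_add_two (n := a + 2)
    have e : a + 2 + 2 = a + 4 := by omega
    rw [hA, hB]
    exact_mod_cast this
  rw [hF] at ht
  rcases le_or_gt u 0 with hu0 | hu0
  · exfalso
    rcases le_or_gt 0 v with hv0 | hv0
    · have g1 : (u : ℝ) * th ^ (a + 2) ≤ 0 :=
        mul_nonpos_of_nonpos_of_nonneg (by exact_mod_cast hu0) p2.le
      have g2 : 0 ≤ (v : ℝ) * th ^ (a + 3) := mul_nonneg (by exact_mod_cast hv0) p3.le
      linarith
    · have g1 : u * A ≤ 0 := mul_nonpos_of_nonpos_of_nonneg hu0 hAp.le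
      have g2 : v * B < 0 := mul_neg_of_neg_of_pos hv0 hBp
      omega
  · rcases le_or_gt v 0 with hv0 | hv0
    · have g1 : th ^ (a + 2) ≤ (u : ℝ) * th ^ (a + 2) := by
        have : (1 : ℝ) ≤ u := by exact_mod_cast hu0
        nlinarith
      have g2 : (v : ℝ) * th ^ (a + 3) ≤ 0 :=
        mul_nonpos_of_nonpos_of_nonneg (by exact_mod_cast hv0) p3.le
      rw [hab, hval]
      calc th ^ (a + 2) ≤ (u : ℝ) * th ^ (a + 2) - (v : ℝ) * th ^ (a + 3) := by linarith
        _ ≤ _ := le_abs_self _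
    · exfalso
      have g1 : A ≤ u * A := by nlinarith
      have g2 : B ≤ v * B := by nlinarith
      omega

end Pool.Agent.Lib.MP_f91ac8_co.FQ
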