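import Pool.Agent.Lib.MP_f91ac8_co.FQ.Stmts45

set_option autoImplicit false

/-! Rows L5, L6. -/

namespace Pool.Agent.Lib.MP_f91ac8_co.FQ

namespace L56_46

lemma th_pos : 0 < th := by
  unfold th
  have : (1 : ℝ) < Real.sqrt 5 := by
    rw [show (1 : ℝ) = Real.sqrt 1 by simp]
    exact Real.sqrt_lt_sqrt (by norm_num) (by norm_num)
  linarith

lemma th_lt_one : th < 1 := by
  unfold th
  have : Real.sqrt 5 < 3 := by
    rw [show (3 : ℝ) = Real.sqrt 9 by
      rw [show (9 : ℝ) = 3 ^ 2 by norm_num, Real.sqrt_sq (by norm_num)]]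
    exact Real.sqrt_lt_sqrt (by norm_num) (by norm_num)
  linarith

lemma th_pow_le (a : ℕ) : th ^ (a + 1) ≤ th ^ a :=
  pow_le_pow_of_le_one th_pos.le th_lt_one.le (Nat.le_succ a)

lemma F_add (j : ℕ) : F (j + 2) = F j + F (j + 1) := by
  unfold F
  rw [Nat.fib_add_two]

lemma X_add (a b c d : ℤ) : X (a + b) (c + d) = X a c + X b d := by
  unfold X
  push_cast
  ring

lemma X_sub (a b c d : ℤ) : X (a - b) (c - d) = X a c - X b d := by
  unfold X
  push_cast
  ring

lemma sq_sign (j : ℕ) : (-1 : ℝ) ^ j * (-1) ^ j = 1 := by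
  rw [← mul_pow]
  norm_num

lemma slide_aux (hX : StX) (j : ℕ) (m : ℤ) : ∀ (n : ℕ) (t p : ℤ), m ≤ t → t < m + F (j + 2) →
    (-1 : ℝ) ^ j * X t p < 0 → -((-1 : ℝ) ^ j * X t p) ≤ n * th ^ (j + 3) →
    ∃ t p : ℤ, m ≤ t ∧ t < m + F (j + 2) ∧ (-1 : ℝ) ^ j * X t p < 0 ∧ |X t p| ≤ th ^ (j + 2) := by
  intro n
  induction n with
  | zero =>
    intro t p _ _ h1 h2
    simp only [Nat.cast_zero, zero_mul] at h2
    linarith
  | succ n ih =>
    intro t p ht1 ht2 h1 h2
    have hab : |X t p| = -((-1 : ℝ) ^ j * X t p) := by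
      have h3 : |(-1 : ℝ) ^ j * X t p| = |X t p| := by
        rw [abs_mul, abs_pow, abs_neg, abs_one, one_pow, one_mul]
      rw [← h3, abs_of_neg h1]
    by_cases hs : |X t p| ≤ th ^ (j + 2)
    · exact ⟨t, p, ht1, ht2, h1, hs⟩
    rw [hab] at hs
    push_neg at hs
    push_cast at h2
    have e3 : th ^ (j + 3) ≤ th ^ (j + 2) := th_pow_le (j + 2)
    have ss := sq_sign j
    by_cases hw : t - m < F (j + 1)
    · have hx := hX j
      have e : (-1 : ℝ) ^ j * X (t + F j) (p + Nat.fib j) =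
          (-1 : ℝ) ^ j * X t p + th ^ (j + 2) := by
        rw [X_add, hx]
        linear_combination (th ^ (j + 2)) * ss
      refine ih (t + F j) (p + Nat.fib j) (by omega) ?_ ?_ ?_
      · rw [F_add]
        push_cast
        omega
      · rw [e]
        linarith
      · rw [e]
        linarith
    · have hx := hX (j + 1)
      have e : (-1 : ℝ) ^ j * X (t - F (j + 1)) (p - Nat.fib (j + 1)) =
          (-1 : ℝ) ^ j * X t p + th ^ (j + 3) := by
        rw [X_sub, hx, pow_succ]
        linear_combination (th ^ (j + 3)) * ss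
      refine ih (t - F (j + 1)) (p - Nat.fib (j + 1)) (by omega) ?_ ?_ ?_
      · have : (0 : ℤ) ≤ F (j + 1) := Int.natCast_nonneg _
        omega
      · rw [e]
        linarith
      · rw [e]
        linarith

end L56_46

open L56_46 in
theorem stSlide_46 (hX : StX) : StSlide := by
  intro j m
  have hF : 0 < F (j + 2) := Nat.fib_pos.2 (by omega)
  have hth : 0 < th ^ (j + 3) := pow_pos th_pos _
  obtain ⟨p, hp⟩ : ∃ p : ℤ, (-1 : ℝ) ^ j * X m p < 0 := by
    rcases neg_one_pow_eq_or ℝ j with h | h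
    · refine ⟨⌊(m : ℝ) * al⌋ + 1, ?_⟩
      rw [h]
      unfold X
      push_cast
      have := Int.lt_floor_add_one ((m : ℝ) * al)
      linarith
    · refine ⟨⌊(m : ℝ) * al⌋ - 1, ?_⟩
      rw [h]
      unfold X
      push_cast
      have := Int.floor_le ((m : ℝ) * al)
      linarith
  obtain ⟨n, hn⟩ := exists_nat_ge (-((-1 : ℝ) ^ j * X m p) / th ^ (j + 3))
  refine slide_aux hX j m n m p le_rfl (by omega) hp ?_
  rwa [div_le_iff₀ hth] at hn

open L56_46 in
theorem stLen_46 (hX : StX) : StLen := by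
  intro j m m' D hE hm
  by_contra hD
  push_neg at hD
  have e3 : th ^ (j + 3) ≤ th ^ (j + 2) := th_pow_le (j + 2)
  have hFle : F (j + 2) ≤ F (j + 3) := Nat.fib_le_fib_succ
  -- a point on either side
  have side : ∀ s : ℝ, (s = 1 ∨ s = -1) → ∃ t p : ℤ, m ≤ t ∧ t ≤ m' ∧ 0 < s * X t p ∧
      |X t p| ≤ th ^ (j + 2) := by
    intro s hs
    obtain ⟨t, p, h1, h2, h3, h4⟩ := stSlide_46 hX j m
    obtain ⟨t', p', h1', h2', h3', h4'⟩ := stSlide_46 hX (j + 1) m
    have h2'' : t' < m + F (j + 3) := h2'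
    rcases neg_one_pow_eq_or ℝ j with h | h
    · rcases hs with hs | hs
      · refine ⟨t', p', h1', by omega, ?_, h4'.trans e3⟩
        rw [pow_succ, h] at h3'
        rw [hs]
        linarith
      · refine ⟨t, p, h1, by omega, ?_, h4⟩
        rw [h] at h3
        rw [hs]
        linarith
    · rcases hs with hs | hs
      · refine ⟨t, p, h1, by omega, ?_, h4⟩
        rw [h] at h3
        rw [hs]
        linarith
      · refine ⟨t', p', h1', by omega, ?_, h4'.trans e3⟩
        rw [pow_succ, h] at h3'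
        rw [hs]
        linarith
  rcases lt_trichotomy D 0 with h | h | h
  · obtain ⟨t, p, h1, h2, h3, h4⟩ := side (-1) (Or.inr rfl)
    refine (hE t p h1 h2).2 ⟨?_, by linarith⟩
    rw [abs_of_neg h] at hD
    have := (abs_le.1 h4).1
    linarith
  · rw [h, abs_zero] at hD
    have : 0 < th ^ (j + 2) := pow_pos th_pos _
    linarith
  · obtain ⟨t, p, h1, h2, h3, h4⟩ := side 1 (Or.inl rfl)
    refine (hE t p h1 h2).1 ⟨by linarith, ?_⟩
    rw [abs_of_pos h] at hD
    have := (abs_le.1 h4).2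
    linarith

end Pool.Agent.Lib.MP_f91ac8_co.FQ
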