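import Pool.Agent.Lib.MP_f91ac8_co.FQ.Stmts45

set_option autoImplicit false

/-! Row P12 of the Fibonacci word: palindromic factors and empty rectangles. -/

namespace Pool.Agent.Lib.MP_f91ac8_co.FQ

namespace P12_9

theorem al_pos : 0 < al := by
  unfold al
  have : Real.sqrt 5 < 3 := by
    rw [Real.sqrt_lt' (by norm_num)]; norm_num
  linarith

theorem al_lt : al < 1 := by
  unfold al
  have : 1 < Real.sqrt 5 := by
    rw [Real.lt_sqrt (by norm_num)]; norm_num
  linarith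

theorem X_ne {d p : ℤ} (hd : d ≠ 0) : X d p ≠ 0 := by
  unfold X al
  intro h
  have hirr : Irrational (Real.sqrt 5) := by
    have := Nat.Prime.irrational_sqrt (show Nat.Prime 5 by norm_num)
    simpa using this
  apply hirr
  refine ⟨(3 * d - 2 * p) / d, ?_⟩
  have hd' : (d : ℝ) ≠ 0 := by exact_mod_cast hd
  push_cast
  field_simp
  linarith

/-- the floor of the multiples of `al` -/
noncomputable def fl (t : ℤ) : ℤ := ⌊(t : ℝ) * al⌋

theorem fl_step (t : ℤ) : fl (t + 1) = fl t ∨ fl (t + 1) = fl t + 1 := by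
  unfold fl
  have h0 : ((t + 1 : ℤ) : ℝ) * al = (t : ℝ) * al + al := by push_cast; ring
  rw [h0]
  have h1 : ⌊(t : ℝ) * al⌋ ≤ ⌊(t : ℝ) * al + al⌋ := Int.floor_le_floor (by linarith [al_pos])
  have h2 : ⌊(t : ℝ) * al + al⌋ < ⌊(t : ℝ) * al⌋ + 2 := by
    rw [Int.floor_lt]; push_cast; linarith [Int.lt_floor_add_one ((t : ℝ) * al), al_lt]
  omega

theorem fw_iff (hF : StFloor) {t : ℕ} (ht : 1 ≤ t) :
    (fw t = true ↔ fl ((t : ℤ) + 1) = fl t + 1) := by
  rw [hF t ht]
  unfold fl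
  push_cast
  rfl

theorem fw_eq_iff (hF : StFloor) {t s : ℕ} (ht : 1 ≤ t) (hs : 1 ≤ s) :
    (fw t = fw s ↔ fl ((t : ℤ) + 1) - fl t = fl ((s : ℤ) + 1) - fl s) := by
  have h1 := fw_iff hF ht
  have h2 := fw_iff hF hs
  rcases fl_step t with h3 | h3 <;> rcases fl_step s with h4 | h4
  · have a1 : fw t = false := by
      rw [← Bool.not_eq_true]; rw [h1]; omega
    have a2 : fw s = false := by
      rw [← Bool.not_eq_true]; rw [h2]; omega
    rw [a1, a2, h3, h4]; simp
  · have a1 : fw t = false := by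
      rw [← Bool.not_eq_true]; rw [h1]; omega
    have a2 : fw s = true := by
      rw [h2]; omega
    rw [a1, a2, h3, h4]; simp
  · have a1 : fw t = true := by
      rw [h1]; omega
    have a2 : fw s = false := by
      rw [← Bool.not_eq_true]; rw [h2]; omega
    rw [a1, a2, h3, h4]; simp
  · have a1 : fw t = true := by
      rw [h1]; omega
    have a2 : fw s = true := by
      rw [h2]; omega
    rw [a1, a2, h3, h4]; simp

/-- along a palindrome the sum of the two floors is constant -/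
theorem const_of_pal (hF : StFloor) {n n' : ℕ} (hp : Pal fw n n') (i : ℕ)
    (hi : n + i ≤ n') :
    fl ((n : ℤ) + 1 + i) + fl ((n' : ℤ) + 1 - i) = fl ((n : ℤ) + 1) + fl ((n' : ℤ) + 1) := by
  induction i with
  | zero => simp
  | succ i ih =>
    have ih' := ih (by omega)
    have hpi := hp (n + 1 + i) (by omega) (by omega)
    have hs : n + n' + 1 - (n + 1 + i) = n' - i := by omega
    rw [hs] at hpi
    have h3 := (fw_eq_iff hF (by omega) (by omega)).1 hpi
    have e1 : (((n + 1 + i : ℕ) : ℤ)) = (n : ℤ) + 1 + i := by push_cast; ring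
    have e2 : (((n' - i : ℕ) : ℤ)) = (n' : ℤ) + 1 - (i + 1 : ℤ) := by
      rw [Nat.cast_sub (by omega)]; ring
    have e3 : (n' : ℤ) + 1 - (i + 1 : ℤ) + 1 = (n' : ℤ) + 1 - i := by ring
    have e4 : (n : ℤ) + 1 + i + 1 = (n : ℤ) + 1 + ((i + 1 : ℕ) : ℤ) := by push_cast; ring
    rw [e1, e2, e3, e4] at h3
    have e5 : (n' : ℤ) + 1 - ((i + 1 : ℕ) : ℤ) = (n' : ℤ) + 1 - (i + 1 : ℤ) := by push_cast; ring
    rw [e5]
    omega

theorem fract_add (t N Q : ℤ) :
    ((t : ℝ) * al - fl t) + (((N - t : ℤ) : ℝ) * al - fl (N - t)) =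
      X N Q + ((Q - (fl t + fl (N - t)) : ℤ) : ℝ) := by
  unfold X
  push_cast
  ring

theorem fr_nonneg (t : ℤ) : 0 ≤ (t : ℝ) * al - fl t := by
  unfold fl
  linarith [Int.floor_le ((t : ℝ) * al)]

theorem fr_lt (t : ℤ) : (t : ℝ) * al - fl t < 1 := by
  unfold fl
  linarith [Int.lt_floor_add_one ((t : ℝ) * al)]

theorem fr_pos {t : ℤ} (ht : t ≠ 0) : 0 < (t : ℝ) * al - fl t :=
  lt_of_le_of_ne (fr_nonneg t) (fun h => X_ne (p := fl t) ht h.symm)

theorem palF (hF : StFloor) : StPalF := by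
  intro n n' hn hp
  refine ⟨fl ((n : ℤ) + 1) + fl ((n' : ℤ) + 1) + 1, ?_⟩
  set Q : ℤ := fl ((n : ℤ) + 1) + fl ((n' : ℤ) + 1) + 1 with hQ
  set D : ℝ := X ((n : ℤ) + n' + 2) Q with hD
  intro t p ht1 ht2
  obtain ⟨i, hi⟩ : ∃ i : ℕ, t = (n : ℤ) + 1 + i := ⟨(t - (n + 1)).toNat, by omega⟩
  have hc := const_of_pal hF hp i (by omega)
  have e1 : (n : ℤ) + n' + 2 - t = (n' : ℤ) + 1 - i := by omega
  have hfr := fract_add t ((n : ℤ) + n' + 2) Q
  rw [e1, ← hD, hi, hc] at hfr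
  have hq : ((Q - (fl ((n : ℤ) + 1) + fl ((n' : ℤ) + 1)) : ℤ) : ℝ) = 1 := by
    rw [hQ]; push_cast; ring
  rw [hq, ← hi] at hfr
  have h1 := fr_lt ((n' : ℤ) + 1 - i)
  have h2 := fr_nonneg ((n' : ℤ) + 1 - i)
  have h3 := fr_lt t
  have h4 := fr_nonneg t
  have hx : X t p = ((t : ℝ) * al - fl t) + ((fl t - p : ℤ) : ℝ) := by
    unfold X; push_cast; ring
  refine ⟨fun ⟨ha, hb⟩ => ?_, fun ⟨ha, hb⟩ => ?_⟩
  · rw [hx] at ha hb
    have hk : fl t - p < 0 := by
      by_contra hk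
      have : (0 : ℝ) ≤ ((fl t - p : ℤ) : ℝ) := by exact_mod_cast not_lt.1 hk
      linarith
    have hk' : ((fl t - p : ℤ) : ℝ) ≤ -1 := by
      have : fl t - p ≤ -1 := by omega
      exact_mod_cast this
    linarith
  · rw [hx] at ha hb
    have hk : fl t - p < 0 := by
      by_contra hk
      have : (0 : ℝ) ≤ ((fl t - p : ℤ) : ℝ) := by exact_mod_cast not_lt.1 hk
      linarith
    have hk' : ((fl t - p : ℤ) : ℝ) ≤ -1 := by
      have : fl t - p ≤ -1 := by omega
      exact_mod_cast this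
    linarith

/-- the two floors add up to `Q - 1` at every point of an empty rectangle -/
theorem sum_of_emp {n n' : ℕ} {Q : ℤ} (hX : |X ((n : ℤ) + n' + 2) Q| < 1)
    (hE : Emp ((n : ℤ) + 1) ((n' : ℤ) + 1) (X ((n : ℤ) + n' + 2) Q)) (t : ℤ)
    (ht1 : (n : ℤ) + 1 ≤ t) (ht2 : t ≤ (n' : ℤ) + 1) :
    fl t + fl ((n : ℤ) + n' + 2 - t) = Q - 1 := by
  set N : ℤ := (n : ℤ) + n' + 2 with hN
  set D : ℝ := X N Q with hD
  obtain ⟨hX1, hX2⟩ := abs_lt.1 hX
  have hfr := fract_add t N Q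
  rw [← hD] at hfr
  set j : ℤ := Q - (fl t + fl (N - t)) with hj
  have ht0 : t ≠ 0 := by omega
  have hs0 : N - t ≠ 0 := by omega
  have p1 := fr_pos ht0
  have p2 := fr_pos hs0
  have l1 := fr_lt t
  have l2 := fr_lt (N - t)
  set f : ℝ := (t : ℝ) * al - fl t with hf
  set g : ℝ := ((N - t : ℤ) : ℝ) * al - fl (N - t) with hg
  have E1 := hE t (fl t) ht1 ht2
  have E2 := hE (N - t) (fl (N - t)) (by omega) (by omega)
  have E3 := hE t (fl t + 1) ht1 ht2
  have E4 := hE (N - t) (fl (N - t) + 1) (by omega) (by omega)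
  have x1 : X t (fl t) = f := rfl
  have x2 : X (N - t) (fl (N - t)) = g := rfl
  have x3 : X t (fl t + 1) = f - 1 := by rw [hf]; unfold X; push_cast; ring
  have x4 : X (N - t) (fl (N - t) + 1) = g - 1 := by rw [hg]; unfold X; push_cast; ring
  rw [x1] at E1
  rw [x2] at E2
  rw [x3] at E3
  rw [x4] at E4
  have hj1 : j = 1 := by
    by_contra hne
    rcases lt_or_ge j 1 with hlt | hge
    · have hj0 : (j : ℝ) ≤ 0 := by
        have : j ≤ 0 := by omega
        exact_mod_cast this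
      rcases lt_trichotomy D 0 with h | h | h
      · linarith
      · linarith
      · have : D ≤ f := by
          by_contra hc
          exact E1.1 ⟨p1, not_le.1 hc⟩
        linarith
    · have hj0 : (2 : ℝ) ≤ j := by
        have : 2 ≤ j := by omega
        exact_mod_cast this
      rcases lt_trichotomy D 0 with h | h | h
      · have : f - 1 ≤ D := by
          by_contra hc
          exact E3.2 ⟨not_le.1 hc, by linarith⟩
        linarith
      · linarith
      · linarith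
  omega

theorem palB (hF : StFloor) : StPalB := by
  intro n n' Q hn hX hE t ht1 ht2
  have hs1 : 1 ≤ n + n' + 1 - t := by omega
  rw [fw_eq_iff hF (by omega) hs1]
  have e1 : ((n + n' + 1 - t : ℕ) : ℤ) = (n : ℤ) + n' + 2 - ((t : ℤ) + 1) := by
    rw [Nat.cast_sub (by omega)]; push_cast; ring
  have a1 := sum_of_emp hX hE t (by omega) (by omega)
  have a2 := sum_of_emp hX hE ((t : ℤ) + 1) (by omega) (by omega)
  rw [e1]
  have e2 : (n : ℤ) + n' + 2 - ((t : ℤ) + 1) + 1 = (n : ℤ) + n' + 2 - t := by ring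
  rw [e2]
  omega

end P12_9

/-- P1 -/
theorem stPalF_9 (hF : StFloor) : StPalF := P12_9.palF hF

/-- P2 -/
theorem stPalB_9 (hF : StFloor) : StPalB := P12_9.palB hF

end Pool.Agent.Lib.MP_f91ac8_co.FQ
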