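import Pool.Agent.Lib.MP_f91ac8_co.FQ.Stmts45

set_option autoImplicit false

/-! Row R1: bounded linear recurrent sequences of one integer matrix are eventually periodic,
with one period for all the row vectors. -/

namespace Pool.Agent.Lib.MP_f91ac8_co.FQ

namespace R1_46

open Matrix

lemma dot_shift {r : ℕ} (x : Fin r → ℤ) (N : Matrix (Fin r) (Fin r) ℤ) (gam : Fin r → ℤ)
    (l i : ℕ) : dotProduct (x ᵥ* (N ^ l)) ((N ^ i).mulVec gam) =
      dotProduct x ((N ^ (i + l)).mulVec gam) := by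
  rw [← Matrix.dotProduct_mulVec, Matrix.mulVec_mulVec, ← pow_add, add_comm l i]

end R1_46

open R1_46 in
theorem stReg_46 : StReg := by
  intro r v N gam hb
  set g : ℕ × ℕ → (Fin r → ℤ) := fun q => Matrix.vecMul (v q.1) (N ^ q.2) with hg
  have hfg : (Submodule.span ℤ (Set.range g)).FG := IsNoetherian.noetherian _
  obtain ⟨t, ht, hspan⟩ := (Submodule.fg_span_iff_fg_span_finset_subset _).1 hfg
  have hC : ∀ x : {x // x ∈ t}, ∃ C : ℤ, ∀ i : ℕ,
      |dotProduct x.1 ((N ^ i).mulVec gam)| ≤ C := by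
    rintro ⟨x, hx⟩
    obtain ⟨⟨k, l⟩, rfl⟩ := ht hx
    obtain ⟨C, hC⟩ := hb k
    refine ⟨C, fun i => ?_⟩
    have := hC (i + l)
    rwa [← dot_shift] at this
  choose C hC using hC
  let f : ℕ → (∀ x : {x // x ∈ t}, Set.Icc (-C x) (C x)) := fun i x =>
    ⟨dotProduct x.1 ((N ^ i).mulVec gam), abs_le.1 (hC x i)⟩
  obtain ⟨i, j, hij, hf⟩ := Finite.exists_ne_map_eq_of_infinite f
  have key : ∀ a b : ℕ, f a = f b → ∀ y ∈ Submodule.span ℤ (Set.range g),
      dotProduct y ((N ^ a).mulVec gam) = dotProduct y ((N ^ b).mulVec gam) := by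
    intro a b hab y hy
    rw [hspan] at hy
    induction hy using Submodule.span_induction with
    | mem x hx =>
      have := congrFun hab ⟨x, hx⟩
      exact congrArg Subtype.val this
    | zero => simp
    | add x y _ _ hx hy => rw [add_dotProduct, add_dotProduct, hx, hy]
    | smul c x _ hx => rw [smul_dotProduct, smul_dotProduct, hx]
  have fin : ∀ a b : ℕ, a < b → f a = f b → ∃ i0 p : ℕ, 0 < p ∧ ∀ k l : ℕ,
      dotProduct (v k) ((N ^ (i0 + l)).mulVec gam) =
        dotProduct (v k) ((N ^ (i0 + p + l)).mulVec gam) := by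
    intro a b hab h
    refine ⟨a, b - a, by omega, fun k l => ?_⟩
    have h1 := key a b h (g (k, l)) (Submodule.subset_span ⟨(k, l), rfl⟩)
    rw [hg] at h1
    simp only at h1
    rw [dot_shift, dot_shift] at h1
    rw [h1]
    congr 4
    omega
  rcases lt_or_gt_of_ne hij with h | h
  · exact fin i j h hf
  · exact fin j i h hf.symm

end Pool.Agent.Lib.MP_f91ac8_co.FQ
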