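import Pool.Agent.Lib.MP_f91ac8_co.FQ.Stmts45

set_option autoImplicit false

/-! Rows `StL`, `StC` of the upper bound for the Fibonacci word. -/

namespace Pool.Agent.Lib.MP_f91ac8_co.FQ.H63

open Pool.Agent.Lib.MP_f91ac8_co

theorem th_pos : 0 < th := by
  unfold th
  have h : (1 : ℝ) < Real.sqrt 5 := by
    rw [show (1 : ℝ) = Real.sqrt 1 by simp]
    exact Real.sqrt_lt_sqrt (by norm_num) (by norm_num)
  linarith

theorem th_lt : th < 0.6181 := by
  unfold th
  have h : Real.sqrt 5 < 2.2362 := by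
    rw [show (2.2362 : ℝ) = Real.sqrt (2.2362 ^ 2) by
      rw [Real.sqrt_sq (by norm_num)]]
    exact Real.sqrt_lt_sqrt (by norm_num) (by norm_num)
  linarith

theorem th_le_one : th ≤ 1 := by
  have := th_lt
  linarith

theorem X_sub (d d' p p' : ℤ) : X (d - d') (p - p') = X d p - X d' p' := by
  unfold X
  push_cast
  ring

theorem X_two (H q d p : ℤ) : X (2 * H + d) (2 * q + p) = 2 * X H q + X d p := by
  unfold X
  push_cast
  ring

theorem X_ne (t p : ℤ) (ht : 0 < t) : X t p ≠ 0 := by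
  intro h
  unfold X al at h
  have h5 : Irrational (Real.sqrt 5) := by
    have := Nat.Prime.irrational_sqrt (show Nat.Prime 5 by norm_num)
    simpa using this
  apply h5
  have ht' : (t : ℝ) ≠ 0 := by
    have : (0 : ℝ) < t := by exact_mod_cast ht
    exact ne_of_gt this
  refine ⟨3 - 2 * (p : ℚ) / (t : ℚ), ?_⟩
  push_cast
  field_simp
  linarith

theorem pow_le (a k : ℕ) : th ^ (a + k) ≤ th ^ k :=
  pow_le_pow_of_le_one th_pos.le th_le_one (by omega)

theorem F_pos (k : ℕ) : 0 < F k := by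
  unfold F
  exact Nat.fib_pos.mpr (by omega)

theorem F_add (k : ℕ) : F (k + 2) = F k + F (k + 1) := by
  unfold F
  exact Nat.fib_add_two

end Pool.Agent.Lib.MP_f91ac8_co.FQ.H63

namespace Pool.Agent.Lib.MP_f91ac8_co.FQ

open Pool.Agent.Lib.MP_f91ac8_co H63

theorem stL_63 (hPB : StPalB) (hBA : StBA) (hX : StX) : StL := by
  intro a H q g n n' ha h0 h1 hg hH hn hn' hnn
  have hsum : (n : ℤ) + n' + 2 = 2 * H + (F a : ℤ) := by linarith
  have hXF : X (F a) (Nat.fib a) = th ^ (a + 2) := by
    rw [hX a, ha.neg_one_pow, one_mul]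
  have hD : X ((n : ℤ) + n' + 2) (2 * q + (Nat.fib a : ℤ)) = 2 * X H q + th ^ (a + 2) := by
    rw [hsum, X_two, hXF]
  have hth := th_pos
  have hp2 : 0 < th ^ (a + 2) := pow_pos hth _
  have hp3 : 0 < th ^ (a + 3) := pow_pos hth _
  apply hPB n n' (2 * q + (Nat.fib a : ℤ)) hnn
  · rw [hD, abs_of_pos (by linarith)]
    have e2 := pow_le a 2
    have e3 := pow_le a 3
    have h' := th_lt
    have b2 : th ^ 2 < 0.6181 ^ 2 := pow_lt_pow_left₀ h' hth.le (by norm_num)
    have b3 : th ^ 3 < 0.6181 ^ 3 := pow_lt_pow_left₀ h' hth.le (by norm_num)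
    norm_num at b2 b3
    linarith
  · rw [hD]
    intro t p ht1 ht2
    refine ⟨?_, fun h => by linarith [h.1, h.2]⟩
    rintro ⟨hx0, hxD⟩
    have hF1 : (F a : ℤ) < F (a + 2) := by
      rw [F_add]
      have := F_pos (a + 1)
      push_cast
      omega
    have hF2 : (F a : ℤ) < F (a + 1 + 2) := by
      rw [F_add (a + 1), F_add a]
      have := F_pos (a + 1)
      push_cast
      omega
    have hg' : (1 : ℤ) ≤ g := by exact_mod_cast hg
    have ht'1 : 0 < t - H := by linarith
    have ht'2 : t - H < F a := by linarith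
    have hx' : X (t - H) (p - q) = X t p - X H q := X_sub _ _ _ _
    have hx'' : X ((F a : ℤ) - (t - H)) ((Nat.fib a : ℤ) - (p - q)) =
        th ^ (a + 2) - (X t p - X H q) := by
      rw [X_sub, X_sub, hXF]
    have key : ∀ s r : ℤ, 0 < s → s < F a → - th ^ (a + 3) < X s r → 0 < X s r := by
      intro s r hs hsF hsr
      rcases lt_trichotomy (X s r) 0 with h | h | h
      · exfalso
        have := hBA (a + 1) s r hs (lt_trans hsF hF2) (by
          rw [ha.add_one.neg_one_pow]
          linarith)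
        rw [abs_of_neg h, show a + 1 + 2 = a + 3 from rfl] at this
        linarith
      · exact absurd h (X_ne s r hs)
      · exact h
    have k1 := key _ _ ht'1 ht'2 (by rw [hx']; linarith)
    have k2 := key ((F a : ℤ) - (t - H)) ((Nat.fib a : ℤ) - (p - q)) (by linarith) (by linarith)
      (by rw [hx'']; linarith)
    have k3 := hBA a _ _ ht'1 (lt_trans ht'2 hF1) (by
      rw [ha.neg_one_pow, one_mul]
      exact k1)
    rw [abs_of_pos k1, hx'] at k3
    rw [hx''] at k2
    linarith

theorem stC_63 (hPB : StPalB) (hBA : StBA) (hX : StX) : StC := by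
  intro l H q g n n' h0 h1 hg hgF hn hn'
  have hodd : Odd (2 * l + 1) := odd_two_mul_add_one l
  have hFp : (0 : ℤ) < F (2 * l + 1) := by exact_mod_cast F_pos (2 * l + 1)
  have hsum : (n : ℤ) + n' + 2 = 2 * H + (F (2 * l + 1) : ℤ) := by linarith
  have hXF : X (F (2 * l + 1)) (Nat.fib (2 * l + 1)) = - th ^ (2 * l + 3) := by
    rw [hX (2 * l + 1), hodd.neg_one_pow]
    ring
  have hD : X ((n : ℤ) + n' + 2) (2 * q + (Nat.fib (2 * l + 1) : ℤ)) =
      2 * X H q - th ^ (2 * l + 3) := by
    rw [hsum, X_two, hXF]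
    ring
  have hth := th_pos
  have hp3 : 0 < th ^ (2 * l + 3) := pow_pos hth _
  have hg' : (1 : ℤ) ≤ g := by exact_mod_cast hg
  have hnn : n < n' := by
    have : (n : ℤ) < n' := by linarith
    exact_mod_cast this
  apply hPB n n' (2 * q + (Nat.fib (2 * l + 1) : ℤ)) hnn
  · rw [hD, abs_of_nonpos (by linarith)]
    have e3 := pow_le (2 * l) 3
    have h' := th_lt
    have b3 : th ^ 3 < 0.6181 ^ 3 := pow_lt_pow_left₀ h' hth.le (by norm_num)
    norm_num at b3
    linarith
  · rw [hD]
    intro t p ht1 ht2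
    refine ⟨fun h => by linarith [h.1, h.2], ?_⟩
    rintro ⟨hxD, hx0⟩
    have hgF' : (g : ℤ) < F (2 * l + 2) := by exact_mod_cast hgF
    have hF3 : (F (2 * l + 1 + 2) : ℤ) = F (2 * l + 1) + F (2 * l + 2) := by
      rw [F_add (2 * l + 1)]
      push_cast
      rfl
    have hx' : X (t - H) (p - q) = X t p - X H q := X_sub _ _ _ _
    have hx'' : X ((F (2 * l + 1) : ℤ) - (t - H)) ((Nat.fib (2 * l + 1) : ℤ) - (p - q)) =
        - th ^ (2 * l + 3) - (X t p - X H q) := by
      rw [X_sub, X_sub, hXF]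
    have key : ∀ s r : ℤ, 0 < s → s < F (2 * l + 1 + 2) → X s r < 0 →
        X s r ≤ - th ^ (2 * l + 3) := by
      intro s r hs hsF hsr
      have := hBA (2 * l + 1) s r hs hsF (by
        rw [hodd.neg_one_pow]
        linarith)
      rw [abs_of_neg hsr, show 2 * l + 1 + 2 = 2 * l + 3 from rfl] at this
      linarith
    rcases lt_or_ge 0 (t - H) with h | h
    · have := key _ (p - q) h (by rw [hF3]; linarith) (by rw [hx']; linarith)
      rw [hx'] at this
      linarith
    · have := key ((F (2 * l + 1) : ℤ) - (t - H)) ((Nat.fib (2 * l + 1) : ℤ) - (p - q))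
        (by linarith) (by rw [hF3]; linarith) (by rw [hx'']; linarith)
      rw [hx''] at this
      linarith

end Pool.Agent.Lib.MP_f91ac8_co.FQ
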