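import Pool.Agent.Lib.MP_f91ac8_co.FQ.Stmts45

set_option autoImplicit false

namespace Pool.Agent.Lib.MP_f91ac8_co.FQ

open Finset

namespace U34h73

theorem th_pos : 0 < th := by
  unfold th
  have : (1 : ℝ) < Real.sqrt 5 := by
    rw [show (1 : ℝ) = Real.sqrt 1 by simp]
    exact Real.sqrt_lt_sqrt (by norm_num) (by norm_num)
  linarith

theorem th_le : th ≤ 5 / 8 := by
  unfold th
  have : Real.sqrt 5 ≤ 9 / 4 := by
    rw [Real.sqrt_le_left (by norm_num)]
    norm_num
  linarith

theorem th_sq : th ^ 2 = 1 - th := by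
  unfold th
  have h := Real.sq_sqrt (show (0 : ℝ) ≤ 5 by norm_num)
  ring_nf
  rw [h]
  ring

theorem th_cube : th ^ 3 ≤ 1 / 4 := by
  have h : th ^ 3 = th * th ^ 2 := by ring
  rw [h, th_sq]
  have h2 : th * (1 - th) = th - th ^ 2 := by ring
  rw [h2, th_sq]
  linarith [th_le]

theorem pow_add3 (n : ℕ) : 4 * th ^ (n + 3) ≤ th ^ n := by
  rw [pow_add]
  have h1 := th_cube
  have h2 : 0 < th ^ n := pow_pos th_pos n
  nlinarith

theorem pow_anti {m n : ℕ} (h : m ≤ n) : th ^ n ≤ th ^ m :=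
  pow_le_pow_of_le_one th_pos.le (by linarith [th_le]) h

/-- tail sums of the weights -/
def Ps (a : ℕ → ℕ) (k i : ℕ) : ℕ := ∑ j ∈ Ico i k, F (a j)

/-- tail sums of the second coordinates -/
def Qs (a : ℕ → ℕ) (k i : ℕ) : ℕ := ∑ j ∈ Ico i k, Nat.fib (a j)

theorem X_Ps (hX : StX) (a : ℕ → ℕ) (k i : ℕ) (hev : ∀ i, Even (a i)) :
    X (Ps a k i) (Qs a k i) = ∑ j ∈ Ico i k, th ^ (a j + 2) := by
  have : ∀ s : Finset ℕ, X ((∑ j ∈ s, F (a j) : ℕ) : ℤ) ((∑ j ∈ s, Nat.fib (a j) : ℕ) : ℤ) =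
      ∑ j ∈ s, th ^ (a j + 2) := by
    intro s
    induction s using Finset.induction_on with
    | empty => simp [X]
    | insert x s hx ih =>
      rw [Finset.sum_insert hx, Finset.sum_insert hx, Finset.sum_insert hx, ← ih]
      have h := hX (a x)
      rw [(hev x).neg_one_pow, one_mul] at h
      rw [← h]
      unfold X
      push_cast
      ring
  exact this _

theorem Ps_succ (a : ℕ → ℕ) {k i : ℕ} (h : i < k) : Ps a k i = F (a i) + Ps a k (i + 1) := by
  unfold Ps
  rw [Finset.sum_eq_sum_Ico_succ_bot h]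

theorem sum_nonneg' (a : ℕ → ℕ) (k i : ℕ) : 0 ≤ ∑ j ∈ Ico i k, th ^ (a j + 2) :=
  Finset.sum_nonneg fun _ _ => (pow_pos th_pos _).le

theorem sum_le' (a : ℕ → ℕ) (hgap : ∀ i, a i + 4 ≤ a (i + 1)) (k : ℕ) :
    ∀ d i : ℕ, i + d = k → ∑ j ∈ Ico i k, th ^ (a j + 2) ≤ 2 * th ^ (a i + 2) := by
  intro d
  induction d with
  | zero =>
    intro i hi
    rw [show i = k by omega, Finset.Ico_self, Finset.sum_empty]
    exact mul_nonneg (by norm_num) (pow_pos th_pos _).le
  | succ d ih =>
    intro i hi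
    rw [Finset.sum_eq_sum_Ico_succ_bot (by omega)]
    have h1 := ih (i + 1) (by omega)
    have h2 : th ^ (a (i + 1) + 2) ≤ th ^ (a i + 2 + 3) := pow_anti (by have := hgap i; omega)
    have h3 := pow_add3 (a i + 2)
    have h4 : 0 < th ^ (a i + 2) := pow_pos th_pos _
    linarith

theorem X_bounds (hX : StX) (a : ℕ → ℕ) (hev : ∀ i, Even (a i)) (hgap : ∀ i, a i + 4 ≤ a (i + 1))
    {k i : ℕ} (h : i ≤ k) : 0 ≤ X (Ps a k i) (Qs a k i) ∧
      X (Ps a k i) (Qs a k i) ≤ 2 * th ^ (a i + 2) := by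
  rw [X_Ps hX a k i hev]
  exact ⟨sum_nonneg' a k i, sum_le' a hgap k (k - i) i (by omega)⟩

theorem F_succ (n : ℕ) : F (n + 2) = F (n + 1) + F n := by
  unfold F
  rw [show n + 2 + 2 = (n + 2) + 2 from rfl, Nat.fib_add_two (n := n + 2)]
  rw [show n + 2 + 1 = n + 1 + 2 from rfl]
  ring

theorem F_pos (n : ℕ) : 0 < F n := Nat.fib_pos.2 (by omega)

theorem F_mono {m n : ℕ} (h : m ≤ n) : F m ≤ F n := Nat.fib_mono (by omega)

theorem pal_three : Pal fw 0 3 := by
  intro t h1 h2
  interval_cases t <;> rfl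

/-- invariants of the upper bound -/
theorem up_step (hX : StX) (hL : StL) (hC : StC) (k : ℕ) (a : ℕ → ℕ)
    (hev : ∀ i, Even (a i)) (h0 : a 0 = 2 * k) (hgap : ∀ i, a i + 4 ≤ a (i + 1)) :
    ∀ l : ℕ, 1 ≤ l → l ≤ k → Path fw (2 * l - 1) (Ps a k (k - l + 1) + F (2 * l)) := by
  have hai : ∀ i, 2 * k + 4 * i ≤ a i := by
    intro i
    induction i with
    | zero => omega
    | succ i ih => have := hgap i; omega
  intro l hl
  induction l, hl using Nat.le_induction with
  | base =>
    intro hk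
    have h1 : Ps a k (k - 1 + 1) = 0 := by
      rw [Nat.sub_add_cancel hk]
      simp [Ps]
    rw [h1]
    have : F (2 * 1) = 3 := by decide
    rw [this]
    exact Path.step Path.zero (by norm_num) pal_three
  | succ l hl ih =>
    intro hk
    have ihl := ih (by omega)
    obtain ⟨i, hi⟩ : ∃ i, i = k - l := ⟨_, rfl⟩
    have hi1 : 1 ≤ i := by omega
    rw [← hi] at ihl
    rw [show k - (l + 1) + 1 = i by omega]
    have hPi : Ps a k i = F (a i) + Ps a k (i + 1) := Ps_succ a (by omega)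
    have hb1 := X_bounds hX a hev hgap (k := k) (i := i + 1) (by omega)
    have hb0 := X_bounds hX a hev hgap (k := k) (i := i) (by omega)
    have hl2 : F (2 * l + 2) = F (2 * l + 1) + F (2 * l) := F_succ _
    have hl1 : 2 ≤ F (2 * l + 1) := by
      have : F 1 ≤ F (2 * l + 1) := F_mono (by omega)
      have h1 : F 1 = 2 := by decide
      omega
    have hFl := F_pos (2 * l)
    have hbig : 2 * F (2 * l + 2) ≤ F (a i) := by
      have h1 : F (2 * l + 4) ≤ F (a i) := F_mono (by have := hai i; omega)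
      have h2 : F (2 * l + 4) = F (2 * l + 3) + F (2 * l + 2) := F_succ _
      have h3 : F (2 * l + 2) ≤ F (2 * l + 3) := F_mono (by omega)
      omega
    -- the first step
    have hp1 : Pal fw (Ps a k (i + 1) + F (2 * l)) (Ps a k i - F (2 * l) - 2) := by
      refine hL (a i) (Ps a k (i + 1)) (Qs a k (i + 1)) (F (2 * l) + 1) _ _ (hev i) hb1.1 ?_
        (by omega) (by positivity) (by push_cast; ring) ?_ (by omega)
      · refine hb1.2.trans ?_
        have h2 : th ^ (a (i + 1) + 2) ≤ th ^ (a i + 3 + 3) := pow_anti (by have := hgap i; omega)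
        have h3 := pow_add3 (a i + 3)
        have h4 : 0 < th ^ (a i + 3 + 3) := pow_pos th_pos _
        linarith
      · rw [hPi]
        have : F (2 * l) + 2 ≤ F (a i) + Ps a k (i + 1) := by omega
        push_cast [Nat.sub_sub, Nat.cast_sub this]
        ring
    have hp2 : Pal fw (Ps a k i - F (2 * l) - 2) (Ps a k i + F (2 * (l + 1))) := by
      refine hC l (Ps a k i) (Qs a k i) (F (2 * l) + 1) _ _ hb0.1 ?_ (by omega) (by omega) ?_ ?_
      · have h2 : th ^ (a i + 2) ≤ th ^ (2 * l + 3 + 3) := pow_anti (by have := hai i; omega)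
        have h3 := pow_add3 (2 * l + 3)
        have h4 := hb0.2
        linarith
      · have : F (2 * l) + 2 ≤ Ps a k i := by omega
        push_cast [Nat.sub_sub, Nat.cast_sub this]
        ring
      · rw [show 2 * (l + 1) = 2 * l + 2 by ring, hl2]
        push_cast
        ring
    have h1 := Path.step ihl (by omega) hp1
    have h2 := Path.step h1 (by omega) hp2
    rw [show 2 * (l + 1) - 1 = 2 * l - 1 + 1 + 1 by omega]
    exact h2

theorem pal_one (n : ℕ) : Pal fw n (n + 1) := by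
  intro t h1 h2
  congr 1; omega

theorem bd_step (hX : StX) (hL : StL) (k : ℕ) (a : ℕ → ℕ)
    (hev : ∀ i, Even (a i)) (hgap : ∀ i, a i + 4 ≤ a (i + 1)) :
    ∀ d : ℕ, d ≤ k → ∃ s, s ≤ 3 * d ∧ Path fw s (Ps a k (k - d)) := by
  intro d
  induction d with
  | zero =>
    intro _
    refine ⟨0, le_rfl, ?_⟩
    have : Ps a k (k - 0) = 0 := by simp [Ps]
    rw [this]
    exact Path.zero
  | succ d ih =>
    intro hd
    obtain ⟨s, hs, hp⟩ := ih (by omega)
    obtain ⟨i, hi⟩ : ∃ i, i = k - (d + 1) := ⟨_, rfl⟩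
    rw [show k - d = i + 1 by omega] at hp
    rw [← hi]
    have hPi : Ps a k i = F (a i) + Ps a k (i + 1) := Ps_succ a (by omega)
    by_cases h0 : a i = 0
    · refine ⟨s + 1, by omega, ?_⟩
      have : F (a i) = 1 := by rw [h0]; decide
      rw [hPi, this, Nat.add_comm 1]
      exact Path.step hp (by omega) (pal_one _)
    · have h2 : 2 ≤ a i := by
        obtain ⟨c, hc⟩ := hev i
        omega
      have h3 : 3 ≤ F (a i) := by
        have h := F_mono h2
        have : F 2 = 3 := by decide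
        omega
      have hb1 := X_bounds hX a hev hgap (k := k) (i := i + 1) (by omega)
      refine ⟨s + 3, by omega, ?_⟩
      have hp1 : Pal fw (Ps a k (i + 1)) (Ps a k (i + 1) + F (a i) - 2) := by
        refine hL (a i) (Ps a k (i + 1)) (Qs a k (i + 1)) 1 _ _ (hev i) hb1.1 ?_
          (by omega) (by positivity) (by push_cast; ring) ?_ (by omega)
        · refine hb1.2.trans ?_
          have h2 : th ^ (a (i + 1) + 2) ≤ th ^ (a i + 3 + 3) :=
            pow_anti (by have := hgap i; omega)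
          have h3 := pow_add3 (a i + 3)
          have h4 : 0 < th ^ (a i + 3 + 3) := pow_pos th_pos _
          linarith
        · have : 2 ≤ Ps a k (i + 1) + F (a i) := by omega
          push_cast [Nat.cast_sub this]
          ring
      have e1 := Path.step hp (by omega) hp1
      have e2 := Path.step e1 (Nat.lt_succ_self _) (pal_one _)
      have e3 := Path.step e2 (Nat.lt_succ_self _) (pal_one _)
      rw [hPi, show F (a i) + Ps a k (i + 1) = Ps a k (i + 1) + F (a i) - 2 + 1 + 1 by omega]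
      exact e3

end U34h73

open U34h73

/-- U3 -/
theorem stUp_73 (hX : StX) (hL : StL) (hC : StC) : StUp := by
  intro k a hk hev h0 hgap
  have h := up_step hX hL hC k a hev h0 hgap k hk le_rfl
  rw [Nat.sub_self, Nat.zero_add] at h
  have h1 : ∑ i ∈ range k, F (a i) = Ps a k 1 + F (2 * k) := by
    rw [range_eq_Ico, ← h0, Nat.add_comm, ← Ps_succ a (by omega)]
    rfl
  rw [h1]
  exact PPL_le fw h

/-- U4 -/
theorem stBd_73 (hX : StX) (hL : StL) : StBd := by
  intro k a hev hgap
  obtain ⟨s, hs, hp⟩ := bd_step hX hL k a hev hgap k le_rfl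
  rw [Nat.sub_self] at hp
  have h1 : ∑ i ∈ range k, F (a i) = Ps a k 0 := by
    rw [range_eq_Ico]
    rfl
  rw [h1]
  exact (PPL_le fw hp).trans hs

end Pool.Agent.Lib.MP_f91ac8_co.FQ
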