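import Pool.Agent.Lib.MP_f91ac8_co.FQ.Stmts45

set_option autoImplicit false

/-! Rows W1, W2: the Fibonacci words are prefixes of one another. -/

namespace Pool.Agent.Lib.MP_f91ac8_co.FQ.W26

theorem mor_append (u v : List Bool) : mor (u ++ v) = mor u ++ mor v := by
  simp [mor, List.flatMap_append]

theorem sw_rec (k : ℕ) : sw (k + 2) = sw (k + 1) ++ sw k := by
  induction k with
  | zero => rfl
  | succ k ih =>
    show mor (sw (k + 2)) = mor (sw (k + 1)) ++ mor (sw k)
    rw [ih, mor_append]

theorem sw_length : ∀ k : ℕ, (sw k).length = F k ∧ (sw (k + 1)).length = F (k + 1) := by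
  intro k
  induction k with
  | zero => exact ⟨rfl, rfl⟩
  | succ k ih =>
    refine ⟨ih.2, ?_⟩
    rw [sw_rec, List.length_append, ih.1, ih.2]
    show Nat.fib (k + 1 + 2) + Nat.fib (k + 2) = Nat.fib (k + 2 + 2)
    rw [Nat.fib_add_two (n := k + 2)]
    rw [show k + 2 + 1 = k + 1 + 2 from rfl]
    omega

theorem len (k : ℕ) : (sw k).length = F k := (sw_length k).1

theorem sw_prefix_succ (k : ℕ) : sw k <+: sw (k + 1) := by
  cases k with
  | zero => exact ⟨[true], rfl⟩
  | succ k => exact ⟨sw k, (sw_rec k).symm⟩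

theorem sw_prefix {j k : ℕ} (h : j ≤ k) : sw j <+: sw k := by
  induction k, h using Nat.le_induction with
  | base => exact List.prefix_refl _
  | succ k _ ih => exact ih.trans (sw_prefix_succ k)

theorem lt_F (n : ℕ) : n < F n := by
  induction n with
  | zero => decide
  | succ n ih =>
    have h1 : F n < F (n + 1) := Nat.fib_lt_fib_succ (by omega)
    omega

theorem get_prefix {u v : List Bool} (h : u <+: v) {i : ℕ} (hi : i < u.length) :
    v[i]? = u[i]? := by
  obtain ⟨w, rfl⟩ := h
  rw [List.getElem?_append_left hi]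

theorem get_sw {k t : ℕ} (h1 : 1 ≤ t) (h2 : t ≤ F k) : (sw k)[t - 1]? = some (fw t) := by
  have h3 : (sw t)[t - 1]? = some (fw t) := by
    have hl : t - 1 < (sw t).length := by
      rw [len]; have := lt_F t; omega
    unfold fw
    rw [List.getD_eq_getElem?_getD, List.getElem?_eq_getElem hl]
    rfl
  rcases le_total k t with h | h
  · rw [← h3]
    exact (get_prefix (sw_prefix h) (by rw [len]; omega)).symm
  · rw [← h3]
    refine get_prefix (sw_prefix h) ?_
    rw [len]; have := lt_F t; omega

theorem stPref_26 : StPref := by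
  intro k
  refine ⟨len k, ?_⟩
  apply List.ext_getElem?
  intro i
  by_cases hi : i < F k
  · have h := get_sw (k := k) (t := i + 1) (by omega) (by omega)
    rw [Nat.add_sub_cancel] at h
    rw [h]
    simp [pref, hi]
  · rw [List.getElem?_eq_none (by rw [pref_length]; omega),
      List.getElem?_eq_none (by rw [len]; omega)]

theorem stRec_26 : StRec := by
  intro k t hk h1 h2
  obtain ⟨j, rfl⟩ : ∃ j, k = j + 1 := ⟨k - 1, by omega⟩
  have h2 : t ≤ F (j + 2) := h2
  have e1 := get_sw (k := j + 2) (t := t) (by omega) h2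
  have hF : F (j + 2) = F (j + 1) + F j := by
    rw [← len, ← len, ← len, sw_rec, List.length_append]
  have e2 := get_sw (k := j) (t := t - F (j + 1)) (by omega) (by omega)
  rw [sw_rec, List.getElem?_append_right (by rw [len]; omega), len,
    show t - 1 - F (j + 1) = t - F (j + 1) - 1 by omega, e2] at e1
  exact (Option.some.inj e1).symm

end Pool.Agent.Lib.MP_f91ac8_co.FQ.W26

namespace Pool.Agent.Lib.MP_f91ac8_co.FQ

theorem stPref_26 : StPref := W26.stPref_26
theorem stRec_26 : StRec := W26.stRec_26

end Pool.Agent.Lib.MP_f91ac8_co.FQ
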