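import Pool.Agent.Lib.MP_f91ac8_co.FQ.Stmts45

set_option autoImplicit false

/-! W3: the Sturmian coding of the Fibonacci word. -/

namespace Pool.Agent.Lib.MP_f91ac8_co.FQ

namespace W3x50

theorem sqrt_lo : (2 : ℝ) < Real.sqrt 5 := by
  rw [show (2 : ℝ) = Real.sqrt 4 by
    rw [show (4 : ℝ) = 2 ^ 2 by norm_num]
    exact (Real.sqrt_sq (by norm_num)).symm]
  exact Real.sqrt_lt_sqrt (by norm_num) (by norm_num)

theorem sqrt_hi : Real.sqrt 5 < 7 / 3 := by
  rw [show (7 / 3 : ℝ) = Real.sqrt ((7 / 3) ^ 2) from (Real.sqrt_sq (by norm_num)).symm]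
  exact Real.sqrt_lt_sqrt (by norm_num) (by norm_num)

theorem th_pos : 0 < th := by
  have := sqrt_lo
  unfold th
  linarith

theorem th_lt : th < 1 := by
  have := sqrt_hi
  unfold th
  linarith

theorem al_ne (s : ℕ) (hs : 1 ≤ s) (p : ℤ) : (s : ℝ) * al ≠ (p : ℝ) := by
  intro h
  have hir : Irrational (Real.sqrt 5) := by
    have := Nat.Prime.irrational_sqrt (show Nat.Prime 5 by norm_num)
    simpa using this
  apply hir
  have hs0 : (s : ℝ) ≠ 0 := by
    have : (0 : ℝ) < s := by exact_mod_cast hs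
    exact this.ne'
  refine ⟨3 - 2 * (p : ℚ) / (s : ℚ), ?_⟩
  push_cast
  unfold al at h
  field_simp
  linarith

theorem fib_step (k : ℕ) : F (k + 2) = F (k + 1) + F k := by
  unfold F
  rw [Nat.fib_add_two (n := k + 2)]
  ring

theorem F_pos (k : ℕ) : 1 ≤ F k := by
  unfold F
  exact Nat.fib_pos.2 (by omega)

theorem F_two (k : ℕ) (hk : 1 ≤ k) : 2 ≤ F k := by
  obtain ⟨j, rfl⟩ : ∃ j, k = j + 1 := ⟨k - 1, by omega⟩
  clear hk
  induction j with
  | zero => decide
  | succ j ih =>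
    rw [fib_step]
    omega

theorem exists_k (t : ℕ) (ht : 3 ≤ t) : ∃ k, 1 ≤ k ∧ F k < t ∧ t ≤ F (k + 1) := by
  induction t, ht using Nat.le_induction with
  | base => exact ⟨1, le_rfl, by decide, by decide⟩
  | succ t ht ih =>
    obtain ⟨k, h1, h2, h3⟩ := ih
    by_cases h : t + 1 ≤ F (k + 1)
    · exact ⟨k, h1, by omega, h⟩
    · refine ⟨k + 1, by omega, by omega, ?_⟩
      have h4 : F (k + 1 + 1) = F (k + 1) + F k := fib_step k
      have h5 := F_pos k
      omega

/-- the floors of `s al` and `(s + F k) al` -/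
theorem shift (hX : StX) (hB : StBA) (k s : ℕ) (hk : 1 ≤ k) (hs : 1 ≤ s) (hs' : s < F (k + 1)) :
    ⌊((s + F k : ℕ) : ℝ) * al⌋ = (Nat.fib k : ℤ) + ⌊(s : ℝ) * al⌋ := by
  obtain ⟨j, rfl⟩ : ∃ j, k = j + 1 := ⟨k - 1, by omega⟩
  have hx := hX (j + 1)
  unfold X at hx
  push_cast at hx
  have h1 := Int.floor_le ((s : ℝ) * al)
  have h2 := Int.lt_floor_add_one ((s : ℝ) * al)
  have h3 := al_ne s hs ⌊(s : ℝ) * al⌋
  have hp1 : 0 < th ^ (j + 2) := pow_pos th_pos _
  have hp2 : th ^ (j + 1 + 2) < th ^ (j + 2) := by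
    rw [show j + 1 + 2 = (j + 2) + 1 by ring, pow_succ]
    have := th_lt
    nlinarith
  have hp3 : 0 < th ^ (j + 1 + 2) := pow_pos th_pos _
  have hsz : (0 : ℤ) < (s : ℤ) := by exact_mod_cast hs
  have hsz' : (s : ℤ) < F (j + 2) := by exact_mod_cast hs'
  rw [Int.floor_eq_iff]
  push_cast
  rcases Nat.even_or_odd j with hj | hj
  · -- `k` odd
    have e1 : (-1 : ℝ) ^ j = 1 := hj.neg_one_pow
    have e2 : (-1 : ℝ) ^ (j + 1) = -1 := by rw [pow_succ, e1]; ring
    rw [e2] at hx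
    have h4 : (⌊(s : ℝ) * al⌋ : ℝ) < (s : ℝ) * al := lt_of_le_of_ne h1 (Ne.symm h3)
    have h5 := hB j s ⌊(s : ℝ) * al⌋ hsz hsz' (by
      rw [e1]
      unfold X
      push_cast
      linarith)
    have h6 : |X (s : ℤ) ⌊(s : ℝ) * al⌋| = (s : ℝ) * al - ⌊(s : ℝ) * al⌋ := by
      unfold X
      push_cast
      rw [abs_of_pos (by linarith)]
    rw [h6] at h5
    constructor
    · linarith
    · linarith
  · -- `k` even
    have e1 : (-1 : ℝ) ^ j = -1 := hj.neg_one_pow
    have e2 : (-1 : ℝ) ^ (j + 1) = 1 := by rw [pow_succ, e1]; ring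
    rw [e2] at hx
    have h5 := hB j s (⌊(s : ℝ) * al⌋ + 1) hsz hsz' (by
      rw [e1]
      unfold X
      push_cast
      linarith)
    have h6 : |X (s : ℤ) (⌊(s : ℝ) * al⌋ + 1)| = ⌊(s : ℝ) * al⌋ + 1 - (s : ℝ) * al := by
      unfold X
      push_cast
      rw [abs_of_neg (by linarith)]
      ring
    rw [h6] at h5
    constructor
    · linarith
    · linarith

theorem base1 : fw 1 = true ↔ ⌊(((1 : ℕ) : ℝ) + 1) * al⌋ = ⌊((1 : ℕ) : ℝ) * al⌋ + 1 := by
  have h1 := sqrt_lo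
  have h2 := sqrt_hi
  have e1 : ⌊(((1 : ℕ) : ℝ) + 1) * al⌋ = 0 := by
    rw [Int.floor_eq_iff]
    unfold al
    push_cast
    constructor <;> linarith
  have e2 : ⌊((1 : ℕ) : ℝ) * al⌋ = 0 := by
    rw [Int.floor_eq_iff]
    unfold al
    push_cast
    constructor <;> linarith
  rw [e1, e2]
  have e3 : fw 1 = false := by decide
  rw [e3]
  norm_num

theorem base2 : fw 2 = true ↔ ⌊(((2 : ℕ) : ℝ) + 1) * al⌋ = ⌊((2 : ℕ) : ℝ) * al⌋ + 1 := by
  have h1 := sqrt_lo
  have h2 := sqrt_hi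
  have e1 : ⌊(((2 : ℕ) : ℝ) + 1) * al⌋ = 1 := by
    rw [Int.floor_eq_iff]
    unfold al
    push_cast
    constructor <;> linarith
  have e2 : ⌊((2 : ℕ) : ℝ) * al⌋ = 0 := by
    rw [Int.floor_eq_iff]
    unfold al
    push_cast
    constructor <;> linarith
  rw [e1, e2]
  have e3 : fw 2 = true := by decide
  rw [e3]
  norm_num

end W3x50

open W3x50 in
/-- W3 -/
theorem stFloor_50 (hR : StRec) (hX : StX) (hB : StBA) : StFloor := by
  intro t
  induction t using Nat.strong_induction_on with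
  | _ t ih =>
    intro ht
    by_cases h3 : 3 ≤ t
    · obtain ⟨k, hk, h1, h2⟩ := exists_k t h3
      obtain ⟨s, rfl⟩ : ∃ s, t = s + F k := ⟨t - F k, by omega⟩
      have hs : 1 ≤ s := by omega
      have hF := F_two k hk
      have hstep : F (k + 1) = F k + F (k - 1) := by
        obtain ⟨j, rfl⟩ : ∃ j, k = j + 1 := ⟨k - 1, by omega⟩
        exact fib_step j
      have a1 := shift hX hB k s hk hs (by omega)
      have a2 := shift hX hB k (s + 1) hk (by omega) (by omega)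
      have hr := hR k (s + F k) hk h1 h2
      rw [Nat.add_sub_cancel] at hr
      rw [hr, ih s (by omega) hs]
      have e1 : (((s + F k : ℕ) : ℝ) + 1) = ((s + 1 + F k : ℕ) : ℝ) := by
        push_cast
        ring
      rw [e1, a2, a1]
      push_cast
      constructor
      · intro h
        rw [h]
        ring
      · intro h
        linarith
    · obtain rfl | rfl : t = 1 ∨ t = 2 := by omega
      · exact base1
      · exact base2

end Pool.Agent.Lib.MP_f91ac8_co.FQ
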