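import Pool.Agent.Lib.MP_f91ac8_co.FQ.Stmts45

set_option autoImplicit false

/-! Z1: every natural number has exactly one Zeckendorf word. -/

namespace Pool.Agent.Lib.MP_f91ac8_co.FQ

namespace Z41

/-- no two adjacent ones -/
abbrev Ch (w : List Bool) : Prop := List.IsChain (fun x y => ¬(x = true ∧ y = true)) w

theorem F_add_two (k : ℕ) : F (k + 2) = F k + F (k + 1) := by
  unfold F
  rw [show k + 2 + 2 = (k + 2) + 2 from rfl, Nat.fib_add_two]

theorem F_mono {k l : ℕ} (h : k ≤ l) : F k ≤ F l := Nat.fib_mono (by omega)

theorem ch_tail {c : Bool} {w : List Bool} (h : Ch (c :: w)) : Ch w := by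
  cases w with
  | nil => exact List.isChain_nil
  | cons d u => exact (List.isChain_cons_cons.1 h).2

theorem ch_head {d : Bool} {u : List Bool} (h : Ch (true :: d :: u)) : d = false := by
  have := (List.isChain_cons_cons.1 h).1
  cases d <;> simp_all

theorem val_lt : ∀ (n : ℕ) (w : List Bool), w.length = n → Ch w → val w < F w.length := by
  intro n
  induction n using Nat.strong_induction_on with
  | _ n ih =>
    intro w hn h
    cases w with
    | nil => simp [val, F]
    | cons c w =>
      cases c with
      | false =>
        have hw := ih w.length (by simp at hn; omega) w rfl (ch_tail h)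
        simp only [val, List.length_cons, Bool.false_eq_true, if_false]
        have := F_mono (show w.length ≤ w.length + 1 by omega)
        omega
      | true =>
        cases w with
        | nil => simp [val, F, Nat.fib]
        | cons d u =>
          have hd := ch_head h
          subst hd
          have hu := ih u.length (by simp at hn; omega) u rfl (ch_tail (ch_tail h))
          simp only [val, List.length_cons, Bool.false_eq_true, if_false, if_true, zero_add]
          have h2 : F (u.length + 1 + 1) = F u.length + F (u.length + 1) := F_add_two u.length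
          omega

theorem val_lt' {w : List Bool} (h : Ch w) : val w < F w.length := val_lt _ w rfl h

theorem uniq_len : ∀ (w w' : List Bool), w.length = w'.length → Ch w → Ch w' → val w = val w' →
    w = w' := by
  intro w
  induction w with
  | nil => intro w' hl _ _ _; exact (List.length_eq_zero_iff.1 (by simpa using hl.symm)).symm
  | cons c u ih =>
    intro w' hl h h' hv
    cases w' with
    | nil => simp at hl
    | cons c' u' =>
      have hl' : u.length = u'.length := by simpa using hl
      have h1 := val_lt' (ch_tail h)
      have h2 := val_lt' (ch_tail h')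
      rw [← hl'] at h2
      simp only [val, ← hl'] at hv
      cases c <;> cases c' <;> simp only [Bool.false_eq_true, if_false, if_true] at hv
      · rw [ih u' hl' (ch_tail h) (ch_tail h') (by omega)]
      · omega
      · omega
      · rw [ih u' hl' (ch_tail h) (ch_tail h') (by omega)]

theorem le_val {w : List Bool} (hw : w ≠ []) (h : w.head? ≠ some false) :
    F (w.length - 1) ≤ val w := by
  cases w with
  | nil => exact absurd rfl hw
  | cons c u =>
    cases c with
    | false => simp at h
    | true => simp [val]

theorem len_le {w w' : List Bool} (hw : w.head? ≠ some false) (h' : Ch w')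
    (hv : val w = val w') : w.length ≤ w'.length := by
  by_contra hc
  push Not at hc
  have h0 : w ≠ [] := by rintro rfl; simp at hc
  have h1 := le_val h0 hw
  have h2 := val_lt' h'
  have h3 := F_mono (show w'.length ≤ w.length - 1 by omega)
  omega

theorem ex_len : ∀ (L n : ℕ), n < F L → ∃ w : List Bool, w.length = L ∧ Ch w ∧ val w = n := by
  intro L
  induction L using Nat.strong_induction_on with
  | _ L ih =>
    intro n hn
    match L, ih, hn with
    | 0, _, hn =>
      have : n = 0 := by simp [F] at hn; exact hn
      exact ⟨[], rfl, List.isChain_nil, by simp [val, this]⟩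
    | 1, _, hn =>
      have : n < 2 := by simpa [F, Nat.fib] using hn
      rcases (show n = 0 ∨ n = 1 by omega) with rfl | rfl
      · exact ⟨[false], rfl, List.isChain_singleton _, by simp [val]⟩
      · exact ⟨[true], rfl, List.isChain_singleton _, by simp [val, F]⟩
    | L + 2, ih, hn =>
      by_cases hc : n < F (L + 1)
      · obtain ⟨w, h1, h2, h3⟩ := ih (L + 1) (by omega) n hc
        refine ⟨false :: w, by simp [h1], ?_, by simp [val, h3]⟩
        cases w with
        | nil => exact List.isChain_singleton _
        | cons d u => exact List.isChain_cons_cons.2 ⟨by simp, h2⟩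
      · rw [F_add_two] at hn
        obtain ⟨w, h1, h2, h3⟩ := ih L (by omega) (n - F (L + 1)) (by omega)
        refine ⟨true :: false :: w, by simp [h1], ?_, ?_⟩
        · refine List.isChain_cons_cons.2 ⟨by simp, ?_⟩
          cases w with
          | nil => exact List.isChain_singleton _
          | cons d u => exact List.isChain_cons_cons.2 ⟨by simp, h2⟩
        · simp only [val, List.length_cons, h1, h3, if_true, Bool.false_eq_true, if_false, zero_add]
          omega

theorem strip : ∀ w : List Bool, Ch w → ∃ w', IsZeck w' (val w) := by
  intro w
  induction w with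
  | nil => intro _; exact ⟨[], by simp, List.isChain_nil, rfl⟩
  | cons c u ih =>
    intro h
    cases c with
    | false =>
      obtain ⟨w', hw'⟩ := ih (ch_tail h)
      exact ⟨w', by simpa [val] using hw'⟩
    | true => exact ⟨true :: u, by simp, h, rfl⟩

theorem lt_F (n : ℕ) : n < F n := by
  induction n with
  | zero => simp [F]
  | succ n ih =>
    cases n with
    | zero => simp [F, Nat.fib]
    | succ n =>
      rw [F_add_two]
      have : 0 < F n := Nat.fib_pos.2 (by omega)
      omega

end Z41

open Z41 in
/-- Z1 -/
theorem stZeck_41 : StZeck := by
  intro n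
  obtain ⟨w0, _, h2, h3⟩ := ex_len n n (lt_F n)
  obtain ⟨w, hw⟩ := strip w0 h2
  rw [h3] at hw
  refine ⟨w, hw, ?_⟩
  intro w' hw'
  have e : val w' = val w := by rw [hw.2.2, hw'.2.2]
  exact uniq_len w' w (le_antisymm (len_le hw'.1 hw.2.1 e) (len_le hw.1 hw'.2.1 e.symm))
    hw'.2.1 hw.2.1 e

end Pool.Agent.Lib.MP_f91ac8_co.FQ
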