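import Pool.Agent.Lib.MP_f91ac8_co.FQ.Stmts45

set_option autoImplicit false

namespace Pool.Agent.Lib.MP_f91ac8_co.FQ.Z45

/-- the digit word with `k` ones, the lowest at position `z`, with gaps `g + 1` -/
def W (g z : ℕ) : ℕ → List Bool
  | 0 => []
  | 1 => true :: List.replicate z false
  | k + 2 => true :: (List.replicate g false ++ W g z (k + 1))

theorem W_append (g z : ℕ) : ∀ k, 1 ≤ k → W g z k = W g 0 k ++ List.replicate z false
  | 0, h => by omega
  | 1, _ => by simp [W]
  | k + 2, _ => by
    rw [W, W, W_append g z (k + 1) (by omega)]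
    simp

theorem W_length (g z : ℕ) : ∀ k, (W g z (k + 1)).length = k * (g + 1) + z + 1
  | 0 => by simp [W]
  | k + 1 => by
    rw [W]
    simp only [List.length_cons, List.length_append, List.length_replicate, W_length g z k]
    ring

theorem val_replicate (z : ℕ) (w : List Bool) : val (List.replicate z false ++ w) = val w := by
  induction z with
  | zero => simp
  | succ z ih => rw [List.replicate_succ, List.cons_append, val]; simp [ih]

theorem W_val (g z : ℕ) : ∀ k, val (W g z (k + 1)) = ∑ i ∈ Finset.range (k + 1),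
    F (i * (g + 1) + z)
  | 0 => by
    have h := val_replicate z []
    simp only [List.append_nil] at h
    rw [W, val, h]
    simp [val]
  | k + 1 => by
    rw [W, val, val_replicate, W_val g z k, Finset.sum_range_succ _ (k + 1)]
    simp only [if_true, List.length_append, List.length_replicate, W_length g z k]
    rw [show g + (k * (g + 1) + z + 1) = (k + 1) * (g + 1) + z by ring]
    ring

theorem W_head (g z k : ℕ) : (W g z (k + 1)).head? = some true := by
  rcases k with _ | k <;> simp [W]

theorem chain_rep (z : ℕ) (w : List Bool)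
    (hw : List.IsChain (fun x y => ¬(x = true ∧ y = true)) w) :
    List.IsChain (fun x y => ¬(x = true ∧ y = true)) (List.replicate z false ++ w) := by
  induction z with
  | zero => simpa using hw
  | succ z ih =>
    rw [List.replicate_succ, List.cons_append]
    rw [List.isChain_cons]
    exact ⟨fun y _ h => by simp at h, ih⟩

theorem W_chain (g z : ℕ) (hg : 1 ≤ g) : ∀ k,
    List.IsChain (fun x y => ¬(x = true ∧ y = true)) (W g z (k + 1))
  | 0 => by
    rw [W, List.isChain_cons]
    have h := chain_rep z [] (by simp)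
    simp only [List.append_nil] at h
    refine ⟨fun y hy hh => ?_, h⟩
    rcases z with _ | z
    · simp at hy
    · rw [List.replicate_succ] at hy
      simp at hy
      rw [hy] at hh
      simp at hh
  | k + 1 => by
    rw [W, List.isChain_cons]
    refine ⟨fun y hy hh => ?_, chain_rep g _ (W_chain g z hg k)⟩
    obtain ⟨g', rfl⟩ : ∃ g', g = g' + 1 := ⟨g - 1, by omega⟩
    rw [List.replicate_succ] at hy
    simp at hy
    rw [hy] at hh
    simp at hh

theorem W_zeck (g z k : ℕ) (hg : 1 ≤ g) : IsZeck (W g z (k + 1)) (∑ i ∈ Finset.range (k + 1),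
    F (i * (g + 1) + z)) := by
  refine ⟨?_, W_chain g z hg k, W_val g z k⟩
  rw [W_head]; simp

theorem stFinal_45 (hUp : StUp) (hBd : StBd) (hLow : StLow) (hReg : StReg) : StFinal := by
  rintro ⟨r, _, lam, gam, M0, M1, hf⟩
  choose G hG using hLow
  -- gaps
  let g : ℕ → ℕ := fun k => 2 * G (k + 1) + 3
  let nn : ℕ → ℕ → ℕ := fun k j => ∑ i ∈ Finset.range (k + 1), F (i * (g k + 1) + 2 * j)
  let A : ℕ → Matrix (Fin r) (Fin r) ℤ := fun k =>
    ((W (g k) 0 (k + 1)).map fun c : Bool => if c then M1 else M0).prod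
  let v : ℕ → Fin r → ℤ := fun k => Matrix.vecMul lam (A k)
  have hval : ∀ k j, ((PPL fw (nn k j) : ℕ) : ℤ) = dotProduct (v k) (((M0 ^ 2) ^ j).mulVec gam) := by
    intro k j
    have h1 : ((PPL fw (nn k j) : ℕ) : ℤ) = _ :=
      hf (nn k j) (W (g k) (2 * j) (k + 1)) (W_zeck (g k) (2 * j) k (by
      simp only [g]; omega))
    rw [h1, W_append _ _ _ (by omega), List.map_append, List.prod_append, List.map_replicate,
      List.prod_replicate]
    simp only [Bool.false_eq_true, if_false]
    rw [← pow_mul, ← Matrix.mulVec_mulVec, Matrix.dotProduct_mulVec]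
  have heven : ∀ k j i, Even (i * (g k + 1) + 2 * j) := by
    intro k j i
    refine ⟨i * (G (k + 1) + 2) + j, ?_⟩
    simp only [g]; ring
  have hgap : ∀ k j i, i * (g k + 1) + 2 * j + (2 * G (k + 1) + 4) =
      (i + 1) * (g k + 1) + 2 * j := by
    intro k j i
    simp only [g]; ring
  obtain ⟨i0, p, hp, hper⟩ := hReg r v (M0 ^ 2) gam (by
    intro k
    refine ⟨3 * (k + 1), fun j => ?_⟩
    rw [← hval k j]
    have h := hBd (k + 1) (fun i => i * (g k + 1) + 2 * j) (heven k j) (by
      intro i
      have := hgap k j i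
      show i * (g k + 1) + 2 * j + 4 ≤ (i + 1) * (g k + 1) + 2 * j
      omega)
    rw [abs_of_nonneg (by positivity)]
    exact_mod_cast h)
  have hiter : ∀ q, (PPL fw (nn i0 (i0 + 1 + q * p)) : ℤ) = PPL fw (nn i0 (i0 + 1)) := by
    intro q
    induction q with
    | zero => simp
    | succ q ih =>
      have := hper i0 (1 + q * p)
      rw [← ih, hval, hval, show i0 + 1 + q * p = i0 + (1 + q * p) by ring, this,
        show i0 + 1 + (q + 1) * p = i0 + p + (1 + q * p) by ring]
  have hup := hUp (i0 + 1) (fun i => i * (g i0 + 1) + 2 * (i0 + 1)) (by omega)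
    (heven i0 (i0 + 1)) (by simp) (by
      intro i
      have := hgap i0 (i0 + 1) i
      show i * (g i0 + 1) + 2 * (i0 + 1) + 4 ≤ (i + 1) * (g i0 + 1) + 2 * (i0 + 1)
      omega)
  have hlow := hG (i0 + 1) (fun i => i * (g i0 + 1) + 2 * (i0 + 1 + G (i0 + 1) * p))
    (heven i0 _) (by
      show G (i0 + 1) ≤ 0 * (g i0 + 1) + 2 * (i0 + 1 + G (i0 + 1) * p)
      have : G (i0 + 1) * 1 ≤ G (i0 + 1) * p := Nat.mul_le_mul_left _ hp
      omega) (by
      intro i
      have := hgap i0 (i0 + 1 + G (i0 + 1) * p) i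
      show i * (g i0 + 1) + 2 * (i0 + 1 + G (i0 + 1) * p) + G (i0 + 1) ≤
        (i + 1) * (g i0 + 1) + 2 * (i0 + 1 + G (i0 + 1) * p)
      omega)
  have h1 : PPL fw (nn i0 (i0 + 1)) ≤ 2 * (i0 + 1) - 1 := hup
  have h2 : 2 * (i0 + 1) ≤ PPL fw (nn i0 (i0 + 1 + G (i0 + 1) * p)) := hlow
  have h3 := hiter (G (i0 + 1))
  have h4 : PPL fw (nn i0 (i0 + 1 + G (i0 + 1) * p)) = PPL fw (nn i0 (i0 + 1)) := by
    exact_mod_cast h3
  omega

end Pool.Agent.Lib.MP_f91ac8_co.FQ.Z45
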